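import Mathlib
import Pool.Agent.H438R2.BR.T11
import Pool.Agent.H789R2.FR.Sph
import Pool.Agent.Helper390.CovarioA
set_option autoImplicit false

namespace Pool.Agent.TH445.J1616

open MeasureTheory Set Complex FourierTransform
open scoped ENNReal NNReal RealInnerProductSpace
open Pool.Agent.H789R2.FR (E sg T)
open Pool.Agent.H438R2.BR (J)

/-- Plancherel with unnormalised phase. -/
theorem planch (d : ℕ) (φ : E d → ℂ) (hm : Measurable φ) (M : ℝ) (hM : ∀ w, ‖φ w‖ ≤ M)
    (hs : ∀ w, w ∉ Metric.ball (0 : E d) 1 → φ w = 0) :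
    ∫⁻ y : E d, ‖∫ w : E d, cexp (-((⟪y, w⟫ : ℝ) : ℂ) * I) * φ w‖ₑ ^ 2 =
      ENNReal.ofReal ((2 * Real.pi) ^ d) * ∫⁻ w, ‖φ w‖ₑ ^ 2 := by
  have hb : volume (Metric.ball (0 : E d) 1) < ∞ := measure_ball_lt_top
  have hφ : φ = (Metric.ball (0 : E d) 1).indicator φ := by
    funext w
    by_cases hw : w ∈ Metric.ball (0 : E d) 1
    · rw [indicator_of_mem hw]
    · rw [indicator_of_notMem hw, hs w hw]
  have hl : ∀ p : ℝ≥0∞, MemLp φ p := by
    intro p
    rw [hφ, memLp_indicator_iff_restrict measurableSet_ball]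
    have : IsFiniteMeasure (volume.restrict (Metric.ball (0 : E d) 1)) :=
      ⟨by rw [Measure.restrict_apply_univ]; exact hb⟩
    exact MemLp.of_bound hm.aestronglyMeasurable M (Filter.Eventually.of_forall hM)
  have h1 : Integrable φ := memLp_one_iff_integrable.1 (hl 1)
  have h2 : MemLp φ 2 := hl 2
  obtain ⟨hF, hpl⟩ := Pool.Agent.Helper390.Covario.plancherel h1 h2
  have hk : (2 * Real.pi)⁻¹ ≠ 0 := by positivity
  have e1 : ∀ y : E d, ∫ w : E d, cexp (-((⟪y, w⟫ : ℝ) : ℂ) * I) * φ w =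
      𝓕 φ ((2 * Real.pi)⁻¹ • y) := by
    intro y
    rw [Real.fourier_eq']
    congr 1
    funext w
    rw [smul_eq_mul, inner_smul_right, real_inner_comm]
    congr 2
    have : (Real.pi : ℂ) ≠ 0 := by exact_mod_cast Real.pi_ne_zero
    push_cast
    field_simp
  have hFc : Continuous (𝓕 φ) :=
    VectorFourier.fourierIntegral_continuous Real.continuous_fourierChar continuous_inner h1
  have e2 : ∫⁻ y : E d, ‖𝓕 φ ((2 * Real.pi)⁻¹ • y)‖ₑ ^ 2 =
      ENNReal.ofReal ((2 * Real.pi) ^ d) * ∫⁻ y : E d, ‖𝓕 φ y‖ₑ ^ 2 := by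
    have hmm : Measurable fun y : E d => ‖𝓕 φ y‖ₑ ^ 2 := by
      exact (hFc.measurable.enorm).pow_const 2
    have hsm : Measurable fun y : E d => (2 * Real.pi)⁻¹ • y := measurable_const_smul _
    rw [← lintegral_map (f := fun y : E d => ‖𝓕 φ y‖ₑ ^ 2) hmm hsm,
      Measure.map_addHaar_smul volume hk, lintegral_smul_measure, smul_eq_mul]
    congr 2
    rw [finrank_euclideanSpace_fin, inv_pow, inv_inv, abs_of_pos (by positivity)]
  have e3 : ∀ f : E d → ℂ, MemLp f 2 → ∫⁻ y : E d, ‖f y‖ₑ ^ 2 = ENNReal.ofReal (∫ y, ‖f y‖ ^ 2) := by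
    intro f hf
    have hi : Integrable fun y => ‖f y‖ ^ 2 := by
      exact (memLp_two_iff_integrable_sq_norm hf.1).1 hf
    rw [ofReal_integral_eq_lintegral_ofReal hi (Filter.Eventually.of_forall fun y => by positivity)]
    apply lintegral_congr
    intro y
    rw [ENNReal.ofReal_pow (norm_nonneg _), ofReal_norm]
  simp_rw [e1]
  rw [e2, e3 _ hF, e3 _ h2, hpl]

/-- the weight is integrable on the ball -/
theorem wt_fin (d : ℕ) (hd : 1 ≤ d) (a : ℝ) (ha0 : 0 ≤ a) (ha : a < 1) :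
    ∫⁻ w in Metric.ball (0 : E d) 1, ENNReal.ofReal ((1 - ‖w‖ ^ 2) ^ (-a)) < ∞ := by
  have := Pool.Agent.H789R2.FR.sg_finite d
  have hm : Measurable fun w : E d => ENNReal.ofReal ((1 - ‖w‖ ^ 2) ^ (-a)) := by
    exact ((measurable_const.sub (measurable_norm.pow_const 2)).pow_const _).ennreal_ofReal
  rw [← lintegral_indicator measurableSet_ball,
    Pool.Agent.H789R2.FR.polar (by omega) _ (hm.indicator measurableSet_ball)]
  have hI : ∫⁻ r in Ioo (0 : ℝ) 1, ENNReal.ofReal ((1 - r) ^ (-a)) < ∞ := by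
    have h1 : IntervalIntegrable (fun x : ℝ => x ^ (-a)) volume 0 1 :=
      intervalIntegral.intervalIntegrable_rpow' (by linarith)
    have h2 := h1.comp_sub_left 1
    simp only [sub_zero, sub_self] at h2
    have h3 := h2.symm
    rw [intervalIntegrable_iff_integrableOn_Ioo_of_le zero_le_one] at h3
    have h4 := h3.lintegral_lt_top
    exact h4
  calc ∫⁻ w, (∫⁻ r in Ioi (0 : ℝ), ENNReal.ofReal (r ^ (d - 1)) *
        (Metric.ball (0 : E d) 1).indicator
          (fun w : E d => ENNReal.ofReal ((1 - ‖w‖ ^ 2) ^ (-a))) (r • w)) ∂(sg d)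
      ≤ ∫⁻ w, (∫⁻ r in Ioo (0 : ℝ) 1, ENNReal.ofReal ((1 - r) ^ (-a))) ∂(sg d) := by
        apply lintegral_mono_ae
        filter_upwards [Pool.Agent.H789R2.FR.sg_ae d] with w hw
        rw [← lintegral_indicator measurableSet_Ioo, ← lintegral_indicator measurableSet_Ioi]
        apply lintegral_mono
        intro r
        by_cases hr : r ∈ Ioi (0 : ℝ)
        · have hr0 : (0 : ℝ) < r := hr
          simp only [indicator_of_mem hr]
          by_cases hr1 : r < 1
          · rw [indicator_of_mem (show r ∈ Ioo (0 : ℝ) 1 from ⟨hr, hr1⟩),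
              indicator_of_mem (show r • w ∈ Metric.ball (0 : E d) 1 by
                rw [mem_ball_zero_iff, norm_smul, hw, mul_one, Real.norm_eq_abs,
                  abs_of_pos hr0]; exact hr1)]
            rw [← ENNReal.ofReal_mul (by positivity)]
            apply ENNReal.ofReal_le_ofReal
            rw [norm_smul, hw, mul_one, Real.norm_eq_abs, abs_of_pos hr0]
            have h5 : (1 - r ^ 2) ^ (-a) ≤ (1 - r) ^ (-a) := by
              apply Real.rpow_le_rpow_of_nonpos (by linarith) (by nlinarith) (by linarith)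
            have h6 : r ^ (d - 1) ≤ 1 := pow_le_one₀ hr0.le hr1.le
            have h7 : 0 ≤ (1 - r ^ 2) ^ (-a) := Real.rpow_nonneg (by nlinarith) _
            calc r ^ (d - 1) * (1 - r ^ 2) ^ (-a) ≤ 1 * (1 - r ^ 2) ^ (-a) :=
                  mul_le_mul_of_nonneg_right h6 h7
              _ = (1 - r ^ 2) ^ (-a) := one_mul _
              _ ≤ _ := h5
          · rw [indicator_of_notMem (show r • w ∉ Metric.ball (0 : E d) 1 by
                rw [mem_ball_zero_iff, norm_smul, hw, mul_one, Real.norm_eq_abs,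
                  abs_of_pos hr0]; exact hr1), mul_zero]
            exact zero_le
        · simp only [indicator_of_notMem hr]
          exact zero_le
    _ = (∫⁻ r in Ioo (0 : ℝ) 1, ENNReal.ofReal ((1 - r) ^ (-a))) * (sg d) univ := by
        rw [lintegral_const]
    _ < ∞ := ENNReal.mul_lt_top hI (measure_lt_top _ _)


/-- the radius of the circle over `w` -/
noncomputable def ρ (d : ℕ) (w : E d) : ℝ := Real.sqrt (1 - ‖w‖ ^ 2)

theorem ρ_meas (d : ℕ) : Measurable (ρ d) := by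
  unfold ρ
  exact Real.continuous_sqrt.measurable.comp (measurable_const.sub (measurable_norm.pow_const 2))

/-- the slice function -/
noncomputable def sl (d : ℕ) (g : E (2 + d) → ℂ) (x : E 2) (w : E d) : ℂ :=
  (Metric.ball (0 : E d) 1).indicator
    (fun w => T (fun u : E 2 => g (J (ρ d w • u) w)) (ρ d w • x)) w

theorem par_meas (d : ℕ) : Measurable (fun p : E d × E 2 => J (ρ d p.1 • p.2) p.1) := by
  have h1 := (Pool.Agent.H438R2.BR.J_mp 2 d).measurable
  have h2 : Measurable (fun p : E d × E 2 => ((ρ d p.1 • p.2, p.1) : E 2 × E d)) :=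
    (((ρ_meas d).comp measurable_fst).smul measurable_snd).prodMk measurable_fst
  exact h1.comp h2

theorem kernel_norm {n : ℕ} (x z : E n) : ‖cexp (-((⟪x, z⟫ : ℝ) : ℂ) * I)‖ = 1 := by
  have h2 : -((⟪x, z⟫ : ℝ) : ℂ) * I = ((-⟪x, z⟫ : ℝ) : ℂ) * I := by push_cast; ring
  rw [h2]
  exact Complex.norm_exp_ofReal_mul_I _

theorem sl_meas (d : ℕ) (g : E (2 + d) → ℂ) (hg : Measurable g) :
    Measurable (fun p : E 2 × E d => sl d g p.1 p.2) := by
  have := Pool.Agent.H789R2.FR.sg_finite 2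
  have h1 : Measurable (fun q : (E 2 × E d) × E 2 =>
      cexp (-((⟪ρ d q.1.2 • q.1.1, q.2⟫ : ℝ) : ℂ) * I) * g (J (ρ d q.1.2 • q.2) q.1.2)) := by
    apply Measurable.mul
    · apply Complex.measurable_exp.comp
      apply Measurable.mul_const
      apply Measurable.neg
      apply Complex.measurable_ofReal.comp
      apply Measurable.inner
      · exact ((ρ_meas d).comp (measurable_snd.comp measurable_fst)).smul
          (measurable_fst.comp measurable_fst)
      · exact measurable_snd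
    · have h0 : Measurable (fun q : (E 2 × E d) × E 2 =>
          ((ρ d q.1.2 • q.2, q.1.2) : E 2 × E d)) :=
        (((ρ_meas d).comp (measurable_snd.comp measurable_fst)).smul measurable_snd).prodMk
          (measurable_snd.comp measurable_fst)
      have h00 : Measurable (fun p : E 2 × E d => g (J p.1 p.2)) :=
        hg.comp (Pool.Agent.H438R2.BR.J_mp 2 d).measurable
      exact h00.comp h0
  have h2 : Measurable (fun p : E 2 × E d =>
      T (fun u : E 2 => g (J (ρ d p.2 • u) p.2)) (ρ d p.2 • p.1)) := by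
    unfold T
    exact (h1.stronglyMeasurable.integral_prod_right (ν := sg 2)).measurable
  have h3 : (fun p : E 2 × E d => sl d g p.1 p.2) =
      (Prod.snd ⁻¹' Metric.ball (0 : E d) 1).indicator (fun p : E 2 × E d =>
      T (fun u : E 2 => g (J (ρ d p.2 • u) p.2)) (ρ d p.2 • p.1)) := by
    funext p
    rfl
  rw [h3]
  exact h2.indicator (measurable_snd measurableSet_ball)

theorem sl_meas' (d : ℕ) (g : E (2 + d) → ℂ) (hg : Measurable g) (x : E 2) :
    Measurable (fun w : E d => sl d g x w) := by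
  have h : Measurable (Function.uncurry (sl d g)) := sl_meas d g hg
  exact h.of_uncurry_left

theorem gw_meas (d : ℕ) (g : E (2 + d) → ℂ) (hg : Measurable g) (w : E d) :
    Measurable (fun u : E 2 => g (J (ρ d w • u) w)) := by
  have h0 : Measurable (fun u : E 2 => ((ρ d w • u, w) : E 2 × E d)) :=
    (measurable_const_smul (ρ d w)).prodMk measurable_const
  have h00 : Measurable (fun p : E 2 × E d => g (J p.1 p.2)) :=
    hg.comp (Pool.Agent.H438R2.BR.J_mp 2 d).measurable
  exact h00.comp h0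

theorem T_bound {n : ℕ} (g : E n → ℂ) (M : ℝ) (hM : ∀ z, ‖g z‖ ≤ M) (x : E n) :
    ‖T g x‖ ≤ M * (sg n).real univ := by
  have := Pool.Agent.H789R2.FR.sg_finite n
  unfold T
  apply norm_integral_le_of_norm_le_const
  refine Filter.Eventually.of_forall fun z => ?_
  rw [norm_mul, kernel_norm, one_mul]
  exact hM z

theorem sl_bound (d : ℕ) (g : E (2 + d) → ℂ) (M : ℝ) (hM : ∀ z, ‖g z‖ ≤ M) (x : E 2) (w : E d) :
    ‖sl d g x w‖ ≤ M * (sg 2).real univ := by
  have hM0 : 0 ≤ M := (norm_nonneg _).trans (hM 0)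
  unfold sl
  by_cases hw : w ∈ Metric.ball (0 : E d) 1
  · rw [indicator_of_mem hw]
    exact T_bound _ M (fun z => hM _) _
  · rw [indicator_of_notMem hw, norm_zero]
    positivity

theorem slice (d : ℕ)
    (harch : sg (2 + d) = ((volume.restrict (Metric.ball (0 : E d) 1)).prod (sg 2)).map
      (fun p : E d × E 2 => J (Real.sqrt (1 - ‖p.1‖ ^ 2) • p.2) p.1))
    (g : E (2 + d) → ℂ) (hg : Measurable g) (M : ℝ) (hM : ∀ z, ‖g z‖ ≤ M) (x : E 2) (y : E d) :
    T g (J x y) = ∫ w : E d, cexp (-((⟪y, w⟫ : ℝ) : ℂ) * I) * sl d g x w := by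
  have := Pool.Agent.H789R2.FR.sg_finite 2
  have : IsFiniteMeasure (volume.restrict (Metric.ball (0 : E d) 1)) :=
    ⟨by rw [Measure.restrict_apply_univ]; exact measure_ball_lt_top⟩
  have hpar : (fun p : E d × E 2 => J (Real.sqrt (1 - ‖p.1‖ ^ 2) • p.2) p.1) =
      (fun p : E d × E 2 => J (ρ d p.1 • p.2) p.1) := rfl
  set f : E (2 + d) → ℂ := fun z => cexp (-((⟪J x y, z⟫ : ℝ) : ℂ) * I) * g z with hf
  have hfm : Measurable f := by
    apply Measurable.mul
    · have h1 : Continuous fun z : E (2 + d) =>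
          Complex.exp (-((⟪J x y, z⟫ : ℝ) : ℂ) * I) := by fun_prop
      exact h1.measurable
    · exact hg
  have hfb : ∀ z, ‖f z‖ ≤ M := by
    intro z
    simp only [hf]
    rw [norm_mul, kernel_norm, one_mul]
    exact hM z
  have hT : T g (J x y) = ∫ z, f z ∂(sg (2 + d)) := rfl
  rw [hT, harch, hpar, integral_map (par_meas d).aemeasurable hfm.aestronglyMeasurable]
  have hint : Integrable (fun p : E d × E 2 => f (J (ρ d p.1 • p.2) p.1))
      ((volume.restrict (Metric.ball (0 : E d) 1)).prod (sg 2)) := by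
    refine Integrable.mono' (integrable_const M) (hfm.comp (par_meas d)).aestronglyMeasurable ?_
    exact Filter.Eventually.of_forall fun p => hfb _
  rw [integral_prod _ hint]
  have e : ∀ w : E d, cexp (-((⟪y, w⟫ : ℝ) : ℂ) * I) * sl d g x w =
      (Metric.ball (0 : E d) 1).indicator (fun w => cexp (-((⟪y, w⟫ : ℝ) : ℂ) * I) *
        T (fun u : E 2 => g (J (ρ d w • u) w)) (ρ d w • x)) w := by
    intro w
    unfold sl
    by_cases hw : w ∈ Metric.ball (0 : E d) 1
    · rw [indicator_of_mem hw, indicator_of_mem hw]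
    · rw [indicator_of_notMem hw, indicator_of_notMem hw, mul_zero]
  simp_rw [e]
  rw [integral_indicator measurableSet_ball]
  congr 1
  funext w
  unfold T
  rw [← integral_const_mul]
  congr 1
  funext u
  simp only [hf]
  rw [Pool.Agent.H438R2.BR.J_inner, ← mul_assoc, ← Complex.exp_add]
  congr 2
  rw [inner_smul_right, real_inner_smul_left]
  push_cast
  ring

/-- dilation of the plane -/
theorem dil (F : E 2 → ℝ≥0∞) (hF : Measurable F) (r : ℝ) (hr : 0 < r) :
    ∫⁻ x : E 2, F (r • x) = ENNReal.ofReal ((r ^ 2)⁻¹) * ∫⁻ x : E 2, F x := by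
  have hsm : Measurable fun y : E 2 => r • y := measurable_const_smul _
  rw [← lintegral_map (f := F) hF hsm,
      Measure.map_addHaar_smul volume hr.ne', lintegral_smul_measure, smul_eq_mul]
  congr 2
  rw [finrank_euclideanSpace_fin, abs_of_pos (by positivity)]


theorem vertex_pair (d : ℕ) (hd : 1 ≤ d)
    (hcirc : ∀ q : ℝ, 4 < q → ∃ C : ℝ≥0, ∀ g : E 2 → ℂ, Measurable g →
      (∃ M : ℝ, ∀ z, ‖g z‖ ≤ M) →
      ∫⁻ x : E 2, ‖T g x‖ₑ ^ q ≤ C * (∫⁻ z, ‖g z‖ₑ ^ 4 ∂(sg 2)) ^ (q / 4))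
    (hmink : ∀ p : ℝ, 1 ≤ p → ∀ h : E 2 → E d → ℝ≥0∞, Measurable (Function.uncurry h) →
      (∫⁻ x, (∫⁻ y, h x y) ^ p) ^ (1 / p) ≤ ∫⁻ y, (∫⁻ x, h x y ^ p) ^ (1 / p))
    (harch : sg (2 + d) = ((volume.restrict (Metric.ball (0 : E d) 1)).prod (sg 2)).map
      (fun p : E d × E 2 => J (Real.sqrt (1 - ‖p.1‖ ^ 2) • p.2) p.1))
    (q : ℝ) (hq : 4 < q) : ∃ C : ℝ≥0, ∀ g : E (2 + d) → ℂ, Measurable g →
      (∃ M : ℝ, ∀ z, ‖g z‖ ≤ M) →
      ∫⁻ x : E 2, (∫⁻ y : E d, ‖T g (J x y)‖ₑ ^ 2) ^ (q / 2) ≤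
        C * (∫⁻ z, ‖g z‖ₑ ^ 4 ∂(sg (2 + d))) ^ (q / 4) := by
  have := Pool.Agent.H789R2.FR.sg_finite 2
  obtain ⟨C, hC⟩ := hcirc q hq
  set p : ℝ := q / 2 with hp
  have hp1 : 1 ≤ p := by rw [hp]; linarith
  have hp0 : 0 < p := by linarith
  have hq0 : 0 < q := by linarith
  set B : Set (E d) := Metric.ball (0 : E d) 1 with hB
  have hBm : MeasurableSet B := measurableSet_ball
  set ω : E d → ℝ≥0∞ := fun w => ENNReal.ofReal ((1 - ‖w‖ ^ 2) ^ (-(4 / q))) with hω
  have hωm : Measurable ω :=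
    ((measurable_const.sub (measurable_norm.pow_const 2)).pow_const _).ennreal_ofReal
  set W : ℝ≥0∞ := ∫⁻ w in B, ω w with hW
  have hWfin : W < ∞ := wt_fin d hd (4 / q) (by positivity) (by rw [div_lt_one hq0]; exact hq)
  set Cd : ℝ≥0∞ := ENNReal.ofReal ((2 * Real.pi) ^ d) with hCd
  have hCdfin : Cd ≠ ∞ := ENNReal.ofReal_ne_top
  have hK : Cd ^ p * (C * W ^ (q / 4)) ≠ ∞ := by
    apply ENNReal.mul_ne_top
    · exact ENNReal.rpow_ne_top_of_nonneg hp0.le hCdfin
    · exact ENNReal.mul_ne_top ENNReal.coe_ne_top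
        (ENNReal.rpow_ne_top_of_nonneg (by positivity) hWfin.ne)
  refine ⟨(Cd ^ p * (C * W ^ (q / 4))).toNNReal, ?_⟩
  rintro g hg ⟨M, hM⟩
  rw [ENNReal.coe_toNNReal hK]
  set N : ℝ≥0∞ := ∫⁻ z, ‖g z‖ₑ ^ 4 ∂(sg (2 + d)) with hN
  set A : E d → ℝ≥0∞ := fun w => ∫⁻ u, ‖g (J (ρ d w • u) w)‖ₑ ^ 4 ∂(sg 2) with hA
  have hpar : (fun p : E d × E 2 => J (Real.sqrt (1 - ‖p.1‖ ^ 2) • p.2) p.1) =
      (fun p : E d × E 2 => J (ρ d p.1 • p.2) p.1) := rfl
  have hg4 : Measurable fun z => ‖g z‖ₑ ^ 4 := hg.enorm.pow_const 4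
  have hAm' : Measurable fun p : E d × E 2 => ‖g (J (ρ d p.1 • p.2) p.1)‖ₑ ^ 4 :=
    hg4.comp (par_meas d)
  have hAm : Measurable A := hAm'.lintegral_prod_right'
  have hAN : ∫⁻ w in B, A w = N := by
    rw [hN, harch, hpar, lintegral_map hg4 (par_meas d), lintegral_prod _ hAm'.aemeasurable]
  -- the function h
  set h : E 2 → E d → ℝ≥0∞ := fun x w => ‖sl d g x w‖ₑ ^ 2 with hh
  have hhm : Measurable (Function.uncurry h) := (sl_meas d g hg).enorm.pow_const 2
  have hplan : ∀ x : E 2, ∫⁻ y : E d, ‖T g (J x y)‖ₑ ^ 2 = Cd * ∫⁻ w, h x w := by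
    intro x
    simp_rw [slice d harch g hg M hM x]
    apply planch d (sl d g x) _ (M * (sg 2).real univ) (sl_bound d g M hM x)
    · intro w hw
      unfold sl
      rw [indicator_of_notMem hw]
    · exact sl_meas' d g hg x
  simp_rw [hplan]
  have hbr : ∀ x, (Cd * ∫⁻ w, h x w) ^ p = Cd ^ p * (∫⁻ w, h x w) ^ p := fun x =>
    ENNReal.mul_rpow_of_nonneg _ _ hp0.le
  simp_rw [hbr]
  have hm1 : Measurable fun x => (∫⁻ w, h x w) ^ p :=
    (hhm.lintegral_prod_right').pow_const p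
  rw [lintegral_const_mul _ hm1, mul_assoc]
  gcongr
  set S : ℝ≥0∞ := ∫⁻ x, (∫⁻ w, h x w) ^ p with hS
  have hmk := hmink p hp1 h hhm
  rw [← hS] at hmk
  -- inner bound
  have hin : ∀ w : E d, (∫⁻ x, h x w ^ p) ^ (1 / p) ≤
      B.indicator (fun w => (C : ℝ≥0∞) ^ (2 / q) * (ω w ^ (1 / 2 : ℝ) * A w ^ (1 / 2 : ℝ))) w := by
    intro w
    by_cases hw : w ∈ B
    · rw [indicator_of_mem hw]
      have hw1 : ‖w‖ < 1 := by rwa [hB, mem_ball_zero_iff] at hw
      have hw2 : 0 < 1 - ‖w‖ ^ 2 := by nlinarith [norm_nonneg w]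
      have hρ : 0 < ρ d w := Real.sqrt_pos.2 hw2
      have hρ2 : ρ d w ^ 2 = 1 - ‖w‖ ^ 2 := Real.sq_sqrt hw2.le
      set gw : E 2 → ℂ := fun u : E 2 => g (J (ρ d w • u) w) with hgw
      have hgwm : Measurable gw := gw_meas d g hg w
      have h1 : ∀ x, h x w ^ p = ‖T gw (ρ d w • x)‖ₑ ^ q := by
        intro x
        simp only [hh, sl]
        rw [indicator_of_mem hw, ← ENNReal.rpow_natCast, ← ENNReal.rpow_mul]
        congr 1
        rw [hp]
        push_cast
        ring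
      simp_rw [h1]
      have hTm : Measurable fun x => ‖T gw x‖ₑ ^ q := by
        have h1 : Measurable (fun q : E 2 × E 2 =>
            cexp (-((⟪q.1, q.2⟫ : ℝ) : ℂ) * I) * gw q.2) := by
          apply Measurable.mul
          · apply Complex.measurable_exp.comp
            apply Measurable.mul_const
            apply Measurable.neg
            apply Complex.measurable_ofReal.comp
            exact measurable_fst.inner measurable_snd
          · exact hgwm.comp measurable_snd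
        have h2 : Measurable (fun x : E 2 => T gw x) := by
          unfold T
          exact (h1.stronglyMeasurable.integral_prod_right (ν := sg 2)).measurable
        exact h2.enorm.pow_const q
      rw [dil (fun x => ‖T gw x‖ₑ ^ q) hTm (ρ d w) hρ]
      have h3 := hC gw hgwm ⟨M, fun z => hM _⟩
      have h4 : (∫⁻ z, ‖gw z‖ₑ ^ 4 ∂(sg 2)) = A w := rfl
      rw [h4] at h3
      calc (ENNReal.ofReal ((ρ d w ^ 2)⁻¹) * ∫⁻ x, ‖T gw x‖ₑ ^ q) ^ (1 / p)
          ≤ (ENNReal.ofReal ((ρ d w ^ 2)⁻¹) * (C * (A w) ^ (q / 4))) ^ (1 / p) := by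
            gcongr
        _ = (C : ℝ≥0∞) ^ (2 / q) * (ω w ^ (1 / 2 : ℝ) * A w ^ (1 / 2 : ℝ)) := by
            have e1 : 1 / p = 2 / q := by rw [hp]; field_simp
            rw [e1, ENNReal.mul_rpow_of_nonneg _ _ (by positivity),
              ENNReal.mul_rpow_of_nonneg _ _ (by positivity), ← ENNReal.rpow_mul]
            have e2 : q / 4 * (2 / q) = 1 / 2 := by field_simp; norm_num
            have e3 : ENNReal.ofReal ((ρ d w ^ 2)⁻¹) ^ (2 / q) = ω w ^ (1 / 2 : ℝ) := by
              rw [hρ2]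
              simp only [hω]
              rw [ENNReal.ofReal_rpow_of_pos (by positivity),
                ENNReal.ofReal_rpow_of_pos (by positivity)]
              congr 1
              rw [← Real.rpow_neg_one, ← Real.rpow_mul hw2.le, ← Real.rpow_mul hw2.le]
              congr 1
              ring
            rw [e2, e3]
            ring
    · rw [indicator_of_notMem hw]
      have h1 : ∀ x, h x w ^ p = 0 := by
        intro x
        simp only [hh, sl]
        rw [indicator_of_notMem hw, enorm_zero, zero_pow two_ne_zero, ENNReal.zero_rpow_of_pos hp0]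
      simp_rw [h1]
      rw [lintegral_zero, ENNReal.zero_rpow_of_pos (by positivity)]
  have hout : S ^ (1 / p) ≤ (C : ℝ≥0∞) ^ (2 / q) * (W ^ (1 / 2 : ℝ) * N ^ (1 / 2 : ℝ)) := by
    refine hmk.trans ((lintegral_mono hin).trans ?_)
    have hf1 : Measurable fun w => ω w ^ (1 / 2 : ℝ) := hωm.pow_const _
    have hf2 : Measurable fun w => A w ^ (1 / 2 : ℝ) := hAm.pow_const _
    have hf3 : Measurable fun w => ω w ^ (1 / 2 : ℝ) * A w ^ (1 / 2 : ℝ) := hf1.mul hf2
    rw [lintegral_indicator hBm, lintegral_const_mul _ hf3]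
    gcongr
    have hCS := ENNReal.lintegral_mul_le_Lp_mul_Lq (volume.restrict B) Real.HolderConjugate.two_two
      hf1.aemeasurable hf2.aemeasurable
    refine hCS.trans (le_of_eq ?_)
    have e1 : ∀ a : ℝ≥0∞, (a ^ (1 / 2 : ℝ)) ^ (2 : ℝ) = a := by
      intro a
      rw [← ENNReal.rpow_mul]
      norm_num
    simp_rw [e1]
    rw [← hAN]
  calc S = (S ^ (1 / p)) ^ p := by
        rw [← ENNReal.rpow_mul, one_div, inv_mul_cancel₀ hp0.ne', ENNReal.rpow_one]
    _ ≤ ((C : ℝ≥0∞) ^ (2 / q) * (W ^ (1 / 2 : ℝ) * N ^ (1 / 2 : ℝ))) ^ p := by gcongr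
    _ = C * W ^ (q / 4) * N ^ (q / 4) := by
        rw [ENNReal.mul_rpow_of_nonneg _ _ hp0.le, ENNReal.mul_rpow_of_nonneg _ _ hp0.le,
          ← ENNReal.rpow_mul, ← ENNReal.rpow_mul, ← ENNReal.rpow_mul]
        have e1 : 2 / q * p = 1 := by rw [hp]; field_simp
        have e2 : 1 / 2 * p = q / 4 := by rw [hp]; ring
        rw [e1, e2, ENNReal.rpow_one, mul_assoc]

end Pool.Agent.TH445.J1616
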