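import Pool.Agent.TH950.FC.Defs

set_option autoImplicit false

namespace Pool.Agent.TH445.J871

open Pool.Agent.TH950.FC
open scoped symmDiff

section general

variable {S V : Type}

theorem path_append {X : LG S V} {x z : V} {w w' : List S} :
    X.Path x (w ++ w') z ↔ ∃ y, X.Path x w y ∧ X.Path y w' z := by
  induction w generalizing x with
  | nil => simp [LG.Path]
  | cons s w ih =>
    simp only [List.cons_append, LG.Path]
    constructor
    · rintro ⟨y, h1, h2⟩
      obtain ⟨y', h3, h4⟩ := ih.1 h2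
      exact ⟨y', ⟨y, h1, h3⟩, h4⟩
    · rintro ⟨y', ⟨y, h1, h3⟩, h4⟩
      exact ⟨y, h1, ih.2 ⟨y', h3, h4⟩⟩

theorem path_det {X : LG S V} {x y z : V} {w : List S} (h : X.Path x w y) (h' : X.Path x w z) :
    y = z := by
  induction w generalizing x with
  | nil => exact h.symm.trans h'
  | cons s w ih =>
    obtain ⟨a, h1, h2⟩ := h
    obtain ⟨b, h3, h4⟩ := h'
    have := X.func h1 h3
    subst this
    exact ih h2 h4

theorem path_single {X : LG S V} {x y : V} {s : S} : X.Path x [s] y ↔ X.E s x y := by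
  simp [LG.Path]

theorem path_reverse {X : LG S V} {x y : V} {w : List S} (h : X.Path x w y) :
    X.Path y w.reverse x := by
  induction w generalizing x with
  | nil => exact h.symm
  | cons s w ih =>
    obtain ⟨a, h1, h2⟩ := h
    rw [List.reverse_cons, path_append]
    exact ⟨a, ih h2, path_single.2 (X.symm h1)⟩

theorem pathIn_left {X : LG S V} {P : Set V} {x y : V} {w : List S} (h : X.PathIn P x w y) :
    x ∈ P := by
  cases w with
  | nil => exact h.2
  | cons s w => exact h.1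

theorem pathIn_path {X : LG S V} {P : Set V} {x y : V} {w : List S} (h : X.PathIn P x w y) :
    X.Path x w y := by
  induction w generalizing x with
  | nil => exact h.1
  | cons s w ih =>
    obtain ⟨_, a, h1, h2⟩ := h
    exact ⟨a, h1, ih h2⟩

/-- Every word can be reduced without changing the end points. -/
theorem red_exists {X : LG S V} {x y : V} {w : List S} (h : X.Path x w y) :
    ∃ w', Red w' ∧ X.Path x w' y ∧ w'.length ≤ w.length := by
  induction w generalizing x with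
  | nil => exact ⟨[], List.isChain_nil, h, le_rfl⟩
  | cons s w ih =>
    obtain ⟨a, h1, h2⟩ := h
    obtain ⟨w', h3, h4, h5⟩ := ih h2
    cases w' with
    | nil =>
      exact ⟨[s], List.isChain_singleton _, ⟨a, h1, h4⟩, by simp⟩
    | cons t w'' =>
      by_cases hst : s = t
      · subst hst
        obtain ⟨b, h6, h7⟩ := h4
        have hb : b = x := X.func h6 (X.symm h1)
        subst hb
        refine ⟨w'', h3.tail, h7, ?_⟩
        simp only [List.length_cons] at h5 ⊢
        omega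
      · refine ⟨s :: t :: w'', ?_, ⟨a, h1, h4⟩, by simpa using h5⟩
        exact List.isChain_cons_cons.2 ⟨hst, h3⟩

/-- The subgraph with edges in `F`. -/
def res (X : LG S V) (F : Set (Sym2 V)) : LG S V where
  E s x y := X.E s x y ∧ s(x, y) ∈ F
  symm := fun h => ⟨X.symm h.1, by rw [Sym2.eq_swap]; exact h.2⟩
  func := fun h h' => X.func h.1 h'.1

theorem res_path {X : LG S V} {F : Set (Sym2 V)} {x y : V} {w : List S}
    (h : (res X F).Path x w y) : X.Path x w y := by
  induction w generalizing x with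
  | nil => exact h
  | cons s w ih =>
    obtain ⟨a, h1, h2⟩ := h
    exact ⟨a, h1.1, ih h2⟩

theorem res_mono {X : LG S V} {F F' : Set (Sym2 V)} (hF : F ⊆ F') {x y : V} {w : List S}
    (h : (res X F).Path x w y) : (res X F').Path x w y := by
  induction w generalizing x with
  | nil => exact h
  | cons s w ih =>
    obtain ⟨a, h1, h2⟩ := h
    exact ⟨a, ⟨h1.1, hF h1.2⟩, ih h2⟩

variable [DecidableEq V]

theorem cov_base {X : LG S V} {c d : V × Finset (Sym2 V)} {w : List S}
    (h : X.cov.Path c w d) : X.Path c.1 w d.1 := by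
  induction w generalizing c with
  | nil => exact congrArg Prod.fst h
  | cons s w ih =>
    obtain ⟨a, h1, h2⟩ := h
    exact ⟨a.1, h1.1, ih h2⟩

theorem cov_res {X : LG S V} {F : Set (Sym2 V)} {c d : V × Finset (Sym2 V)} {w : List S}
    (h : (res X F).cov.Path c w d) : X.cov.Path c w d := by
  induction w generalizing c with
  | nil => exact h
  | cons s w ih =>
    obtain ⟨a, h1, h2⟩ := h
    exact ⟨a, ⟨h1.1.1, h1.2⟩, ih h2⟩

theorem cov_lift {X : LG S V} {x y : V} {w : List S} (h : X.Path x w y)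
    (B : Finset (Sym2 V)) : ∃ B', X.cov.Path (x, B) w (y, B') := by
  induction w generalizing x B with
  | nil => exact ⟨B, by rw [show x = y from h]; rfl⟩
  | cons s w ih =>
    obtain ⟨a, h1, h2⟩ := h
    obtain ⟨B', h3⟩ := ih h2 (B ∆ {s(x, a)})
    exact ⟨B', (a, B ∆ {s(x, a)}), ⟨h1, rfl⟩, h3⟩

theorem cov_step_symmDiff {X : LG S V} {c c' d : V × Finset (Sym2 V)} {s : S}
    (h : X.cov.E s c c') : c.2 ∆ d.2 = {s(c.1, c'.1)} ∆ (c'.2 ∆ d.2) := by
  rw [h.2, symmDiff_comm c.2 {s(c.1, c'.1)}, ← symmDiff_assoc, ← symmDiff_assoc,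
    symmDiff_self, bot_symmDiff]

/-- The edges in the symmetric difference are crossed by the path. -/
theorem cov_cross {X : LG S V} {c d : V × Finset (Sym2 V)} {w : List S} {e : Sym2 V}
    (h : X.cov.Path c w d) (he : e ∈ c.2 ∆ d.2) :
    ∃ w1 s w2 y y', w = w1 ++ s :: w2 ∧ X.cov.Path c w1 y ∧ X.cov.E s y y' ∧
      X.cov.Path y' w2 d ∧ e = s(y.1, y'.1) := by
  induction w generalizing c with
  | nil =>
    rw [show c = d from h, symmDiff_self] at he
    simp at he
  | cons s w ih =>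
    obtain ⟨a, h1, h2⟩ := h
    rw [cov_step_symmDiff h1, Finset.mem_symmDiff] at he
    by_cases h3 : e ∈ a.2 ∆ d.2
    · obtain ⟨w1, t, w2, y, y', h4, h5, h6, h7, h8⟩ := ih h2 h3
      exact ⟨s :: w1, t, w2, y, y', by rw [h4]; rfl, ⟨a, h1, h5⟩, h6, h7, h8⟩
    · have h4 : e = s(c.1, a.1) := by
        rcases he with ⟨h4, _⟩ | ⟨h4, _⟩
        · simpa using h4
        · exact absurd h4 h3
      exact ⟨[], s, w, c, a, rfl, rfl, h1, h2, h4⟩

end general

theorem sum_symmDiff {α : Type} [DecidableEq α] (f : α → ZMod 2) (A B : Finset α) :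
    ∑ e ∈ A ∆ B, f e = ∑ e ∈ A, f e + ∑ e ∈ B, f e := by
  have h1 : ∑ e ∈ A ∆ B, f e = ∑ e ∈ A \ B, f e + ∑ e ∈ B \ A, f e := by
    rw [← Finset.sum_union]
    · rfl
    · exact disjoint_sdiff_sdiff
  have h2 : ∑ e ∈ A, f e = ∑ e ∈ A \ B, f e + ∑ e ∈ A ∩ B, f e := by
    rw [← Finset.sum_union (Finset.disjoint_sdiff_inter A B), Finset.sdiff_union_inter]
  have h3 : ∑ e ∈ B, f e = ∑ e ∈ B \ A, f e + ∑ e ∈ A ∩ B, f e := by
    rw [Finset.inter_comm, ← Finset.sum_union (Finset.disjoint_sdiff_inter B A),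
      Finset.sdiff_union_inter]
  rw [h1, h2, h3]
  have h4 : ∑ e ∈ A ∩ B, f e + ∑ e ∈ A ∩ B, f e = 0 := CharTwo.add_self_eq_zero _
  linear_combination -h4

section radius

variable {S V : Type}

/-- The length of a shortest path. -/
noncomputable def dd (Y : LG S V) (x z : V) : ℕ := sInf {n | ∃ w, w.length = n ∧ Y.Path x w z}

theorem dd_spec {Y : LG S V} {x z : V} (h : Y.Reach x z) :
    ∃ w, w.length = dd Y x z ∧ Y.Path x w z := by
  obtain ⟨w, hw⟩ := h
  exact Nat.sInf_mem (s := {n | ∃ w, w.length = n ∧ Y.Path x w z}) ⟨w.length, w, rfl, hw⟩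

theorem dd_le {Y : LG S V} {x z : V} {w : List S} (h : Y.Path x w z) :
    dd Y x z ≤ w.length := Nat.sInf_le ⟨w, rfl, h⟩

theorem reach_append {Y : LG S V} {x y z : V} {w : List S} (h : Y.Reach x y)
    (h' : Y.Path y w z) : Y.Reach x z := by
  obtain ⟨w', h1⟩ := h
  exact ⟨w' ++ w, path_append.2 ⟨y, h1, h'⟩⟩

theorem dd_le_add {Y : LG S V} {x y z : V} {w : List S} (h : Y.Reach x y)
    (h' : Y.Path y w z) : dd Y x z ≤ dd Y x y + w.length := by
  obtain ⟨w', h1, h2⟩ := dd_spec h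
  have h3 := dd_le (path_append.2 ⟨y, h2, h'⟩)
  rw [List.length_append, h1] at h3
  exact h3

theorem levels {Y : LG S V} {x : V} (d : ℕ) : ∀ z, Y.Reach x z → dd Y x z = d →
    ∀ n < d, ∃ s y y', Y.E s y y' ∧ Y.Reach x y ∧ dd Y x y = n ∧ dd Y x y' = n + 1 := by
  induction d with
  | zero => intro z _ _ n hn; omega
  | succ d ih =>
    intro z hz hd n hn
    obtain ⟨w, hw, hp⟩ := dd_spec hz
    rw [hd] at hw
    rcases List.eq_nil_or_concat w with h | ⟨w', s, h⟩
    · rw [h] at hw; simp at hw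
    · rw [h, List.concat_eq_append] at hw hp
      rw [List.length_append, List.length_singleton] at hw
      obtain ⟨y, h1, h2⟩ := path_append.1 hp
      have hy : Y.Reach x y := ⟨w', h1⟩
      have h3 := dd_le h1
      have h4 := dd_le_add hy h2
      rw [List.length_singleton] at h4
      have h5 : dd Y x y = d := by omega
      by_cases hnd : n = d
      · exact ⟨s, y, z, path_single.1 h2, hy, by rw [h5, hnd], by rw [hd, hnd]⟩
      · exact ih y hy h5 n (by omega)

/-- The radius lemma: components of a graph consisting of two pieces of diameter at most `k`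
and `b` further edges have diameter at most `2 * k + b`. -/
theorem radius {Y : LG S V} {H₁ H₂ : Set (Sym2 V)} {B : Finset (Sym2 V)} {k : ℕ}
    (hY : ∀ {s x y}, Y.E s x y → s(x, y) ∈ H₁ ∨ s(x, y) ∈ H₂ ∨ s(x, y) ∈ B)
    (h₁ : ∀ e ∈ H₁, ∀ e' ∈ H₁, ∀ y ∈ e, ∀ y' ∈ e', ∃ w, Y.Path y w y' ∧ w.length ≤ k)
    (h₂ : ∀ e ∈ H₂, ∀ e' ∈ H₂, ∀ y ∈ e, ∀ y' ∈ e', ∃ w, Y.Path y w y' ∧ w.length ≤ k)
    {x z : V} (hxz : Y.Reach x z) :
    ∃ w, Red w ∧ Y.Path x w z ∧ w.length ≤ 2 * k + B.card := by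
  classical
  suffices h : dd Y x z ≤ 2 * k + B.card by
    obtain ⟨w, h1, h2⟩ := dd_spec hxz
    obtain ⟨w', h3, h4, h5⟩ := red_exists h2
    exact ⟨w', h3, h4, by omega⟩
  set d := dd Y x z with hd
  have hl : ∀ n : Fin d, ∃ e : Sym2 V, ∃ s y y', Y.E s y y' ∧ e = s(y, y') ∧ Y.Reach x y ∧
      dd Y x y = n.1 ∧ dd Y x y' = n.1 + 1 := by
    intro n
    obtain ⟨s, y, y', h1, h2, h3, h4⟩ := levels d z hxz hd.symm n.1 n.2
    exact ⟨s(y, y'), s, y, y', h1, rfl, h2, h3, h4⟩
  choose e he using hl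
  have hpiece : ∀ H : Set (Sym2 V),
      (∀ e ∈ H, ∀ e' ∈ H, ∀ y ∈ e, ∀ y' ∈ e', ∃ w, Y.Path y w y' ∧ w.length ≤ k) →
      (Finset.univ.filter fun n : Fin d => e n ∈ H).card ≤ k := by
    intro H hH
    set s := Finset.univ.filter fun n : Fin d => e n ∈ H with hs
    rcases s.eq_empty_or_nonempty with h0 | h0
    · rw [h0]; simp
    · have hm := s.min'_mem h0
      set m := s.min' h0 with hmdef
      have h1 : s.map Fin.valEmbedding ⊆ Finset.Ico m.1 (m.1 + k) := by
        intro n hn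
        rw [Finset.mem_map] at hn
        obtain ⟨n', hn', rfl⟩ := hn
        have h2 : m ≤ n' := s.min'_le n' hn'
        have h3 : e m ∈ H := (Finset.mem_filter.1 hm).2
        have h4 : e n' ∈ H := (Finset.mem_filter.1 hn').2
        obtain ⟨t, y, y', a1, a2, a3, a4, a5⟩ := he m
        obtain ⟨t', v, v', b1, b2, b3, b4, b5⟩ := he n'
        obtain ⟨w, c1, c2⟩ := hH _ h3 _ h4 y (by rw [a2]; simp) v' (by rw [b2]; simp)
        have h5 := dd_le_add a3 c1
        rw [Finset.mem_Ico]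
        have h6 : m.1 ≤ n'.1 := h2
        show m.1 ≤ n'.1 ∧ n'.1 < m.1 + k
        omega
      calc s.card = (s.map Fin.valEmbedding).card := (Finset.card_map _).symm
        _ ≤ (Finset.Ico m.1 (m.1 + k)).card := Finset.card_le_card h1
        _ = k := by simp
  have hB : (Finset.univ.filter fun n : Fin d => e n ∈ B).card ≤ B.card := by
    apply Finset.card_le_card_of_injOn e
    · intro n hn
      exact (Finset.mem_filter.1 hn).2
    · intro n _ n' _ hnn
      obtain ⟨t, y, y', a1, a2, a3, a4, a5⟩ := he n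
      obtain ⟨t', v, v', b1, b2, b3, b4, b5⟩ := he n'
      rw [a2, b2, Sym2.eq_iff] at hnn
      apply Fin.ext
      rcases hnn with ⟨h1, h2⟩ | ⟨h1, h2⟩
      · rw [← a4, ← b4, h1]
      · have h3 : n.1 = n'.1 + 1 := by rw [← a4, h1, b5]
        have h4 : n.1 + 1 = n'.1 := by rw [← a5, h2, b4]
        omega
  have hcov : (Finset.univ : Finset (Fin d)) ⊆
      (Finset.univ.filter fun n : Fin d => e n ∈ H₁) ∪
      (Finset.univ.filter fun n : Fin d => e n ∈ H₂) ∪
      (Finset.univ.filter fun n : Fin d => e n ∈ B) := by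
    intro n _
    obtain ⟨t, y, y', a1, a2, a3, a4, a5⟩ := he n
    simp only [Finset.mem_union, Finset.mem_filter, Finset.mem_univ, true_and]
    rw [a2]
    rcases hY a1 with h | h | h
    · exact Or.inl (Or.inl h)
    · exact Or.inl (Or.inr h)
    · exact Or.inr h
  have h1 := Finset.card_le_card hcov
  rw [Finset.card_univ, Fintype.card_fin] at h1
  have h2 := Finset.card_union_le
    ((Finset.univ.filter fun n : Fin d => e n ∈ H₁) ∪
      (Finset.univ.filter fun n : Fin d => e n ∈ H₂))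
    (Finset.univ.filter fun n : Fin d => e n ∈ B)
  have h3 := Finset.card_union_le (Finset.univ.filter fun n : Fin d => e n ∈ H₁)
    (Finset.univ.filter fun n : Fin d => e n ∈ H₂)
  have h4 := hpiece H₁ h₁
  have h5 := hpiece H₂ h₂
  omega

end radius

section theta

variable {S Q : Type} [DecidableEq Q] (T : Theta S Q)

theorem g_path {x y : Q} {w : List S} (h : T.toLG.Path x w y) : T.g y = T.g x := by
  induction w generalizing x with
  | nil => rw [show x = y from h]
  | cons s w ih =>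
    obtain ⟨a, h1, h2⟩ := h
    rw [ih h2, T.g_edge h1]

theorem no_loop {x : Q} {w : List S} (hw : Red w) (h : T.toLG.Path x w x)
    (hl : w.length < T.g x) : w = [] :=
  T.girth hw List.isChain_nil h rfl (by simpa using hl)

theorem edge_ne {x y : Q} {s : S} (h : T.E s x y) : x ≠ y := by
  rintro rfl
  have := no_loop T (List.isChain_singleton s) (path_single.2 h)
    (by have := T.hundred_le x; simp; omega)
  simp at this

theorem parity {c d : Q × Finset (Sym2 Q)} {w : List S} (h : T.cov.Path c w d) (v : Q) :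
    ∑ e ∈ c.2 ∆ d.2, (if v ∈ e then (1 : ZMod 2) else 0) =
      (if c.1 = v then 1 else 0) + (if d.1 = v then 1 else 0) := by
  induction w generalizing c with
  | nil =>
    have h' : c = d := h
    rw [h', symmDiff_self, Finset.bot_eq_empty, Finset.sum_empty]
    exact (CharTwo.add_self_eq_zero _).symm
  | cons s w ih =>
    obtain ⟨a, h1, h2⟩ := h
    rw [cov_step_symmDiff h1, sum_symmDiff, ih h2, Finset.sum_singleton]
    have h3 : c.1 ≠ a.1 := edge_ne T h1.1
    have h4 : (if v ∈ s(c.1, a.1) then (1 : ZMod 2) else 0) =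
        (if c.1 = v then 1 else 0) + (if a.1 = v then 1 else 0) := by
      by_cases h5 : c.1 = v
      · have h6 : a.1 ≠ v := fun h => h3 (h5.trans h.symm)
        have h7 : v ∈ s(c.1, a.1) := Sym2.mem_iff.2 (Or.inl h5.symm)
        rw [if_pos h7, if_pos h5, if_neg h6, add_zero]
      · by_cases h6 : a.1 = v
        · have h7 : v ∈ s(c.1, a.1) := Sym2.mem_iff.2 (Or.inr h6.symm)
          rw [if_pos h7, if_neg h5, if_pos h6, zero_add]
        · have h7 : v ∉ s(c.1, a.1) := by
            rw [Sym2.mem_iff]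
            rintro (h | h)
            · exact h5 h.symm
            · exact h6 h.symm
          rw [if_neg h7, if_neg h5, if_neg h6, zero_add]
    rw [h4]
    have h5 := CharTwo.add_self_eq_zero (if a.1 = v then (1 : ZMod 2) else 0)
    linear_combination h5

theorem red_prefix {w w' : List S} (h : Red (w ++ w')) : Red w := (List.isChain_append.1 h).1

theorem red_suffix {w w' : List S} (h : Red (w ++ w')) : Red w' := (List.isChain_append.1 h).2.1

theorem red_reverse {w : List S} (h : Red w) : Red w.reverse := by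
  rw [Red, List.isChain_reverse]
  exact h.imp fun _ _ h => h.symm

/-- Short reduced paths of the cover are geodesics for the wall metric. -/
theorem card_symmDiff {c d : Q × Finset (Sym2 Q)} {w : List S} (h : T.cov.Path c w d)
    (hw : Red w) (hl : w.length < T.g c.1) : (c.2 ∆ d.2).card = w.length := by
  induction w generalizing c with
  | nil =>
    have h' : c = d := h
    rw [h', symmDiff_self]; rfl
  | cons s w ih =>
    obtain ⟨a, h1, h2⟩ := h
    have hg : T.g a.1 = T.g c.1 := T.g_edge h1.1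
    have hl' : w.length + 1 < T.g c.1 := by simpa using hl
    have h3 := ih h2 hw.tail (by omega)
    have h4 : s(c.1, a.1) ∉ a.2 ∆ d.2 := by
      intro h4
      obtain ⟨w1, t, w2, y, y', h5, h6, h7, h8, h9⟩ := cov_cross h2 h4
      have h10 : c.1 = y.1 ∨ c.1 = y'.1 := by
        have : c.1 ∈ s(y.1, y'.1) := by rw [← h9]; simp
        simpa using this
      have hlen : w.length = w1.length + w2.length + 1 := by
        rw [h5]; simp; omega
      rcases h10 with h10 | h10
      · have h11 : T.toLG.Path c.1 (s :: w1) c.1 := by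
          refine ⟨a.1, h1.1, ?_⟩
          rw [h10]
          exact cov_base h6
        have h12 : Red (s :: w1) := by
          have : Red ((s :: w1) ++ (t :: w2)) := by rw [List.cons_append, ← h5]; exact hw
          exact red_prefix this
        have := no_loop T h12 h11 (by simp; omega)
        simp at this
      · have h11 : T.toLG.Path c.1 (s :: (w1 ++ [t])) c.1 := by
          refine ⟨a.1, h1.1, path_append.2 ⟨y.1, cov_base h6, path_single.2 ?_⟩⟩
          rw [h10]
          exact h7.1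
        have h12 : Red (s :: (w1 ++ [t])) := by
          have : Red ((s :: (w1 ++ [t])) ++ w2) := by
            have h13 : (s :: (w1 ++ [t])) ++ w2 = s :: w := by rw [h5]; simp
            rw [h13]; exact hw
          exact red_prefix this
        have := no_loop T h12 h11 (by simp; omega)
        simp at this
    rw [cov_step_symmDiff h1]
    have h5 : {s(c.1, a.1)} ∆ (a.2 ∆ d.2) = insert s(c.1, a.1) (a.2 ∆ d.2) := by
      ext e
      rw [Finset.mem_symmDiff, Finset.mem_insert, Finset.mem_singleton]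
      constructor
      · rintro (⟨h, _⟩ | ⟨h, _⟩)
        · exact Or.inl h
        · exact Or.inr h
      · rintro (h | h)
        · left
          exact ⟨h, by rw [h]; exact h4⟩
        · right
          refine ⟨h, ?_⟩
          rintro rfl
          exact h4 h
    rw [h5, Finset.card_insert_of_notMem h4, h3, List.length_cons]

/-- Existence of leaves. -/
theorem exists_leaf {F : Set (Sym2 Q)} {A : Finset (Sym2 Q)} (hA : (A : Set (Sym2 Q)) ⊆ F)
    {r : ℕ} {v₀ : Q}
    (hrad : ∀ x z, (res T.toLG F).Reach x z →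
      ∃ w, Red w ∧ (res T.toLG F).Path x w z ∧ w.length ≤ r)
    (hr : 2 * r + 1 < T.g v₀) {s₀ : S} {b₀ : Q} (h0 : T.E s₀ v₀ b₀) (h0' : s(v₀, b₀) ∈ A) :
    ∃ w s b, Red (w ++ [s]) ∧ (w ++ [s]).length ≤ r ∧
      (res T.toLG (A : Set (Sym2 Q))).Path v₀ (w ++ [s]) b ∧
      ∀ t c, T.E t b c → s(b, c) ∈ A → t = s := by
  by_contra hcon
  have hbound : ∀ w b, Red w → w.length ≤ r + 1 →
      (res T.toLG (A : Set (Sym2 Q))).Path v₀ w b → w.length ≤ r := by
    intro w b h1 h2 h3
    have h4 := res_mono hA h3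
    obtain ⟨w', h5, h6, h7⟩ := hrad v₀ b ⟨w, h4⟩
    have h8 := T.girth h1 h5 (res_path h3) (res_path h6) (by omega)
    rw [h8]; exact h7
  have hclaim : ∀ n ≤ r, ∃ w s b, w.length = n ∧ Red (w ++ [s]) ∧
      (res T.toLG (A : Set (Sym2 Q))).Path v₀ (w ++ [s]) b := by
    intro n
    induction n with
    | zero =>
      intro _
      exact ⟨[], s₀, b₀, rfl, List.isChain_singleton _, b₀, ⟨h0, h0'⟩, rfl⟩
    | succ n ih =>
      intro hn
      obtain ⟨w, s, b, h1, h2, h3⟩ := ih (by omega)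
      have h4 := hbound (w ++ [s]) b h2 (by simp; omega) h3
      have h5 : ¬ ∀ t c, T.E t b c → s(b, c) ∈ A → t = s := fun h => hcon ⟨w, s, b, h2, h4, h3, h⟩
      push Not at h5
      obtain ⟨t, c, h6, h7, h8⟩ := h5
      refine ⟨w ++ [s], t, c, by simp [h1], ?_, ?_⟩
      · rw [Red, List.isChain_append]
        refine ⟨h2, List.isChain_singleton _, ?_⟩
        intro x hx y hy
        simp at hx hy
        subst hx hy
        exact h8.symm
      · exact path_append.2 ⟨b, h3, c, ⟨h6, h7⟩, rfl⟩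
  obtain ⟨w, s, b, h1, h2, h3⟩ := hclaim r le_rfl
  have := hbound (w ++ [s]) b h2 (by simp [h1]) h3
  simp at this
  omega

theorem leaf_sum {A : Finset (Sym2 Q)} (hreal : ∀ e ∈ A, ∃ t y y', T.E t y y' ∧ e = s(y, y'))
    {v₀ b : Q} {w : List S} {s : S}
    (hp : (res T.toLG (A : Set (Sym2 Q))).Path v₀ (w ++ [s]) b)
    (hleaf : ∀ t c, T.E t b c → s(b, c) ∈ A → t = s) :
    ∑ e ∈ A, (if b ∈ e then (1 : ZMod 2) else 0) = 1 := by
  obtain ⟨a, _, ha⟩ := path_append.1 hp
  have ha' := path_single.1 ha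
  have ha1 : T.E s b a := T.symm ha'.1
  have ha2 : s(a, b) ∈ A := ha'.2
  rw [Finset.sum_eq_single (s(a, b))]
  · rw [if_pos (by simp)]
  · intro e he hne
    rw [if_neg]
    intro hb
    apply hne
    obtain ⟨t, y, y', h1, h2⟩ := hreal e he
    rw [h2, Sym2.mem_iff] at hb
    rcases hb with hb | hb
    · rw [← hb] at h1 h2
      have h3 : t = s := hleaf t y' h1 (h2 ▸ he)
      rw [h3] at h1
      rw [h2, T.func h1 ha1, Sym2.eq_swap]
    · rw [← hb] at h1 h2
      have h3 : t = s := hleaf t y (T.symm h1) (by rw [Sym2.eq_swap]; exact h2 ▸ he)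
      rw [h3] at h1
      rw [h2, T.func (T.symm h1) ha1]
  · intro h
    exact absurd ha2 h

theorem edgesOf_mem {P : Set (Q × Finset (Sym2 Q))} {e : Sym2 Q} (he : e ∈ edgesOf T P)
    {v : Q} (hv : v ∈ e) : ∃ c ∈ P, c.1 = v := by
  obtain ⟨s, c, c', h1, h2, h3, rfl⟩ := he
  rw [Sym2.mem_iff] at hv
  rcases hv with hv | hv
  · exact ⟨c, h1, hv.symm⟩
  · exact ⟨c', h2, hv.symm⟩

theorem pathIn_res {P : Set (Q × Finset (Sym2 Q))} {c d : Q × Finset (Sym2 Q)} {w : List S}
    (h : T.cov.PathIn P c w d) : (res T.toLG (edgesOf T P)).Path c.1 w d.1 := by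
  induction w generalizing c with
  | nil => exact congrArg Prod.fst h.1
  | cons s w ih =>
    obtain ⟨hc, a, h1, h2⟩ := h
    exact ⟨a.1, ⟨h1.1, s, c, a, hc, pathIn_left h2, h1, rfl⟩, ih h2⟩

end theta

/-- Inside one block, two connected sets of small diameter are either separated by many walls
crossing neither of them, or joined by a short path crossing only such walls. -/
theorem block_dichotomy {S Q : Type} [DecidableEq Q] (T : Theta S Q) (q₀ : Q)
    (P₁ P₂ : Set (Q × Finset (Sym2 Q)))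
    (h₁ : ∀ c ∈ P₁, T.cov.Reach (q₀, ∅) c) (h₂ : ∀ c ∈ P₂, T.cov.Reach (q₀, ∅) c)
    (hc₁ : ∀ c ∈ P₁, ∀ c' ∈ P₁, ∃ u, Red u ∧ T.cov.PathIn P₁ c u c' ∧
      100 * u.length ≤ 9 * T.g q₀)
    (hc₂ : ∀ c ∈ P₂, ∀ c' ∈ P₂, ∃ u, Red u ∧ T.cov.PathIn P₂ c u c' ∧
      100 * u.length ≤ 9 * T.g q₀) :
    (∀ c₁ ∈ P₁, ∀ c₂ ∈ P₂,
      T.g q₀ ≤ 4 * {e | e ∈ c₁.2 ∆ c₂.2 ∧ e ∉ edgesOf T P₁ ∧ e ∉ edgesOf T P₂}.ncard) ∨
    (∃ c₁ ∈ P₁, ∃ c₂ ∈ P₂, ∃ u, Red u ∧ T.cov.Path c₁ u c₂ ∧
      (c₁.2 ∆ c₂.2).card = u.length ∧ 4 * u.length < T.g q₀ ∧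
      (∀ e ∈ c₁.2 ∆ c₂.2, e ∉ edgesOf T P₁ ∧ e ∉ edgesOf T P₂) ∧
      (c₁ = c₂ ∨ Disjoint (edgesOf T P₁) (edgesOf T P₂))) := by
  classical
  by_cases ha : ∀ c₁ ∈ P₁, ∀ c₂ ∈ P₂,
      T.g q₀ ≤ 4 * {e | e ∈ c₁.2 ∆ c₂.2 ∧ e ∉ edgesOf T P₁ ∧ e ∉ edgesOf T P₂}.ncard
  · exact Or.inl ha
  right
  push Not at ha
  obtain ⟨c₁, hc1, c₂, hc2, hlt⟩ := ha
  set A : Finset (Sym2 Q) := c₁.2 ∆ c₂.2 with hA
  set B : Finset (Sym2 Q) := A.filter (fun e => e ∉ edgesOf T P₁ ∧ e ∉ edgesOf T P₂) with hB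
  have hBcard : {e | e ∈ A ∧ e ∉ edgesOf T P₁ ∧ e ∉ edgesOf T P₂}.ncard = B.card := by
    rw [← Set.ncard_coe_finset]
    congr 1
    ext e
    simp [hB]
  rw [hBcard] at hlt
  set g := T.g q₀ with hgdef
  have hg100 : 100 ≤ g := T.hundred_le q₀
  obtain ⟨k, hk⟩ : ∃ k, k = 9 * g / 100 := ⟨_, rfl⟩
  have hlen : ∀ n : ℕ, 100 * n ≤ 9 * g → n ≤ k := fun n hn => by omega
  set F : Set (Sym2 Q) := edgesOf T P₁ ∪ edgesOf T P₂ ∪ (B : Set (Sym2 Q)) with hF
  have hAF : (A : Set (Sym2 Q)) ⊆ F := by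
    intro e he
    by_cases h1 : e ∈ edgesOf T P₁
    · exact Or.inl (Or.inl h1)
    · by_cases h2 : e ∈ edgesOf T P₂
      · exact Or.inl (Or.inr h2)
      · exact Or.inr (Finset.mem_coe.2 (Finset.mem_filter.2 ⟨he, h1, h2⟩))
  have hrad : ∀ x z, (res T.toLG F).Reach x z →
      ∃ w, Red w ∧ (res T.toLG F).Path x w z ∧ w.length ≤ 2 * k + B.card := by
    intro x z hxz
    refine radius (H₁ := edgesOf T P₁) (H₂ := edgesOf T P₂) ?_ ?_ ?_ hxz
    · intro s x y h
      rcases h.2 with (h1 | h1) | h1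
      · exact Or.inl h1
      · exact Or.inr (Or.inl h1)
      · exact Or.inr (Or.inr h1)
    · intro e he e' he' y hy y' hy'
      obtain ⟨c, hc, rfl⟩ := edgesOf_mem T he hy
      obtain ⟨c', hc', rfl⟩ := edgesOf_mem T he' hy'
      obtain ⟨u, _, hu, hul⟩ := hc₁ c hc c' hc'
      exact ⟨u, res_mono (fun e h => Or.inl (Or.inl h)) (pathIn_res T hu), hlen _ hul⟩
    · intro e he e' he' y hy y' hy'
      obtain ⟨c, hc, rfl⟩ := edgesOf_mem T he hy
      obtain ⟨c', hc', rfl⟩ := edgesOf_mem T he' hy'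
      obtain ⟨u, _, hu, hul⟩ := hc₂ c hc c' hc'
      exact ⟨u, res_mono (fun e h => Or.inl (Or.inr h)) (pathIn_res T hu), hlen _ hul⟩
  obtain ⟨r, hr⟩ : ∃ r, r = 2 * k + B.card := ⟨_, rfl⟩
  rw [← hr] at hrad
  have hrg : 2 * r + 1 < g := by omega
  have hgc : ∀ c, T.cov.Reach (q₀, ∅) c → T.g c.1 = g := by
    rintro c ⟨w, hw⟩
    exact g_path T (cov_base hw)
  have hg1 : ∀ c ∈ P₁, T.g c.1 = g := fun c hc => hgc c (h₁ c hc)
  have hg2 : ∀ c ∈ P₂, T.g c.1 = g := fun c hc => hgc c (h₂ c hc)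
  obtain ⟨wf, hwf⟩ : ∃ w, T.cov.Path c₁ w c₂ := by
    obtain ⟨w1, hw1⟩ := h₁ c₁ hc1
    obtain ⟨w2, hw2⟩ := h₂ c₂ hc2
    exact ⟨w1.reverse ++ w2, path_append.2 ⟨_, path_reverse hw1, hw2⟩⟩
  have hAreal : ∀ e ∈ A, ∃ s y y', T.E s y y' ∧ e = s(y, y') ∧ T.g y = g := by
    intro e he
    obtain ⟨w1, s, w2, y, y', h5, h6, h7, h8, h9⟩ := cov_cross hwf he
    exact ⟨s, y.1, y'.1, h7.1, h9, by rw [g_path T (cov_base h6), hg1 c₁ hc1]⟩
  have hempty : ∀ c' d' : Q × Finset (Sym2 Q), c'.1 = d'.1 → T.cov.Reach c' d' →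
      c'.2 ∆ d'.2 ⊆ A → c'.2 ∆ d'.2 = ∅ := by
    intro c' d' h1 ⟨w, hw⟩ h2
    by_contra hne
    obtain ⟨e, he⟩ := Finset.nonempty_iff_ne_empty.2 hne
    obtain ⟨s₀, y, y', h3, h4, h5⟩ := hAreal e (h2 he)
    obtain ⟨w', s, b, _, _, h6, h7⟩ := exists_leaf T (A := c'.2 ∆ d'.2)
      ((Finset.coe_subset.2 h2).trans hAF) hrad (by rw [h5]; exact hrg) h3 (h4 ▸ he)
    have h8 := leaf_sum T (fun e he => by
      obtain ⟨s, y, y', a1, a2, _⟩ := hAreal e (h2 he)
      exact ⟨s, y, y', a1, a2⟩) h6 h7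
    rw [parity T hw b, h1, CharTwo.add_self_eq_zero] at h8
    exact zero_ne_one h8
  -- a reduced path from `c₁.1` to `c₂.1` with edges in `A`
  obtain ⟨z, hz1, hz2, hz3⟩ : ∃ z, Red z ∧ z.length ≤ r ∧
      (res T.toLG (A : Set (Sym2 Q))).Path c₁.1 z c₂.1 := by
    by_cases h0 : c₁.1 = c₂.1
    · exact ⟨[], List.isChain_nil, Nat.zero_le _, h0⟩
    · have h3 := parity T hwf c₁.1
      rw [if_pos rfl, if_neg (fun h => h0 h.symm), add_zero] at h3
      obtain ⟨e, he, he'⟩ := Finset.exists_ne_zero_of_sum_ne_zero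
        (by rw [h3]; exact one_ne_zero : ∑ e ∈ c₁.2 ∆ c₂.2,
          (if c₁.1 ∈ e then (1 : ZMod 2) else 0) ≠ 0)
      have he2 : c₁.1 ∈ e := by
        by_contra h
        rw [if_neg h] at he'
        exact he' rfl
      obtain ⟨s₀, y, y', h4, h5, _⟩ := hAreal e he
      obtain ⟨s₀, b₀, h6, h7⟩ : ∃ s b, T.E s c₁.1 b ∧ s(c₁.1, b) ∈ A := by
        rw [h5, Sym2.mem_iff] at he2
        rcases he2 with he2 | he2
        · exact ⟨s₀, y', by rw [he2]; exact h4, by rw [he2, ← h5]; exact he⟩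
        · exact ⟨s₀, y, by rw [he2]; exact T.symm h4, by
            rw [he2, Sym2.eq_swap, ← h5]; exact he⟩
      obtain ⟨w, s, b, h8, h9, h10, h11⟩ := exists_leaf T hAF hrad
        (by rw [hg1 c₁ hc1]; exact hrg) h6 h7
      have h12 := leaf_sum T (fun e he => by
        obtain ⟨s, y, y', a1, a2, _⟩ := hAreal e he
        exact ⟨s, y, y', a1, a2⟩) h10 h11
      rw [hA, parity T hwf b] at h12
      have h13 : c₁.1 ≠ b := by
        intro h
        rw [← h] at h10
        have := no_loop T h8 (res_path h10) (by rw [hg1 c₁ hc1]; omega)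
        simp at this
      rw [if_neg h13, zero_add] at h12
      have h14 : c₂.1 = b := by
        by_contra h
        rw [if_neg h] at h12
        exact zero_ne_one h12
      exact ⟨w ++ [s], h8, h9, by rw [h14]; exact h10⟩
  -- its lift ends at `c₂`
  have hz : (res T.toLG (A : Set (Sym2 Q))).cov.Path c₁ z c₂ := by
    obtain ⟨B', hB'⟩ := cov_lift hz3 c₁.2
    have h3 : T.cov.Reach (c₂.1, B') c₂ :=
      ⟨z.reverse ++ wf, path_append.2 ⟨c₁, path_reverse (cov_res hB'), hwf⟩⟩
    have h4 : B' ∆ c₂.2 ⊆ A := by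
      intro e he
      have h5 : B' ∆ c₂.2 = (c₁.2 ∆ B') ∆ (c₁.2 ∆ c₂.2) := by
        rw [symmDiff_comm c₁.2 B', symmDiff_assoc, ← symmDiff_assoc c₁.2 c₁.2, symmDiff_self,
          bot_symmDiff]
      rw [h5, Finset.mem_symmDiff] at he
      rcases he with ⟨he, _⟩ | ⟨he, _⟩
      · obtain ⟨_, s, _, y, y', _, _, h6, _, h7⟩ := cov_cross hB' he
        rw [h7]
        exact Finset.mem_coe.1 h6.1.2
      · exact he
    have h5 := hempty (c₂.1, B') c₂ rfl h3 h4
    have h6 : B' = c₂.2 := symmDiff_eq_bot.1 h5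
    rw [h6] at hB'
    exact hB'
  -- a shortest such path between `P₁` and `P₂`
  have hex : ∃ n, ∃ c ∈ P₁, ∃ d ∈ P₂, ∃ u, Red u ∧
      (res T.toLG (A : Set (Sym2 Q))).cov.Path c u d ∧ u.length = n :=
    ⟨z.length, c₁, hc1, c₂, hc2, z, hz1, hz, rfl⟩
  obtain ⟨c, hc, d, hd, u, hu, hp, hun⟩ := Nat.find_spec hex
  have hmin : ∀ c' ∈ P₁, ∀ d' ∈ P₂, ∀ u', Red u' →
      (res T.toLG (A : Set (Sym2 Q))).cov.Path c' u' d' → u.length ≤ u'.length := by
    intro c' hc' d' hd' u' hu' hp'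
    rw [hun]
    exact Nat.find_min' hex ⟨c', hc', d', hd', u', hu', hp', rfl⟩
  have hur : u.length ≤ r := (hmin c₁ hc1 c₂ hc2 z hz1 hz).trans hz2
  have hp' := cov_res hp
  have hcard := card_symmDiff T hp' hu (by rw [hg1 c hc]; omega)
  have hedge : ∀ e ∈ c.2 ∆ d.2, e ∉ edgesOf T P₁ ∧ e ∉ edgesOf T P₂ := by
    intro e he
    obtain ⟨w1, s, w2, y, y', h5, h6, h7, h8, h9⟩ := cov_cross hp he
    have hul : u.length = w1.length + w2.length + 1 := by rw [h5]; simp; omega
    have hr1 : Red (w1 ++ [s]) := by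
      have : Red ((w1 ++ [s]) ++ w2) := by
        have h10 : (w1 ++ [s]) ++ w2 = u := by rw [h5]; simp
        rw [h10]; exact hu
      exact red_prefix this
    have hr2 : Red (s :: w2) := red_suffix (w := w1) (by rw [← h5]; exact hu)
    have h7' : T.cov.E s y y' := ⟨h7.1.1, h7.2⟩
    constructor
    · intro h10
      obtain ⟨a, ha, hay⟩ := edgesOf_mem T h10 (v := y'.1) (by rw [h9]; simp)
      obtain ⟨v, hv1, hv2, hv3⟩ := hc₁ c hc a ha
      have hv4 := hlen _ hv3
      have h11 : T.cov.Path c (w1 ++ [s]) y' :=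
        path_append.2 ⟨y, cov_res h6, path_single.2 h7'⟩
      have h12 : v = w1 ++ [s] := T.girth hv1 hr1 (cov_base (pathIn_path hv2))
        (by rw [hay]; exact cov_base h11) (by rw [hg1 c hc]; simp; omega)
      rw [h12] at hv2
      have h13 : a = y' := path_det (pathIn_path hv2) h11
      have := hmin y' (h13 ▸ ha) d hd w2 hr2.tail h8
      omega
    · intro h10
      obtain ⟨a, ha, hay⟩ := edgesOf_mem T h10 (v := y.1) (by rw [h9]; simp)
      obtain ⟨v, hv1, hv2, hv3⟩ := hc₂ d hd a ha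
      have hv4 := hlen _ hv3
      have h11 : T.cov.Path d (s :: w2).reverse y := path_reverse ⟨y', h7', cov_res h8⟩
      have h12 : v = (s :: w2).reverse := T.girth hv1 (red_reverse hr2)
        (cov_base (pathIn_path hv2))
        (by rw [hay]; exact cov_base h11) (by rw [hg2 d hd]; simp; omega)
      rw [h12] at hv2
      have h13 : a = y := path_det (pathIn_path hv2) h11
      have := hmin c hc y (h13 ▸ ha) w1 (red_prefix hr1) h6
      omega
  refine ⟨c, hc, d, hd, u, hu, hp', hcard, ?_, hedge, ?_⟩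
  · have h3 : c.2 ∆ d.2 ⊆ B := by
      intro e he
      obtain ⟨_, s, _, y, y', _, _, h6, _, h7⟩ := cov_cross hp he
      refine Finset.mem_filter.2 ⟨?_, hedge e he⟩
      rw [h7]
      exact Finset.mem_coe.1 h6.1.2
    have h4 := Finset.card_le_card h3
    rw [hcard] at h4
    omega
  · by_cases hu0 : u = []
    · left
      rw [hu0] at hp'
      exact hp'
    · right
      rw [Set.disjoint_left]
      rintro e he1 he2
      obtain ⟨s', a, a', ha, ha', _, rfl⟩ := he1
      obtain ⟨b, hb, hba⟩ := edgesOf_mem T he2 (v := a.1) (by simp)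
      obtain ⟨v1, hv1, hv2, hv3⟩ := hc₁ c hc a ha
      obtain ⟨v2, hw1, hw2, hw3⟩ := hc₂ d hd b hb
      have hv4 := hlen _ hv3
      have hw4 := hlen _ hw3
      have hred : Red (u ++ v2) := by
        rw [Red, List.isChain_append]
        refine ⟨hu, hw1, ?_⟩
        intro x hx y hy hxy
        subst hxy
        obtain ⟨u', s, hu'⟩ : ∃ u' s, u = u' ++ [s] := by
          rcases List.eq_nil_or_concat u with h | ⟨u', s, h⟩
          · exact absurd h hu0
          · exact ⟨u', s, by rw [h, List.concat_eq_append]⟩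
        have hs : s = x := by rw [hu'] at hx; simpa using hx
        subst hs
        cases v2 with
        | nil => simp at hy
        | cons t v2' =>
          have ht : t = s := by simpa using hy
          subst ht
          obtain ⟨_, z', hz', hz''⟩ := hw2
          rw [hu'] at hp
          obtain ⟨y, hy1, hy2⟩ := path_append.1 hp
          have hy3 := path_single.1 hy2
          have hy4 : T.cov.E t y d := ⟨hy3.1.1, hy3.2⟩
          have hy5 : z' = y := T.cov.func hz' (T.cov.symm hy4)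
          have hy6 : y ∈ P₂ := hy5 ▸ pathIn_left hz''
          have := hmin c hc y hy6 u' (red_prefix (hu' ▸ hu)) hy1
          rw [hu'] at this
          simp at this
      have h3 : v1 = u ++ v2 := T.girth hv1 hred (cov_base (pathIn_path hv2))
        (path_append.2 ⟨d.1, cov_base hp', by rw [← hba]; exact cov_base (pathIn_path hw2)⟩)
        (by rw [hg1 c hc, List.length_append]; omega)
      cases u with
      | nil => exact hu0 rfl
      | cons s u'' =>
        rw [h3] at hv2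
        obtain ⟨_, z', hz', hz''⟩ := hv2
        obtain ⟨y', hy1, hy2⟩ := hp
        have hy4 : T.cov.E s c y' := ⟨hy1.1.1, hy1.2⟩
        have hy5 : z' = y' := T.cov.func hz' hy4
        have hy6 : y' ∈ P₁ := hy5 ▸ pathIn_left hz''
        have := hmin y' hy6 d hd u'' hu.tail hy2
        simp at this

end Pool.Agent.TH445.J871
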