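import Pool.Agent.TH421.OS.Odd

set_option autoImplicit false

namespace Pool.Agent.TH445.J987

open Pool.Agent.TH421.OS Polynomial

/-- entries -/
def E : Finset ℤ := {-1, 0, 1}

/-- states -/
def T : Finset ℤ := {0, 1}

theorem mem_E {z : ℤ} : z ∈ E ↔ z = -1 ∨ z = 0 ∨ z = 1 := by simp [E]

theorem mem_T {z : ℤ} : z ∈ T ↔ z = 0 ∨ z = 1 := by simp [T]

/-- states as Booleans -/
def bb (z : ℤ) : Bool := decide (z = 1)

/-- admissible rows -/
def Rw (m : ℕ) (r : ℤ) (c : Fin m → ℤ) : Finset (Fin m → ℤ) :=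
  (Fintype.piFinset fun _ => E).filter fun a =>
    (∀ k, r + ∑ j, (if j ≤ k then a j else 0) ∈ T) ∧ r + ∑ j, a j = 1 ∧ ∀ j, c j + a j ∈ T

theorem mem_Rw {m : ℕ} {r : ℤ} {c a : Fin m → ℤ} : a ∈ Rw m r c ↔
    (∀ j, a j ∈ E) ∧ (∀ k, r + ∑ j, (if j ≤ k then a j else 0) ∈ T) ∧ r + ∑ j, a j = 1 ∧
      ∀ j, c j + a j ∈ T := by
  rw [Rw, Finset.mem_filter, Fintype.mem_piFinset]

theorem psum_zero {m : ℕ} (a : Fin (m + 1) → ℤ) :
    ∑ j, (if j ≤ 0 then a j else 0) = a 0 := by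
  rw [Fin.sum_univ_succ, if_pos le_rfl]
  have : ∀ i : Fin m, (if i.succ ≤ 0 then a i.succ else 0) = 0 := by
    intro i
    rw [if_neg]
    simp
  rw [Finset.sum_congr rfl fun i _ => this i]
  simp

theorem psum_succ {m : ℕ} (a : Fin (m + 1) → ℤ) (k : Fin m) :
    ∑ j, (if j ≤ k.succ then a j else 0) = a 0 + ∑ j, (if j ≤ k then a j.succ else 0) := by
  rw [Fin.sum_univ_succ, if_pos (Fin.zero_le _)]
  congr 1
  refine Finset.sum_congr rfl fun i _ => ?_
  simp only [Fin.succ_le_succ_iff]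

theorem mem_Rw_succ {m : ℕ} {r : ℤ} {c a : Fin (m + 1) → ℤ} : a ∈ Rw (m + 1) r c ↔
    a 0 ∈ E ∧ r + a 0 ∈ T ∧ c 0 + a 0 ∈ T ∧
      (fun j : Fin m => a j.succ) ∈ Rw m (r + a 0) (fun j => c j.succ) := by
  rw [mem_Rw, mem_Rw, Fin.forall_fin_succ, Fin.forall_fin_succ, Fin.forall_fin_succ, psum_zero,
    Fin.sum_univ_succ]
  simp only [psum_succ, add_assoc]
  tauto

theorem sum_Rw_succ {m : ℕ} {r : ℤ} {c : Fin (m + 1) → ℤ} {R : Type*} [CommRing R]
    (G : (Fin (m + 1) → ℤ) → R) :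
    ∑ a ∈ Rw (m + 1) r c, G a =
      ∑ a0 ∈ E, if r + a0 ∈ T ∧ c 0 + a0 ∈ T then
        ∑ a ∈ Rw m (r + a0) (fun j => c j.succ), G (Fin.cons a0 a) else 0 := by
  rw [← Finset.sum_filter, Finset.sum_sigma']
  refine Finset.sum_nbij' (fun a => ⟨a 0, fun j => a j.succ⟩) (fun p => Fin.cons p.1 p.2)
    ?_ ?_ ?_ ?_ ?_
  · intro a ha
    rw [mem_Rw_succ] at ha
    simp only [Finset.mem_sigma, Finset.mem_filter]
    exact ⟨⟨ha.1, ha.2.1, ha.2.2.1⟩, ha.2.2.2⟩
  · rintro ⟨a0, a⟩ hp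
    simp only [Finset.mem_sigma, Finset.mem_filter] at hp
    rw [mem_Rw_succ]
    simpa using ⟨hp.1.1, hp.1.2.1, hp.1.2.2, hp.2⟩
  · intro a _
    funext j
    refine Fin.cases ?_ (fun j => ?_) j <;> simp
  · rintro ⟨a0, a⟩ _
    simp
  · intro a _
    congr 1
    funext j
    refine Fin.cases ?_ (fun j => ?_) j <;> simp

theorem row_eq {R : Type*} [CommRing R] (m : ℕ) : ∀ (r : ℤ) (c : Fin m → ℤ)
    (F : List Bool → R), r ∈ T → (∀ j, c j ∈ T) →
    row (0 : R) (List.replicate m 0) (bb r) (List.ofFn fun j => bb (c j)) F =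
      ∑ a ∈ Rw m r c, F (List.ofFn fun j => bb (c j + a j)) := by
  induction m with
  | zero =>
    intro r c F hr hc
    rcases mem_T.1 hr with rfl | rfl
    · have : Rw 0 0 c = ∅ := by
        ext a
        rw [mem_Rw]
        simp
      rw [this]
      simp [row, bb]
    · have : Rw 0 1 c = {c} := by
        ext a
        rw [mem_Rw, Finset.mem_singleton]
        simp [Subsingleton.elim a c]
      rw [this]
      simp [row, bb]
  | succ m ih =>
    intro r c F hr hc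
    rw [sum_Rw_succ]
    have e1 : ∀ a0 (a : Fin m → ℤ), (List.ofFn fun j : Fin (m + 1) => bb (c j +
        (Fin.cons a0 a : Fin (m + 1) → ℤ) j)) = bb (c 0 + a0) ::
          List.ofFn fun j : Fin m => bb (c j.succ + a j) := by
      intro a0 a
      rw [List.ofFn_succ]
      simp
    simp only [e1]
    rw [List.ofFn_succ, List.replicate_succ]
    have ih' : ∀ r ∈ T, ∀ F : List Bool → R,
        row (0 : R) (List.replicate m 0) (bb r) (List.ofFn fun j : Fin m => bb (c j.succ)) F =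
        ∑ a ∈ Rw m r (fun j => c j.succ), F (List.ofFn fun j : Fin m => bb (c j.succ + a j)) :=
      fun r hr F => ih r (fun j => c j.succ) F hr (fun j => hc j.succ)
    have i0 := ih' 0 (by simp [T])
    have i1 := ih' 1 (by simp [T])
    rcases mem_T.1 hr with rfl | rfl <;> rcases mem_T.1 (hc 0) with h0 | h0 <;>
      rw [h0] <;> simp [E, T, bb, row, rho] at i0 i1 ⊢ <;> simp [i0, i1, add_comm]

/-- admissible symmetric matrices -/
def Sm (N : ℕ) (s : Fin N → ℤ) : Finset (Fin N → Fin N → ℤ) :=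
  (Fintype.piFinset fun _ => Fintype.piFinset fun _ => E).filter fun A =>
    (∀ i j, A i j = A j i) ∧ (∀ i k, s i + ∑ j, (if j ≤ k then A i j else 0) ∈ T) ∧
      ∀ i, s i + ∑ j, A i j = 1

theorem mem_Sm {N : ℕ} {s : Fin N → ℤ} {A : Fin N → Fin N → ℤ} : A ∈ Sm N s ↔
    (∀ i j, A i j ∈ E) ∧ (∀ i j, A i j = A j i) ∧
      (∀ i k, s i + ∑ j, (if j ≤ k then A i j else 0) ∈ T) ∧ ∀ i, s i + ∑ j, A i j = 1 := by
  rw [Sm, Finset.mem_filter, Fintype.mem_piFinset]
  simp only [Fintype.mem_piFinset]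

theorem mem_Sm_succ {N : ℕ} {s : Fin (N + 1) → ℤ} {A : Fin (N + 1) → Fin (N + 1) → ℤ} :
    A ∈ Sm (N + 1) s ↔ A 0 0 ∈ E ∧ s 0 + A 0 0 ∈ T ∧
      (fun j : Fin N => A 0 j.succ) ∈ Rw N (s 0 + A 0 0) (fun j => s j.succ) ∧
      (∀ j : Fin N, A j.succ 0 = A 0 j.succ) ∧
      (fun i j : Fin N => A i.succ j.succ) ∈ Sm N (fun j => s j.succ + A 0 j.succ) := by
  rw [mem_Sm, mem_Sm, mem_Rw]
  constructor
  · rintro ⟨h1, h2, h3, h4⟩
    refine ⟨h1 0 0, ?_, ⟨fun j => h1 0 j.succ, ?_, ?_, ?_⟩, fun j => h2 _ _,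
      fun i j => h1 _ _, fun i j => h2 _ _, ?_, ?_⟩
    · have := h3 0 0
      rwa [psum_zero] at this
    · intro k
      have := h3 0 k.succ
      rwa [psum_succ, ← add_assoc] at this
    · have := h4 0
      rwa [Fin.sum_univ_succ, ← add_assoc] at this
    · intro j
      have := h3 j.succ 0
      rwa [psum_zero, h2 j.succ 0] at this
    · intro i k
      have := h3 i.succ k.succ
      rwa [psum_succ, ← add_assoc, h2 i.succ 0] at this
    · intro i
      have := h4 i.succ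
      rwa [Fin.sum_univ_succ, ← add_assoc, h2 i.succ 0] at this
  · rintro ⟨h1, h2, ⟨h3, h4, h5, h6⟩, h7, h8, h9, h10, h11⟩
    refine ⟨?_, ?_, ?_, ?_⟩
    · intro i j
      refine Fin.cases ?_ (fun i => ?_) i <;> refine Fin.cases ?_ (fun j => ?_) j
      · exact h1
      · exact h3 j
      · rw [h7]; exact h3 i
      · exact h8 i j
    · intro i j
      refine Fin.cases ?_ (fun i => ?_) i <;> refine Fin.cases ?_ (fun j => ?_) j
      · rfl
      · exact (h7 j).symm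
      · exact h7 i
      · exact h9 i j
    · intro i k
      refine Fin.cases ?_ (fun i => ?_) i <;> refine Fin.cases ?_ (fun k => ?_) k
      · rw [psum_zero]; exact h2
      · rw [psum_succ, ← add_assoc]; exact h4 k
      · rw [psum_zero, h7]; exact h6 i
      · rw [psum_succ, ← add_assoc, h7]; exact h10 i k
    · intro i
      refine Fin.cases ?_ (fun i => ?_) i
      · rw [Fin.sum_univ_succ, ← add_assoc]; exact h5
      · rw [Fin.sum_univ_succ, ← add_assoc, h7]; exact h11 i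

/-- gluing a matrix from the first row and the rest -/
def mk {N : ℕ} (a0 : ℤ) (a : Fin N → ℤ) (B : Fin N → Fin N → ℤ) :
    Fin (N + 1) → Fin (N + 1) → ℤ :=
  Fin.cons (Fin.cons a0 a : Fin (N + 1) → ℤ) (fun i => (Fin.cons (a i) (B i) : Fin (N + 1) → ℤ))

theorem mk_00 {N : ℕ} (a0 : ℤ) (a : Fin N → ℤ) (B : Fin N → Fin N → ℤ) :
    mk a0 a B 0 0 = a0 := by simp [mk]

theorem mk_0s {N : ℕ} (a0 : ℤ) (a : Fin N → ℤ) (B : Fin N → Fin N → ℤ) (j : Fin N) :
    mk a0 a B 0 j.succ = a j := by simp [mk]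

theorem mk_s0 {N : ℕ} (a0 : ℤ) (a : Fin N → ℤ) (B : Fin N → Fin N → ℤ) (j : Fin N) :
    mk a0 a B j.succ 0 = a j := by simp [mk]

theorem mk_ss {N : ℕ} (a0 : ℤ) (a : Fin N → ℤ) (B : Fin N → Fin N → ℤ) (i j : Fin N) :
    mk a0 a B i.succ j.succ = B i j := by simp [mk]

theorem sum_Sm_succ {N : ℕ} {s : Fin (N + 1) → ℤ} {R : Type*} [CommRing R]
    (G : (Fin (N + 1) → Fin (N + 1) → ℤ) → R) :
    ∑ A ∈ Sm (N + 1) s, G A =
      ∑ a0 ∈ E, if s 0 + a0 ∈ T then
        ∑ a ∈ Rw N (s 0 + a0) (fun j => s j.succ), ∑ B ∈ Sm N (fun j => s j.succ + a j),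
          G (mk a0 a B) else 0 := by
  rw [← Finset.sum_filter, Finset.sum_sigma', Finset.sum_sigma']
  refine Finset.sum_nbij'
    (fun A => ⟨⟨A 0 0, fun j => A 0 j.succ⟩, fun i j => A i.succ j.succ⟩)
    (fun p => mk p.1.1 p.1.2 p.2) ?_ ?_ ?_ ?_ ?_
  · intro A hA
    rw [mem_Sm_succ] at hA
    simp only [Finset.mem_sigma, Finset.mem_filter]
    exact ⟨⟨⟨hA.1, hA.2.1⟩, hA.2.2.1⟩, hA.2.2.2.2⟩
  · rintro ⟨⟨a0, a⟩, B⟩ hp
    simp only [Finset.mem_sigma, Finset.mem_filter] at hp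
    rw [mem_Sm_succ]
    simp only [mk_00, mk_0s, mk_s0, mk_ss]
    exact ⟨hp.1.1.1, hp.1.1.2, hp.1.2, fun _ => trivial, hp.2⟩
  · intro A hA
    have h7 := (mem_Sm_succ.1 hA).2.2.2.1
    funext i j
    refine Fin.cases ?_ (fun i => ?_) i <;> refine Fin.cases ?_ (fun j => ?_) j
    · rw [mk_00]
    · rw [mk_0s]
    · rw [mk_s0, h7]
    · rw [mk_ss]
  · rintro ⟨⟨a0, a⟩, B⟩ _
    simp only [mk_00, mk_0s, mk_ss]
  · intro A hA
    have h7 := (mem_Sm_succ.1 hA).2.2.2.1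
    congr 1
    funext i j
    refine Fin.cases ?_ (fun i => ?_) i <;> refine Fin.cases ?_ (fun j => ?_) j
    · rw [mk_00]
    · rw [mk_0s]
    · rw [mk_s0, h7]
    · rw [mk_ss]

/-- number of nonzero diagonal entries -/
def nd {N : ℕ} (A : Fin N → Fin N → ℤ) : ℕ := ∑ i, if A i i = 0 then 0 else 1

theorem nd_mk {N : ℕ} (a0 : ℤ) (a : Fin N → ℤ) (B : Fin N → Fin N → ℤ) :
    nd (mk a0 a B) = (if a0 = 0 then 0 else 1) + nd B := by
  rw [nd, Fin.sum_univ_succ, mk_00]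
  simp only [mk_ss]
  rfl

theorem Z_eq {R : Type*} [CommRing R] (ζ : R) (N : ℕ) : ∀ s : Fin N → ℤ, (∀ i, s i ∈ T) →
    Z ζ (List.replicate N 0) (List.ofFn fun j => bb (s j)) = ∑ A ∈ Sm N s, ζ ^ nd A := by
  induction N with
  | zero =>
    intro s _
    have : Sm 0 s = {fun i => i.elim0} := by
      ext A
      rw [mem_Sm, Finset.mem_singleton]
      simp [Subsingleton.elim A (fun i => i.elim0)]
    rw [this]
    simp [Z, nd]
  | succ N ih =>
    intro s hs
    rw [sum_Sm_succ]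
    simp only [nd_mk, pow_add, ← Finset.mul_sum]
    have key : ∀ r ∈ T, row (0 : R) (List.replicate N 0) (bb r)
        (List.ofFn fun j : Fin N => bb (s j.succ)) (Z ζ (List.replicate N 0)) =
        ∑ a ∈ Rw N r (fun j => s j.succ), ∑ B ∈ Sm N (fun j => s j.succ + a j), ζ ^ nd B := by
      intro r hr
      rw [row_eq N r (fun j => s j.succ) _ hr (fun j => hs j.succ)]
      refine Finset.sum_congr rfl fun a ha => ?_
      exact ih _ (mem_Rw.1 ha).2.2.2
    have k0 := key 0 (by simp [T])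
    have k1 := key 1 (by simp [T])
    rw [List.ofFn_succ, List.replicate_succ]
    rcases mem_T.1 (hs 0) with h0 | h0 <;> rw [h0] <;>
      simp [E, T, bb, Z, rho] at k0 k1 ⊢ <;> simp [k0, k1, add_comm]

theorem odd_nd {N : ℕ} {A : Fin N → Fin N → ℤ} (hA : A ∈ Sm N fun _ => 0) :
    (nd A : ZMod 2) = N := by
  classical
  obtain ⟨h1, h2, _, h4⟩ := mem_Sm.1 hA
  have e1 : ∑ i, ∑ j, (A i j : ZMod 2) = N := by
    have : ∀ i, ∑ j, (A i j : ZMod 2) = 1 := by
      intro i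
      have := h4 i
      rw [zero_add] at this
      rw [← Int.cast_sum, this, Int.cast_one]
    simp [this]
  have e2 : ∑ i, ∑ j, (A i j : ZMod 2) = ∑ i, (A i i : ZMod 2) := by
    rw [← Finset.sum_product']
    rw [← Finset.sum_filter_add_sum_filter_not _ (fun p : Fin N × Fin N => p.1 = p.2)]
    have e3 : ∑ x ∈ (Finset.univ ×ˢ Finset.univ : Finset (Fin N × Fin N)) with ¬ x.1 = x.2,
        (A x.1 x.2 : ZMod 2) = 0 := by
      refine Finset.sum_involution (fun x _ => (x.2, x.1)) ?_ ?_ ?_ ?_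
      · intro x _
        rw [h2 x.2 x.1]
        exact CharTwo.add_self_eq_zero _
      · rintro ⟨x, y⟩ hx _ heq
        simp only [Prod.mk.injEq] at heq
        simp at hx
        exact hx heq.2
      · rintro ⟨x, y⟩ hx
        simp at hx ⊢
        exact fun h => hx h.symm
      · rintro ⟨x, y⟩ _
        rfl
    rw [e3, add_zero]
    refine Finset.sum_nbij' (fun x => x.1) (fun i => (i, i)) ?_ ?_ ?_ ?_ ?_
    · intro x _; simp
    · intro i _; simp
    · rintro ⟨x, y⟩ hx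
      simp at hx
      simp [hx]
    · intro i _; rfl
    · rintro ⟨x, y⟩ hx
      simp at hx
      simp [hx]
  have e4 : (nd A : ZMod 2) = ∑ i, (A i i : ZMod 2) := by
    rw [nd, Nat.cast_sum]
    refine Finset.sum_congr rfl fun i _ => ?_
    rcases mem_E.1 (h1 i i) with h | h | h <;> rw [h] <;> simp
  rw [e4, ← e2, e1]

theorem card_aux {N : ℕ} {P : Matrix (Fin N) (Fin N) ℤ → Prop}
    {F : Finset (Fin N → Fin N → ℤ)} (h : ∀ A : Fin N → Fin N → ℤ, P A ↔ A ∈ F) :
    Nat.card {A : Matrix (Fin N) (Fin N) ℤ // P A} = F.card := by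
  have e : {A : Matrix (Fin N) (Fin N) ℤ // P A} ≃ F :=
    { toFun := fun x => ⟨x.1, (h x.1).1 x.2⟩
      invFun := fun x => ⟨x.1, (h x.1).2 x.2⟩
      left_inv := fun _ => rfl
      right_inv := fun _ => rfl }
  rw [Nat.card_congr e, Nat.card_eq_fintype_card, Fintype.card_coe]

theorem card_eq (n : ℕ) :
    ((Nat.card {A : Matrix (Fin (2 * n + 1)) (Fin (2 * n + 1)) ℤ //
          (∀ i j, A i j = -1 ∨ A i j = 0 ∨ A i j = 1) ∧
          (∀ i k, (∑ j ∈ Finset.Iic k, A i j) = 0 ∨ (∑ j ∈ Finset.Iic k, A i j) = 1) ∧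
          (∀ i, (∑ j, A i j) = 1) ∧
          (∀ j k, (∑ i ∈ Finset.Iic k, A i j) = 0 ∨ (∑ i ∈ Finset.Iic k, A i j) = 1) ∧
          (∀ j, (∑ i, A i j) = 1) ∧
          (∀ i j, A i j = A j i) ∧
          (∃ d : Fin (2 * n + 1), ∀ i, i ≠ d → A i i = 0)} : ℕ) : ℚ)
      = Z1 (List.replicate (2 * n + 1) (0 : ℚ)) := by
  classical
  set N := 2 * n + 1 with hN
  have hsum : ∀ (f : Fin N → ℤ) (k : Fin N), ∑ j ∈ Finset.Iic k, f j =
      ∑ j, (if j ≤ k then f j else 0) := by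
    intro f k
    rw [← Finset.sum_filter]
    congr 1
    ext j
    simp
  have hset : ∀ A : Fin N → Fin N → ℤ,
      ((∀ i j, A i j = -1 ∨ A i j = 0 ∨ A i j = 1) ∧
          (∀ i k, (∑ j ∈ Finset.Iic k, A i j) = 0 ∨ (∑ j ∈ Finset.Iic k, A i j) = 1) ∧
          (∀ i, (∑ j, A i j) = 1) ∧
          (∀ j k, (∑ i ∈ Finset.Iic k, A i j) = 0 ∨ (∑ i ∈ Finset.Iic k, A i j) = 1) ∧
          (∀ j, (∑ i, A i j) = 1) ∧
          (∀ i j, A i j = A j i) ∧
          (∃ d : Fin N, ∀ i, i ≠ d → A i i = 0)) ↔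
        A ∈ (Sm N fun _ => 0).filter fun A => nd A = 1 := by
    intro A
    rw [Finset.mem_filter]
    constructor
    · rintro ⟨h1, h2, h3, _, _, h6, d, h7⟩
      have hA : A ∈ Sm N fun _ => 0 := by
        rw [mem_Sm]
        refine ⟨fun i j => mem_E.2 (h1 i j), h6, fun i k => ?_, fun i => ?_⟩
        · rw [zero_add, ← hsum, mem_T]; exact h2 i k
        · rw [zero_add]; exact h3 i
      refine ⟨hA, ?_⟩
      have h8 := odd_nd hA
      have h9 : nd A = if A d d = 0 then 0 else 1 := by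
        rw [nd, Finset.sum_eq_single d]
        · intro i _ hi
          rw [if_pos (h7 i hi)]
        · intro h
          exact absurd (Finset.mem_univ d) h
      have h10 : (N : ZMod 2) = 1 := by
        rw [hN]
        push_cast
        have : (2 : ZMod 2) = 0 := rfl
        rw [this]; ring
      rw [h10, h9] at h8
      rw [h9]
      by_cases h11 : A d d = 0
      · rw [if_pos h11] at h8
        simp at h8
      · rw [if_neg h11]
    · rintro ⟨hA, h8⟩
      obtain ⟨h1, h2, h3, h4⟩ := mem_Sm.1 hA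
      have h5 : ∀ i k, (∑ j ∈ Finset.Iic k, A i j) = 0 ∨ (∑ j ∈ Finset.Iic k, A i j) = 1 := by
        intro i k
        have := h3 i k
        rwa [zero_add, ← hsum, mem_T] at this
      have h6 : ∀ i, (∑ j, A i j) = 1 := by
        intro i
        have := h4 i
        rwa [zero_add] at this
      refine ⟨fun i j => mem_E.1 (h1 i j), h5, h6, ?_, ?_, h2, ?_⟩
      · intro j k
        have : ∑ i ∈ Finset.Iic k, A i j = ∑ i ∈ Finset.Iic k, A j i :=
          Finset.sum_congr rfl fun i _ => h2 i j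
        rw [this]; exact h5 j k
      · intro j
        have : ∑ i, A i j = ∑ i, A j i := Finset.sum_congr rfl fun i _ => h2 i j
        rw [this]; exact h6 j
      · by_contra hcon
        push Not at hcon
        obtain ⟨d, _, hd⟩ := hcon ⟨0, by omega⟩
        obtain ⟨d', hdd, hd'⟩ := hcon d
        have h9 : (2 : ℕ) ≤ nd A := by
          rw [nd]
          calc (2 : ℕ) = ∑ i ∈ ({d, d'} : Finset (Fin N)), if A i i = 0 then 0 else 1 := by
                rw [Finset.sum_pair hdd.symm, if_neg hd, if_neg hd']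
            _ ≤ _ := Finset.sum_le_sum_of_subset (Finset.subset_univ _)
        omega
  have hcard : Nat.card {A : Matrix (Fin N) (Fin N) ℤ //
          (∀ i j, A i j = -1 ∨ A i j = 0 ∨ A i j = 1) ∧
          (∀ i k, (∑ j ∈ Finset.Iic k, A i j) = 0 ∨ (∑ j ∈ Finset.Iic k, A i j) = 1) ∧
          (∀ i, (∑ j, A i j) = 1) ∧
          (∀ j k, (∑ i ∈ Finset.Iic k, A i j) = 0 ∨ (∑ i ∈ Finset.Iic k, A i j) = 1) ∧
          (∀ j, (∑ i, A i j) = 1) ∧
          (∀ i j, A i j = A j i) ∧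
          (∃ d : Fin N, ∀ i, i ≠ d → A i i = 0)} =
        ((Sm N fun _ => 0).filter fun A => nd A = 1).card := card_aux hset
  rw [hcard]
  have h1 : (List.replicate N (0 : ℚ)).map (C : ℚ → ℚ[X]) = List.replicate N (0 : ℚ[X]) := by
    rw [List.map_replicate, C_0]
  have h2 : (List.ofFn fun _ : Fin N => bb 0) = List.replicate N false := by
    rw [List.ofFn_const]
    rfl
  rw [Z1, Z0, h1, List.length_replicate, ← h2, Z_eq X N (fun _ => 0) (fun _ => by simp [T]),
    finsetSum_coeff]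
  simp only [coeff_X_pow]
  rw [Finset.card_filter]
  push_cast
  refine Finset.sum_congr rfl fun A _ => ?_
  by_cases h : nd A = 1
  · rw [if_pos h, if_pos h.symm]
  · rw [if_neg h, if_neg fun h' => h h'.symm]

end Pool.Agent.TH445.J987
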