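import Pool.Agent.TH319.CDefs

/-!
From relatively almost unitarily invariant pairs to an almost isometric quaternionic pair of
operators on the whole space.
-/

set_option autoImplicit false

namespace Pool.Agent.TH319

open Module Filter Topology

/-- Extension of an operator given on a dense image. -/
theorem ext_op445 {V Z : Type*} [AddCommGroup V] [Module ℂ V] [NormedAddCommGroup Z]
    [NormedSpace ℂ Z] [CompleteSpace Z] (L : V →ₗ[ℂ] Z) (hL : DenseRange L)
    (T : V →ₗ[ℂ] V) (C : ℝ)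
    (hT : ∀ c, ‖L (T c)‖ ≤ C * ‖L c‖) : ∃ T' : Z →L[ℂ] Z, ∀ c, T' (L c) = L (T c) :=
  ⟨(L ∘ₗ T).extendOfNorm L, fun c => LinearMap.extendOfNorm_eq hL ⟨C, hT⟩ c⟩

section Blocks

variable {X : Type*} [NormedAddCommGroup X] [NormedSpace ℂ X]

/-- The map `(α, β) ↦ α u + β v`. -/
noncomputable def blk445 (u v : X) : ℂ × ℂ →ₗ[ℂ] X :=
  (LinearMap.toSpanSingleton ℂ X u).coprod (LinearMap.toSpanSingleton ℂ X v)

theorem blk445_apply (u v : X) (p : ℂ × ℂ) : blk445 u v p = p.1 • u + p.2 • v := by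
  simp [blk445, LinearMap.coprod_apply, LinearMap.toSpanSingleton_apply]

/-- Finite sums of blocks. -/
noncomputable def lin445 (u v : ℕ → X) : (ℕ →₀ ℂ × ℂ) →ₗ[ℂ] X :=
  Finsupp.lsum ℂ fun j => blk445 (u j) (v j)

theorem lin445_single (u v : ℕ → X) (j : ℕ) (p : ℂ × ℂ) :
    lin445 u v (Finsupp.single j p) = p.1 • u j + p.2 • v j := by
  rw [lin445, Finsupp.lsum_single, blk445_apply]

theorem lin445_erase_mem {u v : ℕ → X} {F : ℕ → Submodule ℂ X}
    (hF : ∀ j i, i ≠ j → u i ∈ F j ∧ v i ∈ F j) (c : ℕ →₀ ℂ × ℂ) (j : ℕ) :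
    lin445 u v (c.erase j) ∈ F j := by
  rw [lin445, Finsupp.lsum_apply, Finsupp.sum]
  refine Submodule.sum_mem _ fun i hi => ?_
  have hij : i ≠ j := by
    rintro rfl
    simp at hi
  rw [blk445_apply]
  exact (F j).add_mem ((F j).smul_mem _ (hF j i hij).1) ((F j).smul_mem _ (hF j i hij).2)

theorem lin445_split (u v : ℕ → X) (c : ℕ →₀ ℂ × ℂ) (j : ℕ) :
    lin445 u v c = (c j).1 • u j + (c j).2 • v j + lin445 u v (c.erase j) := by
  conv_lhs => rw [← Finsupp.erase_add_single j c]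
  rw [map_add, lin445_single, add_comm]

theorem lin445_split_update (u v : ℕ → X) (c : ℕ →₀ ℂ × ℂ) (j : ℕ) (p : ℂ × ℂ) :
    lin445 u v (c.update j p) = p.1 • u j + p.2 • v j + lin445 u v (c.erase j) := by
  rw [Finsupp.update_eq_erase_add_single, map_add, lin445_single, add_comm]

/-- Square of the Euclidean norm of a pair. -/
noncomputable def nsq445 (p : ℂ × ℂ) : ℝ := ‖p.1‖ ^ 2 + ‖p.2‖ ^ 2

theorem lin445_update_le {u v : ℕ → X} {F : ℕ → Submodule ℂ X} {δ : ℕ → ℝ}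
    (hδ : ∀ j, 0 < δ j)
    (hF : ∀ j i, i ≠ j → u i ∈ F j ∧ v i ∈ F j) (hNU : ∀ j, NU (δ j) (u j) (v j) (F j))
    (c : ℕ →₀ ℂ × ℂ) (j : ℕ) (p : ℂ × ℂ) (hp : nsq445 p = nsq445 (c j)) :
    ‖lin445 u v (c.update j p)‖ ≤ (1 + δ j) ^ 2 * ‖lin445 u v c‖ := by
  have hk := lin445_erase_mem hF c j
  have h1 := (hNU j p.1 p.2 _ hk).1
  have h2 := (hNU j (c j).1 (c j).2 _ hk).2
  have hd : 0 ≤ 1 + δ j := by have := hδ j; linarith
  rw [lin445_split_update, lin445_split u v c j]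
  unfold nsq445 at hp
  rw [hp] at h1
  calc _ ≤ (1 + δ j) * _ := h1
    _ ≤ (1 + δ j) * ((1 + δ j) * _) := mul_le_mul_of_nonneg_left h2 hd
    _ = _ := by ring

theorem lin445_le {u v : ℕ → X} {F : ℕ → Submodule ℂ X} {δ : ℕ → ℝ}
    (hδ : ∀ j, 0 < δ j)
    (hF : ∀ j i, i ≠ j → u i ∈ F j ∧ v i ∈ F j) (hNU : ∀ j, NU (δ j) (u j) (v j) (F j))
    (s : Finset ℕ) : ∀ c c' : ℕ →₀ ℂ × ℂ, (∀ j ∉ s, c' j = c j) →
      (∀ j, nsq445 (c' j) = nsq445 (c j)) →
      ‖lin445 u v c'‖ ≤ (∏ j ∈ s, (1 + δ j) ^ 2) * ‖lin445 u v c‖ := by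
  classical
  induction s using Finset.induction_on with
  | empty =>
    intro c c' h _
    have : c' = c := Finsupp.ext fun j => h j (by simp)
    rw [this]; simp
  | insert j s hj ih =>
    intro c c' h hn
    have h1 := lin445_update_le hδ hF hNU c j (c' j) (hn j)
    have h2 := ih (c.update j (c' j)) c' (by
      intro i hi
      rw [Finsupp.coe_update]
      by_cases hij : i = j
      · rw [hij, Function.update_self]
      · rw [Function.update_of_ne hij]
        exact h i (by simp [hij, hi])) (by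
      intro i
      rw [Finsupp.coe_update]
      by_cases hij : i = j
      · rw [hij, Function.update_self]
      · rw [Function.update_of_ne hij]
        exact hn i)
    rw [Finset.prod_insert hj]
    have hpos : 0 ≤ ∏ j ∈ s, (1 + δ j) ^ 2 := Finset.prod_nonneg fun i _ => sq_nonneg _
    calc _ ≤ _ := h2
      _ ≤ (∏ j ∈ s, (1 + δ j) ^ 2) * ((1 + δ j) ^ 2 * ‖lin445 u v c‖) :=
          mul_le_mul_of_nonneg_left h1 hpos
      _ = _ := by ring

theorem lin445_injective {u v : ℕ → X} {F : ℕ → Submodule ℂ X} {δ : ℕ → ℝ}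
    (hF : ∀ j i, i ≠ j → u i ∈ F j ∧ v i ∈ F j) (hNU : ∀ j, NU (δ j) (u j) (v j) (F j))
    (hu : ∀ j, u j ≠ 0) : Function.Injective (lin445 u v) := by
  rw [← LinearMap.ker_eq_bot, LinearMap.ker_eq_bot']
  intro c hc
  ext1 j
  have hk := lin445_erase_mem hF c j
  set k := lin445 u v (c.erase j) with hkdef
  have h0 : (c j).1 • u j + (c j).2 • v j + k = 0 := by
    rw [← lin445_split u v c j]; exact hc
  have h1 := (hNU j (c j).1 (c j).2 _ hk).2
  set r : ℝ := Real.sqrt (‖(c j).1‖ ^ 2 + ‖(c j).2‖ ^ 2) with hr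
  rw [h0, norm_zero, mul_zero] at h1
  have h2 : ((r : ℝ) : ℂ) • u j + k = 0 := norm_le_zero_iff.1 h1
  have h3 := (hNU j (-(r : ℂ)) 0 _ hk).1
  have hr0 : 0 ≤ r := Real.sqrt_nonneg _
  have e1 : Real.sqrt (‖(-(r : ℂ))‖ ^ 2 + ‖(0 : ℂ)‖ ^ 2) = r := by
    rw [norm_neg, Complex.norm_real, norm_zero, Real.norm_eq_abs, abs_of_nonneg hr0]
    rw [show r ^ 2 + (0 : ℝ) ^ 2 = r ^ 2 by ring]
    exact Real.sqrt_sq hr0
  rw [e1, h2, norm_zero, mul_zero, zero_smul, add_zero] at h3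
  have h4 : (-(r : ℂ)) • u j + k = 0 := norm_le_zero_iff.1 h3
  have h5 : ((2 : ℂ) * r) • u j = 0 := by
    have : ((2 : ℂ) * r) • u j = (((r : ℝ) : ℂ) • u j + k) - ((-(r : ℂ)) • u j + k) := by
      module
    rw [this, h2, h4, sub_zero]
  rw [smul_eq_zero] at h5
  have h6 : r = 0 := by
    rcases h5 with h5 | h5
    · have : (r : ℂ) = 0 := by simpa using h5
      exact_mod_cast this
    · exact absurd h5 (hu j)
  rw [hr, Real.sqrt_eq_zero (by positivity)] at h6
  have h7 : ‖(c j).1‖ = 0 := by nlinarith [sq_nonneg ‖(c j).1‖, sq_nonneg ‖(c j).2‖]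
  have h8 : ‖(c j).2‖ = 0 := by nlinarith [sq_nonneg ‖(c j).1‖, sq_nonneg ‖(c j).2‖]
  refine Prod.ext ?_ ?_
  · simpa using h7
  · simpa using h8

theorem lin445_linearIndependent {u v : ℕ → X} (h : Function.Injective (lin445 u v)) :
    LinearIndependent ℂ u := by
  have h1 : LinearIndependent ℂ (fun n : ℕ => Finsupp.single n ((1, 0) : ℂ × ℂ)) := by
    apply LinearIndependent.of_comp (Finsupp.mapRange.linearMap (LinearMap.fst ℂ ℂ ℂ))
    have : ((Finsupp.mapRange.linearMap (LinearMap.fst ℂ ℂ ℂ)) ∘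
        fun n : ℕ => Finsupp.single n ((1, 0) : ℂ × ℂ))
        = fun n : ℕ => Finsupp.single n (1 : ℂ) := by
      funext n
      simp
    rw [this]
    exact Finsupp.linearIndependent_single_one ℂ ℕ
  have h2 := h1.map' (lin445 u v) (LinearMap.ker_eq_bot.2 h)
  have : (lin445 u v) ∘ (fun n : ℕ => Finsupp.single n ((1, 0) : ℂ × ℂ)) = u := by
    funext n
    simp [lin445_single]
  rwa [this] at h2

end Blocks

/-- `α u + β v ↦ α v - β u` in coordinates. -/
noncomputable def j1_445 : ℂ × ℂ →ₗ[ℂ] ℂ × ℂ :=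
  (-(LinearMap.snd ℂ ℂ ℂ)).prod (LinearMap.fst ℂ ℂ ℂ)

/-- `α u + β v ↦ iα v + iβ u` in coordinates. -/
noncomputable def j2_445 : ℂ × ℂ →ₗ[ℂ] ℂ × ℂ :=
  (Complex.I • (LinearMap.snd ℂ ℂ ℂ)).prod (Complex.I • (LinearMap.fst ℂ ℂ ℂ))

theorem j1_445_apply (p : ℂ × ℂ) : j1_445 p = (-p.2, p.1) := by simp [j1_445]

theorem j2_445_apply (p : ℂ × ℂ) : j2_445 p = (Complex.I * p.2, Complex.I * p.1) := by
  simp [j2_445]

theorem nsq445_rot (a b c : ℝ) (h : a ^ 2 + b ^ 2 + c ^ 2 = 1) (p : ℂ × ℂ) :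
    nsq445 (((a : ℂ) • p + (b : ℂ) • j1_445 p + (c : ℂ) • j2_445 p)) = nsq445 p := by
  rw [j1_445_apply, j2_445_apply]
  unfold nsq445
  simp only [Prod.fst_add, Prod.snd_add, Prod.smul_fst, Prod.smul_snd, smul_eq_mul,
    ← Complex.normSq_eq_norm_sq, Complex.normSq_apply, Complex.add_re, Complex.add_im,
    Complex.mul_re, Complex.mul_im, Complex.ofReal_re, Complex.ofReal_im, Complex.neg_re,
    Complex.neg_im, Complex.I_re, Complex.I_im]
  linear_combination (p.1.re ^ 2 + p.1.im ^ 2 + p.2.re ^ 2 + p.2.im ^ 2) * h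

theorem exists_blocks445 {X : Type*} [NormedAddCommGroup X] [NormedSpace ℂ X]
    (hinf : ¬ FiniteDimensional ℂ X) (hU : UEp X) (δ : ℕ → ℝ) (hδ : ∀ j, 0 < δ j) :
    ∃ (u v : ℕ → X) (F : ℕ → Submodule ℂ X), (∀ j, u j ≠ 0) ∧
      (∀ j i, i ≠ j → u i ∈ F j ∧ v i ∈ F j) ∧ (∀ j, NU (δ j) (u j) (v j) (F j)) := by
  classical
  let S := {t : Submodule ℂ X × Submodule ℂ X // FiniteDimensional ℂ t.1 ∧ CI t.2}
  have hnext : ∀ (s : S) (i : ℕ), ∃ (u v : X) (s' : S), u ∈ s.1.2 ∧ v ∈ s.1.2 ∧ u ≠ 0 ∧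
      s'.1.2 ≤ s.1.2 ∧ s.1.1 ≤ s'.1.1 ∧ u ∈ s'.1.1 ∧ v ∈ s'.1.1 ∧
      NU (δ i) u v (s.1.1 ⊔ s'.1.2) := by
    intro s i
    obtain ⟨u, hu, v, hv, hu0, K', hK1, hK2, hK3⟩ :=
      hU s.1.1 s.2.1 s.1.2 s.2.2 (δ i) (hδ i)
    have hfd : FiniteDimensional ℂ s.1.1 := s.2.1
    have hfd2 : FiniteDimensional ℂ (Submodule.span ℂ ({u, v} : Set X)) :=
      FiniteDimensional.span_of_finite ℂ (Set.toFinite _)
    refine ⟨u, v, ⟨(s.1.1 ⊔ Submodule.span ℂ {u, v}, K'), ?_, hK2⟩, hu, hv, hu0, hK1,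
      le_sup_left, ?_, ?_, hK3⟩
    · show FiniteDimensional ℂ (s.1.1 ⊔ Submodule.span ℂ {u, v} : Submodule ℂ X)
      infer_instance
    · exact (le_sup_right : _ ≤ s.1.1 ⊔ Submodule.span ℂ {u, v})
        (Submodule.subset_span (by simp))
    · exact (le_sup_right : _ ≤ s.1.1 ⊔ Submodule.span ℂ {u, v})
        (Submodule.subset_span (by simp))
  choose fu fv nx hnx using hnext
  have htopCI : CI (⊤ : Submodule ℂ X) := by
    refine ⟨isClosed_univ, fun h => hinf ?_⟩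
    exact LinearEquiv.finiteDimensional (Submodule.topEquiv : (⊤ : Submodule ℂ X) ≃ₗ[ℂ] X)
  let s0 : S := ⟨(⊥, ⊤), (inferInstance : FiniteDimensional ℂ (⊥ : Submodule ℂ X)), htopCI⟩
  let sq : ℕ → S := fun n => Nat.rec s0 (fun i s => nx s i) n
  have hsq : ∀ i, sq (i + 1) = nx (sq i) i := fun i => rfl
  have hE : Monotone fun i => (sq i).1.1 :=
    monotone_nat_of_le_succ fun i => (hnx (sq i) i).2.2.2.2.1
  have hK : Antitone fun i => (sq i).1.2 :=
    antitone_nat_of_succ_le fun i => (hnx (sq i) i).2.2.2.1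
  refine ⟨fun i => fu (sq i) i, fun i => fv (sq i) i, fun i => (sq i).1.1 ⊔ (sq (i + 1)).1.2,
    fun i => (hnx (sq i) i).2.2.1, ?_, fun i => (hnx (sq i) i).2.2.2.2.2.2.2⟩
  intro j i hij
  rcases lt_or_gt_of_ne hij with h | h
  · have h1 : (sq (i + 1)).1.1 ≤ (sq j).1.1 := hE h
    exact ⟨(le_sup_left : (sq j).1.1 ≤ _) (h1 (hnx (sq i) i).2.2.2.2.2.1),
      (le_sup_left : (sq j).1.1 ≤ _) (h1 (hnx (sq i) i).2.2.2.2.2.2.1)⟩
  · have h1 : (sq i).1.2 ≤ (sq (j + 1)).1.2 := hK h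
    exact ⟨(le_sup_right : (sq (j + 1)).1.2 ≤ _) (h1 (hnx (sq i) i).1),
      (le_sup_right : (sq (j + 1)).1.2 ≤ _) (h1 (hnx (sq i) i).2.1)⟩

theorem su2_of_UEp {X : Type*} [NormedAddCommGroup X] [NormedSpace ℂ X] [CompleteSpace X]
    [TopologicalSpace.SeparableSpace X] (hX : Homog ℂ X) (hinf : ¬ FiniteDimensional ℂ X)
    (hU : UEp X) : SU2 X := by
  classical
  intro ε hε
  set η : ℝ := Real.log (1 + ε) / 2 with hη
  have hηpos : 0 < η := by
    rw [hη]; have := Real.log_pos (by linarith : 1 < 1 + ε); positivity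
  let δ : ℕ → ℝ := fun i => η / 2 * (1 / 2) ^ i
  have hδpos : ∀ i, 0 < δ i := fun i => by positivity
  obtain ⟨u, v, F, hu, hF, hNU⟩ := exists_blocks445 hinf hU δ hδpos
  have hprod : ∀ s : Finset ℕ, ∏ j ∈ s, (1 + δ j) ^ 2 ≤ 1 + ε := by
    intro s
    have h1 : ∏ j ∈ s, (1 + δ j) ^ 2 ≤ Real.exp (∑ j ∈ s, 2 * δ j) := by
      rw [Real.exp_sum]
      refine Finset.prod_le_prod (fun j _ => sq_nonneg _) fun j _ => ?_
      have h2 := Real.add_one_le_exp (δ j)
      have h3 : Real.exp (2 * δ j) = Real.exp (δ j) ^ 2 := by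
        rw [← Real.exp_nat_mul]; norm_num
      rw [h3]
      have := hδpos j
      exact pow_le_pow_left₀ (by linarith) (by linarith) 2
    have h2 : ∑ j ∈ s, 2 * δ j ≤ 2 * η := by
      have h3 : ∑ j ∈ s, 2 * δ j = η * ∑ j ∈ s, (1 / 2 : ℝ) ^ j := by
        rw [Finset.mul_sum]
        refine Finset.sum_congr rfl fun j _ => ?_
        simp only [δ]; ring
      have h4 : ∑ j ∈ s, (1 / 2 : ℝ) ^ j ≤ 2 := by
        have h5 := summable_geometric_two.sum_le_tsum s (fun i _ => by positivity)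
        rwa [tsum_geometric_two] at h5
      rw [h3]
      nlinarith
    have h5 : Real.exp (2 * η) = 1 + ε := by
      rw [hη, mul_div_cancel₀ _ (by norm_num : (2 : ℝ) ≠ 0), Real.exp_log (by linarith)]
    rw [← h5]
    exact h1.trans (Real.exp_le_exp.2 h2)
  set L := lin445 u v with hLdef
  have hinj : Function.Injective L := lin445_injective hF hNU hu
  let S : Submodule ℂ X := LinearMap.range L
  let Z : Submodule ℂ X := S.topologicalClosure
  have hLZ : ∀ c, L c ∈ Z := fun c => S.le_topologicalClosure ⟨c, rfl⟩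
  have hZ : CI Z := by
    refine ⟨S.isClosed_topologicalClosure,
      inf_of_linearIndependent (lin445_linearIndependent hinj) fun n => ?_⟩
    have : L (Finsupp.single n (1, 0)) = u n := by rw [hLdef, lin445_single]; simp
    rw [← this]
    exact hLZ _
  have hcZ : CompleteSpace Z := hZ.closed.completeSpace_coe
  let L' : (ℕ →₀ ℂ × ℂ) →ₗ[ℂ] Z := L.codRestrict Z hLZ
  have hL'n : ∀ c, ‖L' c‖ = ‖L c‖ := fun c => rfl
  have hdense : DenseRange L' := by
    intro z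
    rw [closure_subtype]
    have h1 : (Subtype.val '' Set.range L' : Set X) = (S : Set X) := by
      ext x
      constructor
      · rintro ⟨_, ⟨c, rfl⟩, rfl⟩
        exact ⟨c, rfl⟩
      · rintro ⟨c, rfl⟩
        exact ⟨L' c, ⟨c, rfl⟩, rfl⟩
    rw [h1]
    have h2 := z.2
    rwa [← SetLike.mem_coe, Submodule.topologicalClosure_coe] at h2
  let T1 : (ℕ →₀ ℂ × ℂ) →ₗ[ℂ] (ℕ →₀ ℂ × ℂ) := Finsupp.mapRange.linearMap j1_445
  let T2 : (ℕ →₀ ℂ × ℂ) →ₗ[ℂ] (ℕ →₀ ℂ × ℂ) := Finsupp.mapRange.linearMap j2_445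
  have hT1 : ∀ c j, T1 c j = j1_445 (c j) := fun c j => rfl
  have hT2 : ∀ c j, T2 c j = j2_445 (c j) := fun c j => rfl
  have hrot : ∀ a b c : ℝ, a ^ 2 + b ^ 2 + c ^ 2 = 1 → ∀ f : ℕ →₀ ℂ × ℂ,
      ‖L' ((a : ℂ) • f + (b : ℂ) • T1 f + (c : ℂ) • T2 f)‖ ≤ (1 + ε) * ‖L' f‖ := by
    intro a b c h f
    rw [hL'n, hL'n]
    set f' : ℕ →₀ ℂ × ℂ := (a : ℂ) • f + (b : ℂ) • T1 f + (c : ℂ) • T2 f with hf'
    have h1 := lin445_le hδpos hF hNU (f.support ∪ f'.support) f f' (by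
      intro j hj
      simp only [Finset.mem_union, Finsupp.mem_support_iff, not_or, not_not] at hj
      rw [hj.1, hj.2]) (by
      intro j
      have h2 : f' j = (a : ℂ) • f j + (b : ℂ) • j1_445 (f j) + (c : ℂ) • j2_445 (f j) := by
        rw [hf']
        simp only [Finsupp.add_apply, Finsupp.smul_apply, hT1, hT2]
      rw [h2]
      exact nsq445_rot a b c h (f j))
    refine h1.trans ?_
    exact mul_le_mul_of_nonneg_right (hprod _) (norm_nonneg _)
  obtain ⟨P, hP⟩ := ext_op445 L' hdense T1 (1 + ε) (fun c => by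
    have := hrot 0 1 0 (by norm_num) c
    simpa using this)
  obtain ⟨Q, hQ⟩ := ext_op445 L' hdense T2 (1 + ε) (fun c => by
    have := hrot 0 0 1 (by norm_num) c
    simpa using this)
  have hPP : ∀ z, P (P z) = -z := by
    intro z
    have := hdense.equalizer (g := fun z => P (P z)) (h := fun z => -z) (by fun_prop)
      (by fun_prop) (by
        funext c
        simp only [Function.comp_apply]
        rw [hP, hP, ← map_neg]
        congr 1
        ext1 j
        rw [hT1, hT1, j1_445_apply, j1_445_apply, Finsupp.neg_apply]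
        rfl)
    exact congrFun this z
  have hQQ : ∀ z, Q (Q z) = -z := by
    intro z
    have := hdense.equalizer (g := fun z => Q (Q z)) (h := fun z => -z) (by fun_prop)
      (by fun_prop) (by
        funext c
        simp only [Function.comp_apply]
        rw [hQ, hQ, ← map_neg]
        congr 1
        ext1 j
        rw [hT2, hT2, j2_445_apply, j2_445_apply, Finsupp.neg_apply]
        refine Prod.ext ?_ ?_
        · show Complex.I * (Complex.I * (c j).1) = -(c j).1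
          rw [← mul_assoc, Complex.I_mul_I]; ring
        · show Complex.I * (Complex.I * (c j).2) = -(c j).2
          rw [← mul_assoc, Complex.I_mul_I]; ring)
    exact congrFun this z
  have hPQ : ∀ z, P (Q z) = -Q (P z) := by
    intro z
    have := hdense.equalizer (g := fun z => P (Q z)) (h := fun z => -Q (P z)) (by fun_prop)
      (by fun_prop) (by
        funext c
        simp only [Function.comp_apply]
        rw [hP, hQ, hP, hQ, ← map_neg]
        congr 1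
        ext1 j
        rw [Finsupp.neg_apply, hT1, hT2, hT2, hT1, j2_445_apply, j1_445_apply, j1_445_apply,
          j2_445_apply]
        refine Prod.ext ?_ ?_
        · show -(Complex.I * (c j).1) = -(Complex.I * (c j).1)
          rfl
        · show Complex.I * (c j).2 = -(Complex.I * -(c j).2)
          ring)
    exact congrFun this z
  have hbound : ∀ a b c : ℝ, a ^ 2 + b ^ 2 + c ^ 2 = 1 → ∀ z : Z,
      ‖(a : ℂ) • z + (b : ℂ) • P z + (c : ℂ) • Q z‖ ≤ (1 + ε) * ‖z‖ := by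
    intro a b c h z
    refine hdense.induction_on z (isClosed_le (by fun_prop) (by fun_prop)) fun f => ?_
    rw [hP, hQ]
    have := hrot a b c h f
    rwa [map_add, map_add, map_smul, map_smul, map_smul] at this
  obtain ⟨e⟩ := hX Z hZ.closed hZ.inf
  refine ⟨e.symm.toLinearEquiv.toLinearMap ∘ₗ P.toLinearMap ∘ₗ e.toLinearEquiv.toLinearMap,
    e.symm.toLinearEquiv.toLinearMap ∘ₗ Q.toLinearMap ∘ₗ e.toLinearEquiv.toLinearMap,
    ?_, ?_, ?_, ?_⟩
  · intro x
    show e.symm (P (e (e.symm (P (e x))))) = -x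
    rw [e.apply_symm_apply, hPP, map_neg, e.symm_apply_apply]
  · intro x
    show e.symm (Q (e (e.symm (Q (e x))))) = -x
    rw [e.apply_symm_apply, hQQ, map_neg, e.symm_apply_apply]
  · intro x
    show e.symm (P (e (e.symm (Q (e x))))) = -e.symm (Q (e (e.symm (P (e x)))))
    rw [e.apply_symm_apply, e.apply_symm_apply, hPQ, map_neg]
  · intro a b c h x
    have h1 := hbound a b c h (e x)
    have h2 : (a : ℂ) • x + (b : ℂ) • e.symm (P (e x)) + (c : ℂ) • e.symm (Q (e x))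
        = e.symm ((a : ℂ) • e x + (b : ℂ) • P (e x) + (c : ℂ) • Q (e x)) := by
      rw [map_add, map_add, map_smul, map_smul, map_smul, e.symm_apply_apply]
    show ‖(a : ℂ) • x + (b : ℂ) • e.symm (P (e x)) + (c : ℂ) • e.symm (Q (e x))‖ ≤ _
    rw [h2, e.symm.norm_map]
    rwa [e.norm_map] at h1

end Pool.Agent.TH319
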