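import Pool.Agent.TH716.TW.Defs
import Pool.Agent.H921R2.TatePole.Dedekind

set_option autoImplicit false

/-!
# TW21 (job 1425): the norm is surjective on ideal classes
-/

namespace Pool.Agent.TH445.J1425

open NumberField IsDedekindDomain
open Pool.Agent.TH716.TW
open scoped nonZeroDivisors

/-! ### the cubic character modulo `7` -/

lemma unit3 : (3 : ZMod 7) * 5 = 1 := by decide

lemma gen3 : ∀ a : ZMod 7, a ≠ 0 → ∃ k : Fin 6, a = 3 ^ (k : ℕ) := by decide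

lemma exists_chi : ∃ χ : DirichletCharacter ℂ 7, χ 3 ^ 3 = 1 ∧ χ 3 ≠ 1 := by
  have : Fact (Nat.Prime 7) := ⟨by norm_num⟩
  obtain ⟨χ, hχ⟩ := MulChar.exists_mulChar_orderOf (ZMod 7) (n := 3) (by
    rw [ZMod.card]; norm_num) (Complex.isPrimitiveRoot_exp 3 (by norm_num))
  have h3 : χ ^ 3 = 1 := by rw [← hχ]; exact pow_orderOf_eq_one χ
  have hne : χ ≠ 1 := by
    intro h
    rw [h, orderOf_one] at hχ
    omega
  have hu : IsUnit (3 : ZMod 7) := IsUnit.of_mul_eq_one _ unit3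
  refine ⟨χ, ?_, ?_⟩
  · have := congrArg (fun f : MulChar (ZMod 7) ℂ => f 3) h3
    simp only [MulChar.pow_apply' χ (by norm_num : (3:ℕ) ≠ 0), MulChar.one_apply hu] at this
    exact this
  · intro h
    apply hne
    ext a
    rw [MulChar.one_apply a.isUnit]
    obtain ⟨k, hk⟩ := gen3 a a.ne_zero
    rw [hk, map_pow, h, one_pow]

section chi

variable {χ : DirichletCharacter ℂ 7}

lemma chi_natCast (h3 : χ 3 ^ 3 = 1) (n : ℕ) :
    χ ((n : ℕ) : ZMod 7) = if n % 7 = 0 then 0 else if n % 7 = 1 ∨ n % 7 = 6 then 1 else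
      if n % 7 = 3 ∨ n % 7 = 4 then χ 3 else χ 3 ^ 2 := by
  have h0 : ((n : ℕ) : ZMod 7) = ((n % 7 : ℕ) : ZMod 7) := by simp
  rw [h0]
  have hlt : n % 7 < 7 := Nat.mod_lt _ (by norm_num)
  generalize n % 7 = r at hlt
  interval_cases r
  · have : ¬ IsUnit ((0 : ℕ) : ZMod 7) := by
      rw [Nat.cast_zero]
      decide
    rw [MulChar.map_nonunit _ this]
    simp
  · simp
  · have e : ((2 : ℕ) : ZMod 7) = 3 ^ 2 := by decide
    rw [e, map_pow]; norm_num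
  · norm_num
  · have e : ((4 : ℕ) : ZMod 7) = 3 ^ 4 := by decide
    rw [e, map_pow]; norm_num
    rw [pow_succ (χ 3) 3, h3, one_mul]
  · have e : ((5 : ℕ) : ZMod 7) = 3 ^ 5 := by decide
    rw [e, map_pow]; norm_num
    rw [show (5:ℕ) = 3 + 2 from rfl, pow_add, h3, one_mul]
  · have e : ((6 : ℕ) : ZMod 7) = 3 ^ 3 := by decide
    rw [e, map_pow]; norm_num
    rw [h3]

lemma chi_neg_one (h3 : χ 3 ^ 3 = 1) : χ (-1) = 1 := by
  have e : (-1 : ZMod 7) = 3 ^ 3 := by decide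
  rw [e, map_pow, h3]

lemma omega_sum (h3 : χ 3 ^ 3 = 1) (h1 : χ 3 ≠ 1) : 1 + χ 3 + χ 3 ^ 2 = 0 := by
  have h : (χ 3 - 1) * (1 + χ 3 + χ 3 ^ 2) = 0 := by linear_combination h3
  rcases mul_eq_zero.mp h with h | h
  · exact absurd (sub_eq_zero.mp h) h1
  · exact h

end chi

/-! ### the completely multiplicative functions -/

section f

variable {K : Type} [Field K] [NumberField K]

open scoped Classical in
/-- `ψ([I]) χ(N I)`, zero at the zero ideal -/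
noncomputable def ff {q : ℕ} (χ : DirichletCharacter ℂ q) (ψ : ClassGroup (𝓞 K) →* ℂ) (I : Ideal (𝓞 K)) : ℂ :=
  if h : I = ⊥ then 0 else
    ψ (ClassGroup.mk0 ⟨I, mem_nonZeroDivisors_of_ne_zero h⟩) * χ ((Ideal.absNorm I : ℕ) : ZMod q)

lemma ff_of_ne {q : ℕ} (χ : DirichletCharacter ℂ q) (ψ : ClassGroup (𝓞 K) →* ℂ) {I : Ideal (𝓞 K)}
    (h : I ≠ ⊥) : ff χ ψ I =
    ψ (ClassGroup.mk0 ⟨I, mem_nonZeroDivisors_of_ne_zero h⟩) * χ ((Ideal.absNorm I : ℕ) : ZMod q) := by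
  unfold ff
  rw [dif_neg h]

lemma ff_bot {q : ℕ} (χ : DirichletCharacter ℂ q) (ψ : ClassGroup (𝓞 K) →* ℂ) :
    ff χ ψ (⊥ : Ideal (𝓞 K)) = 0 := by
  unfold ff
  rw [dif_pos rfl]

lemma ff_mul {q : ℕ} (χ : DirichletCharacter ℂ q) (ψ : ClassGroup (𝓞 K) →* ℂ) (I J : Ideal (𝓞 K)) :
    ff χ ψ (I * J) = ff χ ψ I * ff χ ψ J := by
  by_cases hI : I = ⊥
  · rw [hI, Ideal.bot_mul, ff_bot, zero_mul]
  by_cases hJ : J = ⊥
  · rw [hJ, Ideal.mul_bot, ff_bot, mul_zero]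
  have hIJ : I * J ≠ ⊥ := mul_ne_zero hI hJ
  rw [ff_of_ne χ ψ hI, ff_of_ne χ ψ hJ, ff_of_ne χ ψ hIJ]
  have e : (⟨I * J, mem_nonZeroDivisors_of_ne_zero hIJ⟩ : (Ideal (𝓞 K))⁰) =
      ⟨I, mem_nonZeroDivisors_of_ne_zero hI⟩ * ⟨J, mem_nonZeroDivisors_of_ne_zero hJ⟩ := rfl
  rw [e, map_mul, map_mul, map_mul, Nat.cast_mul, map_mul]
  ring

lemma ff_top {q : ℕ} (χ : DirichletCharacter ℂ q) (ψ : ClassGroup (𝓞 K) →* ℂ) :
    ff χ ψ (⊤ : Ideal (𝓞 K)) = 1 := by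
  have h : (⊤ : Ideal (𝓞 K)) ≠ ⊥ := top_ne_bot
  rw [ff_of_ne χ ψ h]
  have e : (⟨⊤, mem_nonZeroDivisors_of_ne_zero h⟩ : (Ideal (𝓞 K))⁰) = 1 := by
    ext1
    exact Ideal.one_eq_top.symm
  rw [e, map_one, map_one, Ideal.absNorm_top]
  simp

lemma ff_norm {q : ℕ} (χ : DirichletCharacter ℂ q) {ψ : ClassGroup (𝓞 K) →* ℂ} (hψ : ∀ c, ψ c ^ 3 = 1)
    (I : Ideal (𝓞 K)) : ‖ff χ ψ I‖ ≤ 1 := by
  by_cases hI : I = ⊥
  · rw [hI, ff_bot, norm_zero]; exact zero_le_one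
  rw [ff_of_ne χ ψ hI, norm_mul]
  have h1 : ‖ψ (ClassGroup.mk0 ⟨I, mem_nonZeroDivisors_of_ne_zero hI⟩)‖ = 1 := by
    have h2 := congrArg norm (hψ (ClassGroup.mk0 ⟨I, mem_nonZeroDivisors_of_ne_zero hI⟩))
    rw [norm_pow, norm_one] at h2
    exact (pow_eq_one_iff_of_nonneg (norm_nonneg _) (by norm_num)).mp h2
  rw [h1, one_mul]
  exact DirichletCharacter.norm_le_one χ _

lemma LL_eq {q : ℕ} (χ : DirichletCharacter ℂ q) (ψ : ClassGroup (𝓞 K) →* ℂ) (s : ℝ) :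
    LL K q χ ψ s = ∑' I : {I : Ideal (𝓞 K) // I ≠ ⊥}, ff χ ψ I.1 * ((Ideal.absNorm I.1 : ℝ) ^ (-s) : ℝ) := by
  unfold LL
  refine tsum_congr fun I => ?_
  rw [ff_of_ne χ ψ I.2]

end f

/-! ### the estimate -/

section key

variable {K : Type} [Field K] [NumberField K]

lemma finite7 : {v : HeightOneSpectrum (𝓞 K) | Ideal.absNorm v.asIdeal % 7 = 0}.Finite := by
  have h7 : Ideal.span {(7 : 𝓞 K)} ≠ 0 := by
    rw [Ne, Ideal.zero_eq_bot, Ideal.span_singleton_eq_bot]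
    norm_num
  refine (Ideal.finite_factors h7).subset fun v hv => ?_
  have hmax : v.asIdeal.IsMaximal := v.isPrime.isMaximal v.ne_bot
  obtain ⟨p, n, hn, hpm, hp, h⟩ := Ideal.exists_prime_and_absNorm_eq_pow v.asIdeal
  have h1 : 7 ∣ p ^ n := by
    rw [← h]
    exact Nat.dvd_of_mod_eq_zero hv
  have h2 : 7 = p := (Nat.prime_dvd_prime_iff_eq (by norm_num) hp).mp
    ((by norm_num : Nat.Prime 7).dvd_of_dvd_pow h1)
  subst h2
  rw [Set.mem_ofPred_eq, Ideal.dvd_iff_le, Ideal.span_singleton_le_iff_mem]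
  exact_mod_cast hpm

/-- the number of primes above `7` -/
noncomputable def n7 (K : Type) [Field K] [NumberField K] : ℝ :=
  ∑' v : HeightOneSpectrum (𝓞 K), if Ideal.absNorm v.asIdeal % 7 = 0 then (1:ℝ) else 0

lemma summable7 : Summable fun v : HeightOneSpectrum (𝓞 K) =>
    if Ideal.absNorm v.asIdeal % 7 = 0 then (1:ℝ) else 0 := by
  refine summable_of_hasFiniteSupport (finite7.subset fun v hv => ?_)
  rw [Function.mem_support] at hv
  rw [Set.mem_ofPred_eq]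
  by_contra h
  exact hv (if_neg h)

lemma summable_N {s : ℝ} (hs : 1 < s) :
    Summable fun v : HeightOneSpectrum (𝓞 K) => (Ideal.absNorm v.asIdeal : ℝ) ^ (-s) :=
  Pool.Agent.H921R2.TatePole.nm_summable hs

lemma summable_g {s : ℝ} (hs : 1 < s) {f : Ideal (𝓞 K) → ℂ} (hf : ∀ I, ‖f I‖ ≤ 1) :
    Summable fun v : HeightOneSpectrum (𝓞 K) =>
      (f v.asIdeal).re * (Ideal.absNorm v.asIdeal : ℝ) ^ (-s) := by
  refine Summable.of_norm_bounded (summable_N hs) fun v => ?_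
  rw [norm_mul, Real.norm_eq_abs, Real.norm_eq_abs,
    abs_of_nonneg (a := (Ideal.absNorm v.asIdeal : ℝ) ^ (-s)) (by positivity)]
  exact mul_le_of_le_one_left (by positivity) ((Complex.abs_re_le_norm _).trans (hf _))

lemma N_le_one (v : HeightOneSpectrum (𝓞 K)) {s : ℝ} (hs : 1 < s) :
    (Ideal.absNorm v.asIdeal : ℝ) ^ (-s) ≤ 1 := by
  apply Real.rpow_le_one_of_one_le_of_nonpos _ (by linarith)
  have : Ideal.absNorm v.asIdeal ≠ 0 := by
    rw [Ne, Ideal.absNorm_eq_zero_iff]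
    exact v.ne_bot
  exact_mod_cast Nat.one_le_iff_ne_zero.mpr this

lemma local_bound {χ : DirichletCharacter ℂ 7} (h3 : χ 3 ^ 3 = 1) (h1 : χ 3 ≠ 1)
    {ψ : ClassGroup (𝓞 K) →* ℂ} (hψ : ∀ c, ψ c ^ 3 = 1)
    (hv : ∀ v : HeightOneSpectrum (𝓞 K),
      (Ideal.absNorm v.asIdeal % 7 = 1 ∨ Ideal.absNorm v.asIdeal % 7 = 6) →
      ψ (ClassGroup.mk0 ⟨v.asIdeal, mem_nonZeroDivisors_of_ne_zero v.ne_bot⟩) = 1)
    (v : HeightOneSpectrum (𝓞 K)) {s : ℝ} (hs : 1 < s) :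
    3 * (if Ideal.absNorm v.asIdeal % 7 = 1 ∨ Ideal.absNorm v.asIdeal % 7 = 6 then
      (Ideal.absNorm v.asIdeal : ℝ) ^ (-s) else 0) -
      (if Ideal.absNorm v.asIdeal % 7 = 0 then (1:ℝ) else 0) ≤
    (ff (1 : DirichletCharacter ℂ 1) ψ v.asIdeal).re * (Ideal.absNorm v.asIdeal : ℝ) ^ (-s) +
    ((ff χ ψ v.asIdeal).re * (Ideal.absNorm v.asIdeal : ℝ) ^ (-s) +
      (ff (χ ^ 2) ψ v.asIdeal).re * (Ideal.absNorm v.asIdeal : ℝ) ^ (-s)) := by
  have hN0 : (0:ℝ) ≤ (Ideal.absNorm v.asIdeal : ℝ) ^ (-s) := by positivity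
  have hN1 := N_le_one v hs
  have hnorm := ff_norm (1 : DirichletCharacter ℂ 1) hψ v.asIdeal
  have hre : -1 ≤ (ff (1 : DirichletCharacter ℂ 1) ψ v.asIdeal).re :=
    (abs_le.mp ((Complex.abs_re_le_norm _).trans hnorm)).1
  have e0 := ff_of_ne (1 : DirichletCharacter ℂ 1) ψ v.ne_bot
  have e1 := ff_of_ne χ ψ v.ne_bot
  have e2 := ff_of_ne (χ ^ 2) ψ v.ne_bot
  have hone : (1 : DirichletCharacter ℂ 1) ((Ideal.absNorm v.asIdeal : ℕ) : ZMod 1) = 1 := by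
    apply MulChar.one_apply
    exact isUnit_of_subsingleton _
  rw [hone, mul_one] at e0
  rw [MulChar.pow_apply' χ (by norm_num : (2:ℕ) ≠ 0), chi_natCast h3] at e2
  rw [chi_natCast h3] at e1
  have hsum := omega_sum h3 h1
  have hr : Ideal.absNorm v.asIdeal % 7 < 7 := Nat.mod_lt _ (by norm_num)
  by_cases c0 : Ideal.absNorm v.asIdeal % 7 = 0
  · simp only [c0, if_true] at e1 e2 ⊢
    have z1 : (ff χ ψ v.asIdeal).re = 0 := by rw [e1]; simp
    have z2 : (ff (χ ^ 2) ψ v.asIdeal).re = 0 := by rw [e2]; simp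
    rw [z1, z2]
    norm_num
    nlinarith
  by_cases c1 : Ideal.absNorm v.asIdeal % 7 = 1 ∨ Ideal.absNorm v.asIdeal % 7 = 6
  · rw [if_neg c0, if_pos c1] at e1 e2
    rw [if_pos c1, if_neg c0]
    have hv1 := hv v c1
    have z0 : ff (1 : DirichletCharacter ℂ 1) ψ v.asIdeal = 1 := by rw [e0]; exact hv1
    have z1 : ff χ ψ v.asIdeal = 1 := by rw [e1, mul_one]; exact hv1
    have z2 : ff (χ ^ 2) ψ v.asIdeal = 1 := by rw [e2, one_pow, mul_one]; exact hv1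
    rw [z0, z1, z2, Complex.one_re]
    linarith
  · rw [if_neg c0, if_neg c1] at e1 e2
    rw [if_neg c1, if_neg c0]
    have z : ff (1 : DirichletCharacter ℂ 1) ψ v.asIdeal + (ff χ ψ v.asIdeal + ff (χ ^ 2) ψ v.asIdeal) = 0 := by
      rw [e0, e1, e2]
      set w := ψ (ClassGroup.mk0 ⟨v.asIdeal, mem_nonZeroDivisors_of_ne_zero v.ne_bot⟩)
      by_cases c2 : Ideal.absNorm v.asIdeal % 7 = 3 ∨ Ideal.absNorm v.asIdeal % 7 = 4
      · rw [if_pos c2]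
        linear_combination w * hsum
      · rw [if_neg c2]
        linear_combination w * hsum + w * χ 3 * h3
    have z' := congrArg Complex.re z
    rw [Complex.add_re, Complex.add_re, Complex.zero_re] at z'
    rw [← add_mul, ← add_mul, z']
    simp

theorem key (h2 : Module.finrank ℚ K = 2) (hb : S_bdd) (he : S_euler) (hm : S_many)
    (ψ : ClassGroup (𝓞 K) →* ℂ) (hψ : ∀ c, ψ c ^ 3 = 1) (hψ1 : ψ ≠ 1)
    (hv : ∀ v : HeightOneSpectrum (𝓞 K),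
      (Ideal.absNorm v.asIdeal % 7 = 1 ∨ Ideal.absNorm v.asIdeal % 7 = 6) →
      ψ (ClassGroup.mk0 ⟨v.asIdeal, mem_nonZeroDivisors_of_ne_zero v.ne_bot⟩) = 1) : False := by
  obtain ⟨χ, h3, h1⟩ := exists_chi
  have hω2 : χ 3 ^ 2 ≠ 1 := by
    intro h
    apply h1
    have : χ 3 ^ 3 = χ 3 ^ 2 * χ 3 := by ring
    rw [h, one_mul, h3] at this
    exact this.symm
  have hc2 : χ ((2 : ℕ) : ZMod 7) = χ 3 ^ 2 := by rw [chi_natCast h3]; norm_num
  obtain ⟨C0, hC0⟩ := hb K 1 (1 : DirichletCharacter ℂ 1) ψ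
    (by exact MulChar.one_apply (isUnit_of_subsingleton _)) hψ1 (Or.inl ⟨rfl, rfl⟩)
  obtain ⟨C1, hC1⟩ := hb K 7 χ ψ (chi_neg_one h3) hψ1 (Or.inr ⟨2, by norm_num, by
    rw [h2, hc2]
    intro h
    apply h1
    calc χ 3 = χ 3 ^ 3 * χ 3 := by rw [h3, one_mul]
      _ = (χ 3 ^ 2) ^ 2 := by ring
      _ = 1 := h⟩)
  obtain ⟨C2, hC2⟩ := hb K 7 (χ ^ 2) ψ (by
      rw [MulChar.pow_apply' χ (by norm_num : (2:ℕ) ≠ 0), chi_neg_one h3, one_pow]) hψ1
    (Or.inr ⟨2, by norm_num, by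
      rw [h2, MulChar.pow_apply' χ (by norm_num : (2:ℕ) ≠ 0), hc2]
      intro h
      apply hω2
      calc χ 3 ^ 2 = χ 3 ^ 3 * χ 3 ^ 3 * χ 3 ^ 2 := by rw [h3, one_mul, one_mul]
        _ = ((χ 3 ^ 2) ^ 2) ^ 2 := by ring
        _ = 1 := h⟩)
  obtain ⟨c, hc, hE⟩ := he K
  set P : ℝ := C0 * (C1 * C2) / c ^ 3 with hP
  obtain ⟨s₀, hs₀, hB⟩ := hm K h2 ((n7 K + P) / 3)
  set s : ℝ := min s₀ 2 with hs
  have hs1 : 1 < s := lt_min hs₀ (by norm_num)
  have hs2 : s ≤ 2 := min_le_right _ _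
  have hB' := hB s hs1 (min_le_left _ _)
  have E0 := (hE (ff (1 : DirichletCharacter ℂ 1) ψ) (ff_mul _ ψ) (ff_top _ ψ) (ff_norm _ hψ) s hs1 hs2)
  have E1 := (hE (ff χ ψ) (ff_mul _ ψ) (ff_top _ ψ) (ff_norm _ hψ) s hs1 hs2)
  have E2 := (hE (ff (χ ^ 2) ψ) (ff_mul _ ψ) (ff_top _ ψ) (ff_norm _ hψ) s hs1 hs2)
  rw [← LL_eq] at E0 E1 E2
  replace E0 := E0.trans (hC0 s hs1 hs2)
  replace E1 := E1.trans (hC1 s hs1 hs2)
  replace E2 := E2.trans (hC2 s hs1 hs2)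
  have S0 := summable_g hs1 (ff_norm (1 : DirichletCharacter ℂ 1) hψ)
  have S1 := summable_g hs1 (ff_norm χ hψ)
  have S2 := summable_g hs1 (ff_norm (χ ^ 2) hψ)
  have hSN : Summable fun v : HeightOneSpectrum (𝓞 K) =>
      (if Ideal.absNorm v.asIdeal % 7 = 1 ∨ Ideal.absNorm v.asIdeal % 7 = 6 then
      (Ideal.absNorm v.asIdeal : ℝ) ^ (-s) else 0) := by
    refine Summable.of_nonneg_of_le (fun v => ?_) (fun v => ?_) (summable_N hs1)
    · split_ifs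
      · positivity
      · exact le_rfl
    · split_ifs
      · exact le_rfl
      · positivity
  have hlow := ((hSN.mul_left 3).sub summable7).tsum_le_tsum
    (fun v => local_bound h3 h1 hψ hv v hs1) (S0.add (S1.add S2))
  rw [(hSN.mul_left 3).tsum_sub summable7, tsum_mul_left, S0.tsum_add (S1.add S2),
    S1.tsum_add S2] at hlow
  set X0 := ∑' v : HeightOneSpectrum (𝓞 K), (ff (1 : DirichletCharacter ℂ 1) ψ v.asIdeal).re *
    (Ideal.absNorm v.asIdeal : ℝ) ^ (-s)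
  set X1 := ∑' v : HeightOneSpectrum (𝓞 K), (ff χ ψ v.asIdeal).re *
    (Ideal.absNorm v.asIdeal : ℝ) ^ (-s)
  set X2 := ∑' v : HeightOneSpectrum (𝓞 K), (ff (χ ^ 2) ψ v.asIdeal).re *
    (Ideal.absNorm v.asIdeal : ℝ) ^ (-s)
  have hX : P ≤ X0 + (X1 + X2) := by
    have h7 : n7 K = ∑' v : HeightOneSpectrum (𝓞 K),
      if Ideal.absNorm v.asIdeal % 7 = 0 then (1:ℝ) else 0 := rfl
    rw [← h7] at hlow
    linarith
  have hprod : c ^ 3 * Real.exp (X0 + (X1 + X2)) ≤ C0 * (C1 * C2) := by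
    rw [Real.exp_add, Real.exp_add]
    have p0 : 0 ≤ c * Real.exp X0 := by positivity
    have p1 : 0 ≤ c * Real.exp X1 := by positivity
    have p2 : 0 ≤ c * Real.exp X2 := by positivity
    calc c ^ 3 * (Real.exp X0 * (Real.exp X1 * Real.exp X2)) =
          (c * Real.exp X0) * ((c * Real.exp X1) * (c * Real.exp X2)) := by ring
      _ ≤ C0 * (C1 * C2) := mul_le_mul E0 (mul_le_mul E1 E2 p2 (p1.trans E1)) (mul_nonneg p1 p2) (p0.trans E0)
  have h4 : Real.exp (X0 + (X1 + X2)) ≤ P := by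
    rw [hP, le_div_iff₀ (by positivity), mul_comm]
    exact hprod
  have h5 := Real.add_one_le_exp (X0 + (X1 + X2))
  linarith

end key

/-! ### the subgroup of norms -/

theorem result (hi : S_idnorm) (hb : S_bdd) (he : S_euler) (hm : S_many) : S_surj := by
  intro K M _ _ _ _ _ θ hS D hD
  have hrel : ∀ C : Ideal (𝓞 M), C ≠ ⊥ → Ideal.relNorm (𝓞 K) C ≠ ⊥ := fun C hC => by
    rw [Ne, Ideal.relNorm_eq_bot_iff]
    exact hC
  -- classes of norms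
  let H : Subgroup (ClassGroup (𝓞 K)) :=
    { carrier := {x | ∃ (C : Ideal (𝓞 M)) (hC : C ≠ ⊥),
        ClassGroup.mk0 ⟨Ideal.relNorm (𝓞 K) C, mem_nonZeroDivisors_of_ne_zero (hrel C hC)⟩ = x}
      one_mem' := by
        refine ⟨⊤, top_ne_bot, ?_⟩
        have e : (⟨Ideal.relNorm (𝓞 K) (⊤ : Ideal (𝓞 M)), mem_nonZeroDivisors_of_ne_zero
            (hrel ⊤ top_ne_bot)⟩ : (Ideal (𝓞 K))⁰) = 1 := by
          ext1
          change Ideal.relNorm (𝓞 K) (⊤ : Ideal (𝓞 M)) = 1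
          rw [Ideal.relNorm_top, Ideal.one_eq_top]
        rw [e, map_one]
      mul_mem' := by
        rintro _ _ ⟨C, hC, rfl⟩ ⟨C', hC', rfl⟩
        refine ⟨C * C', mul_ne_zero hC hC', ?_⟩
        rw [← map_mul]
        congr 1
        ext1
        change Ideal.relNorm (𝓞 K) (C * C') = Ideal.relNorm (𝓞 K) C * Ideal.relNorm (𝓞 K) C'
        rw [map_mul]
      inv_mem' := by
        rintro _ ⟨C, hC, rfl⟩
        set x := ClassGroup.mk0 ⟨Ideal.relNorm (𝓞 K) C, mem_nonZeroDivisors_of_ne_zero (hrel C hC)⟩ with hx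
        have hpos : 0 < orderOf x := orderOf_pos x
        refine ⟨C ^ (orderOf x - 1), pow_ne_zero _ hC, ?_⟩
        have e : (⟨Ideal.relNorm (𝓞 K) (C ^ (orderOf x - 1)), mem_nonZeroDivisors_of_ne_zero
            (hrel _ (pow_ne_zero _ hC))⟩ : (Ideal (𝓞 K))⁰) =
            ⟨Ideal.relNorm (𝓞 K) C, mem_nonZeroDivisors_of_ne_zero (hrel C hC)⟩ ^ (orderOf x - 1) := by
          ext1
          change Ideal.relNorm (𝓞 K) (C ^ (orderOf x - 1)) = (Ideal.relNorm (𝓞 K) C) ^ (orderOf x - 1)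
          rw [map_pow]
        rw [e, map_pow, ← hx]
        rw [eq_inv_iff_mul_eq_one, ← pow_succ, Nat.sub_add_cancel hpos, pow_orderOf_eq_one] }
  have hmem : ∀ x, x ∈ H ↔ ∃ (C : Ideal (𝓞 M)) (hC : C ≠ ⊥),
        ClassGroup.mk0 ⟨Ideal.relNorm (𝓞 K) C, mem_nonZeroDivisors_of_ne_zero (hrel C hC)⟩ = x :=
    fun x => Iff.rfl
  by_cases hd : ClassGroup.mk0 ⟨D, mem_nonZeroDivisors_of_ne_zero hD⟩ ∈ H
  · obtain ⟨C, hC, hCD⟩ := (hmem _).mp hd
    obtain ⟨x, y, hx, hy, hxy⟩ := ClassGroup.mk0_eq_mk0_iff.mp hCD.symm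
    exact ⟨C, x, y, hC, hx, hy, hxy⟩
  exfalso
  -- a character trivial on `H`
  have hq : (QuotientGroup.mk (ClassGroup.mk0 ⟨D, mem_nonZeroDivisors_of_ne_zero hD⟩) :
      ClassGroup (𝓞 K) ⧸ H) ≠ 1 := by
    rw [Ne, QuotientGroup.eq_one_iff]
    exact hd
  obtain ⟨φ, hφ⟩ := CommGroup.exists_apply_ne_one_of_hasEnoughRootsOfUnity (ClassGroup (𝓞 K) ⧸ H) ℂ hq
  set ψ : ClassGroup (𝓞 K) →* ℂ := (Units.coeHom ℂ).comp (φ.comp (QuotientGroup.mk' H)) with hψdef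
  have hψH : ∀ x ∈ H, ψ x = 1 := by
    intro x hx
    have : (QuotientGroup.mk x : ClassGroup (𝓞 K) ⧸ H) = 1 := (QuotientGroup.eq_one_iff x).mpr hx
    rw [hψdef]
    simp only [MonoidHom.comp_apply, QuotientGroup.mk'_apply, this, map_one]
  have hψ1 : ψ ≠ 1 := by
    intro h
    apply hφ
    have h2 := DFunLike.congr_fun h (ClassGroup.mk0 ⟨D, mem_nonZeroDivisors_of_ne_zero hD⟩)
    rw [hψdef] at h2
    simp only [MonoidHom.comp_apply, QuotientGroup.mk'_apply, MonoidHom.one_apply,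
      Units.coeHom_apply] at h2
    exact Units.ext h2
  -- cubes are norms
  have hψ3 : ∀ x, ψ x ^ 3 = 1 := by
    intro x
    obtain ⟨I, rfl⟩ := ClassGroup.mk0_surjective x
    have hI : (I : Ideal (𝓞 K)) ≠ ⊥ := nonZeroDivisors.ne_zero I.2
    rw [← map_pow, ← map_pow]
    apply hψH
    obtain ⟨J, hJ, hJI⟩ := hi K M θ hS ((I : Ideal (𝓞 K)) ^ 3) (pow_ne_zero _ hI) (by
      intro v _
      rw [Associates.mk_pow, Associates.count_pow (Associates.mk_ne_zero.mpr hI) v.associates_irreducible]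
      exact dvd_mul_right 3 _)
    refine (hmem _).mpr ⟨J, hJ, ?_⟩
    congr 1
    ext1
    exact hJI
  refine key hS.two hb he hm ψ hψ3 hψ1 fun v hv => hψH _ ?_
  obtain ⟨J, hJ, hJI⟩ := hi K M θ hS v.asIdeal v.ne_bot (by
    intro w hw
    have hne : w ≠ v := by
      rintro rfl
      apply hw
      rcases hv with h | h
      · exact Or.inr (Or.inl h)
      · exact Or.inr (Or.inr h)
    have h0 : (Associates.mk w.asIdeal).count (Associates.mk v.asIdeal).factors = 0 := by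
      by_contra hc
      have h1 : w.asIdeal ∣ v.asIdeal := (Associates.count_ne_zero_iff_dvd v.ne_bot w.irreducible).mp hc
      rw [Ideal.dvd_iff_le] at h1
      have hmv : v.asIdeal.IsMaximal := v.isPrime.isMaximal v.ne_bot
      exact hne (HeightOneSpectrum.ext (hmv.eq_of_le w.isPrime.ne_top h1).symm)
    rw [h0]
    exact dvd_zero _)
  refine (hmem _).mpr ⟨J, hJ, ?_⟩
  congr 1
  ext1
  exact hJI

end Pool.Agent.TH445.J1425
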