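import Mathlib

set_option autoImplicit false

namespace Pool.Agent.TH445.J774

open scoped BigOperators

/-- A nonnegative quadratic form stays nonnegative on vectors of an inner product space. -/
theorem form_inner {I : Type} [Fintype I] (Q : I → I → ℝ)
    (hQ : ∀ a : I → ℝ, 0 ≤ ∑ x, ∑ y, Q x y * a x * a y)
    {H : Type} [NormedAddCommGroup H] [InnerProductSpace ℝ H] (v : I → H) :
    0 ≤ ∑ x, ∑ y, Q x y * inner ℝ (v x) (v y) := by
  classical
  let S : Submodule ℝ H := Submodule.span ℝ (Set.range v)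
  have : FiniteDimensional ℝ S := FiniteDimensional.span_of_finite ℝ (Set.finite_range v)
  let b := stdOrthonormalBasis ℝ S
  let w : I → S := fun x => ⟨v x, Submodule.subset_span ⟨x, rfl⟩⟩
  have hw : ∀ x y, inner ℝ (v x) (v y) = ∑ i, inner ℝ (w x) (b i) * inner ℝ (b i) (w y) := by
    intro x y
    rw [b.sum_inner_mul_inner (w x) (w y)]
    rfl
  have h : ∑ x, ∑ y, Q x y * inner ℝ (v x) (v y)
      = ∑ i, ∑ x, ∑ y, Q x y * inner ℝ (w x) (b i) * inner ℝ (w y) (b i) := by
    rw [Finset.sum_comm (s := Finset.univ (α := Fin (Module.finrank ℝ S)))]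
    refine Finset.sum_congr rfl fun x _ => ?_
    rw [Finset.sum_comm]
    refine Finset.sum_congr rfl fun y _ => ?_
    rw [hw x y, Finset.mul_sum]
    refine Finset.sum_congr rfl fun i _ => ?_
    rw [real_inner_comm (b i) (w y)]
    ring
  rw [h]
  exact Finset.sum_nonneg fun i _ => hQ fun x => inner ℝ (w x) (b i)

/-- The Schur product of a nonnegative form with a Gram matrix is a nonnegative form. -/
theorem form_mul_inner {I : Type} [Fintype I] (Q : I → I → ℝ)
    (hQ : ∀ a : I → ℝ, 0 ≤ ∑ x, ∑ y, Q x y * a x * a y)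
    {H : Type} [NormedAddCommGroup H] [InnerProductSpace ℝ H] (f : I → H) (k : ℕ)
    (a : I → ℝ) :
    0 ≤ ∑ x, ∑ y, Q x y * (inner ℝ (f x) (f y)) ^ k * a x * a y := by
  induction k generalizing a with
  | zero => simpa using hQ a
  | succ k ih =>
    have h := form_inner (fun x y => Q x y * (inner ℝ (f x) (f y)) ^ k) ih
      (fun x => a x • f x)
    refine h.trans_eq ?_
    refine Finset.sum_congr rfl fun x _ => Finset.sum_congr rfl fun y _ => ?_
    rw [real_inner_smul_left, real_inner_smul_right]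
    ring

/-- A nonnegative quadratic form stays nonnegative on the Gaussian kernel of a map to a real
inner product space. -/
theorem gaussian_form {I : Type} [Fintype I] (Q : I → I → ℝ)
    (hQ : ∀ a : I → ℝ, 0 ≤ ∑ x, ∑ y, Q x y * a x * a y)
    {H : Type} [NormedAddCommGroup H] [InnerProductSpace ℝ H] (f : I → H) (t : ℝ) (ht : 0 ≤ t) :
    0 ≤ ∑ x, ∑ y, Q x y * Real.exp (-t * ‖f x - f y‖ ^ 2) := by
  have hexp : ∀ r : ℝ, HasSum (fun k : ℕ => r ^ k / (k.factorial : ℝ)) (Real.exp r) := by
    intro r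
    rw [Real.exp_eq_exp_ℝ]
    exact NormedSpace.expSeries_div_hasSum_exp r
  have h1 : ∀ a : I → ℝ, 0 ≤ ∑ x, ∑ y, Q x y * Real.exp (2 * t * inner ℝ (f x) (f y)) * a x * a y := by
    intro a
    have hs : HasSum (fun k : ℕ => ∑ x, ∑ y,
        Q x y * ((2 * t * inner ℝ (f x) (f y)) ^ k / (k.factorial : ℝ)) * a x * a y)
        (∑ x, ∑ y, Q x y * Real.exp (2 * t * inner ℝ (f x) (f y)) * a x * a y) := by
      refine hasSum_sum fun x _ => hasSum_sum fun y _ => ?_
      exact (((hexp _).mul_left _).mul_right _).mul_right _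
    refine hs.nonneg fun k => ?_
    have h2 := form_mul_inner Q hQ f k a
    have h3 : ∑ x, ∑ y, Q x y * ((2 * t * inner ℝ (f x) (f y)) ^ k / (k.factorial : ℝ)) * a x * a y
        = ((2 * t) ^ k / (k.factorial : ℝ)) *
          ∑ x, ∑ y, Q x y * (inner ℝ (f x) (f y)) ^ k * a x * a y := by
      rw [Finset.mul_sum]
      refine Finset.sum_congr rfl fun x _ => ?_
      rw [Finset.mul_sum]
      refine Finset.sum_congr rfl fun y _ => ?_
      rw [mul_pow]
      ring
    rw [h3]
    positivity
  refine (h1 fun x => Real.exp (-t * ‖f x‖ ^ 2)).trans_eq ?_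
  refine Finset.sum_congr rfl fun x _ => Finset.sum_congr rfl fun y _ => ?_
  rw [mul_assoc, mul_assoc, ← Real.exp_add, ← Real.exp_add]
  congr 2
  rw [norm_sub_sq_real]
  ring

end Pool.Agent.TH445.J774
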