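import Pool.Agent.TH806.N4.Defs3

set_option autoImplicit false

/-!
# N4-FM1: the first moment of `conj ζ²` times the square of a Dirichlet polynomial (job 1376)
-/

namespace Pool.Agent.TH445.N4_FM1

open Finset Filter Topology MeasureTheory Complex
open Pool.Agent.W184.NZ (mh)
open Pool.Agent.TH806
open Pool.Agent.TH806.N4
open Pool.Agent.H306R2.SM (om cl)
open Pool.Agent.H262R4.TM (Rng)

noncomputable section

lemma mh_one (t : ℝ) (h : ℕ) : mh t (h, 1) = (h : ℂ) ^ (-(cl t)) := by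
  unfold mh cl
  simp

lemma mh_cont' {h : ℕ} (hh : 1 ≤ h) : Continuous fun t : ℝ => mh t (h, 1) := by
  simp_rw [mh_one]
  refine Continuous.const_cpow ?_ (Or.inl (by exact_mod_cast (by omega : h ≠ 0)))
  unfold cl
  fun_prop

lemma mh_norm' {h : ℕ} (hh : 1 ≤ h) (t : ℝ) : ‖mh t (h, 1)‖ ≤ 1 := by
  rw [mh_one]
  have hpos : (0:ℝ) < h := by exact_mod_cast hh
  rw [show (h : ℂ) = ((h : ℝ) : ℂ) by simp, Complex.norm_cpow_eq_rpow_re_of_pos hpos]
  apply Real.rpow_le_one_of_one_le_of_nonpos (by exact_mod_cast hh)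
  unfold cl
  simp

lemma DP_mh (f : ℕ → ℂ) (M : ℕ) (t : ℝ) : DP f M t = ∑ m ∈ Icc 1 M, f m * mh t (m, 1) := by
  unfold DP
  exact sum_congr rfl fun m _ => by rw [mh_one]

lemma Z_int (κ : ℕ) {T : ℝ} (hδ : 0 < (κ:ℝ) / T) {h : ℕ} (hh : 1 ≤ h) :
    IntegrableOn (fun t => ((om κ (κ / T) t : ℝ) : ℂ) *
      ((starRingEnd ℂ) (riemannZeta (cl t)) ^ 2 * mh t (h, 1))) (Set.Ioi 0) := by
  have h1 := (Pool.Agent.H262R4.TM.TTW.int2 κ hδ)
  refine Integrable.mono' h1 ?_ ?_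
  · exact (((Complex.continuous_ofReal.comp (Pool.Agent.H262R4.TM.TTW.om_cont κ _))).mul
      (((Complex.continuous_conj.comp Pool.Agent.H262R4.TM.TTW.zeta_cont).pow 2).mul
        (mh_cont' hh))).aestronglyMeasurable
  · refine (ae_restrict_iff' measurableSet_Ioi).mpr (Eventually.of_forall fun t ht => ?_)
    have ht0 : 0 < t := ht
    rw [norm_mul, norm_mul, norm_pow, Complex.norm_conj, Complex.norm_real, Real.norm_eq_abs,
      abs_of_nonneg (om_nn κ hδ ht0.le)]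
    have hw : 0 ≤ om κ (κ / T) t * ‖riemannZeta (cl t)‖ ^ 2 := mul_nonneg (om_nn κ hδ ht0.le) (sq_nonneg _)
    have := mul_le_mul_of_nonneg_left (mh_norm' hh t) hw
    linarith

lemma DP_sq (f : ℕ → ℂ) (M : ℕ) (t : ℝ) :
    DP f M t ^ 2 = ∑ m ∈ Icc 1 M, ∑ n ∈ Icc 1 M, f m * f n * mh t (m * n, 1) := by
  rw [DP_mh, pow_two, sum_mul_sum]
  refine sum_congr rfl fun m _ => sum_congr rfl fun n _ => ?_
  have h : mh t (m * n, 1) = mh t (m, 1) * mh t (n, 1) := by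
    rw [← map_mul]
    simp
  rw [h]
  ring

theorem t_FM1 (h : P_FM) : P_FM1 := by
  intro θ hθ0 hθ1
  refine ⟨1, one_pos, ?_⟩
  filter_upwards [h (2 * θ) (by linarith), eventually_ge_atTop (3:ℝ)] with T hT hT3 κ hκ f M hf hM
  have hT0 : 0 < T := by linarith
  have hT1 : 1 ≤ T := by linarith
  have hlog : 1 ≤ Real.log T := by
    rw [Real.le_log_iff_exp_le hT0]
    exact (Real.exp_one_lt_d9.le.trans (by norm_num)).trans hT3
  have hκ0 : 0 < (κ:ℝ) / T := by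
    have h1 : (0:ℝ) < κ := lt_of_lt_of_le (by positivity) hκ.1
    positivity
  -- the pieces
  set Z : ℕ → ℂ := fun n => ∫ t in Set.Ioi (0:ℝ), ((om κ (κ / T) t : ℝ) : ℂ) *
    ((starRingEnd ℂ) (riemannZeta (cl t)) ^ 2 * mh t (n, 1)) with hZ
  have hbd : ∀ m ∈ Icc 1 M, ∀ n ∈ Icc 1 M,
      |(Z (m * n)).re - ((m * n).divisors.card : ℝ) / ((m:ℝ) * n)| ≤ T ^ (-1 : ℝ) := by
    intro m hm n hn
    rw [Finset.mem_Icc] at hm hn
    have h1 : 1 ≤ m * n := Nat.mul_pos (by omega) (by omega)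
    have h2 : ((m * n : ℕ) : ℝ) ≤ T ^ (2 * θ) := by
      have hm' : (m:ℝ) ≤ T ^ θ := le_trans (by exact_mod_cast hm.2) hM
      have hn' : (n:ℝ) ≤ T ^ θ := le_trans (by exact_mod_cast hn.2) hM
      have e : T ^ (2 * θ) = T ^ θ * T ^ θ := by rw [← Real.rpow_add hT0]; ring_nf
      rw [e]
      push_cast
      exact mul_le_mul hm' hn' (by positivity) (by positivity)
    have h3 := hT κ hκ (m * n) 1 h1 le_rfl h2 (by simpa using hT1)
    have h4 := (Complex.abs_re_le_norm _).trans h3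
    rw [Complex.sub_re, if_pos (one_dvd _), Nat.div_one] at h4
    have e2 : ((((m * n).divisors.card : ℝ) / ((m * n : ℕ) : ℝ) : ℂ)).re =
        ((m * n).divisors.card : ℝ) / ((m:ℝ) * n) := by
      have : ((((m * n).divisors.card : ℝ) / ((m * n : ℕ) : ℝ) : ℂ)) =
          ((((m * n).divisors.card : ℝ) / ((m:ℝ) * n) : ℝ) : ℂ) := by
        push_cast
        rfl
      rw [this, Complex.ofReal_re]
    rw [e2] at h4
    exact h4
  -- the integral
  have hI : (∫ t in Set.Ioi (0:ℝ), om κ (κ / T) t * ((starRingEnd ℂ) (riemannZeta (cl t)) ^ 2 *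
        DP (fun n => ((f n : ℝ) : ℂ)) M t ^ 2).re) =
      ∑ m ∈ Icc 1 M, ∑ n ∈ Icc 1 M, f m * f n * (Z (m * n)).re := by
    have hint : ∀ m ∈ Icc 1 M, ∀ n ∈ Icc 1 M, IntegrableOn (fun t => ((f m * f n : ℝ) : ℂ) *
        (((om κ (κ / T) t : ℝ) : ℂ) * ((starRingEnd ℂ) (riemannZeta (cl t)) ^ 2 * mh t (m * n, 1))))
        (Set.Ioi 0) := by
      intro m hm n hn
      rw [Finset.mem_Icc] at hm hn
      exact (Z_int κ hκ0 (Nat.mul_pos (by omega) (by omega))).const_mul _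
    have e1 : ∀ t : ℝ, om κ (κ / T) t * ((starRingEnd ℂ) (riemannZeta (cl t)) ^ 2 *
        DP (fun n => ((f n : ℝ) : ℂ)) M t ^ 2).re =
        (∑ m ∈ Icc 1 M, ∑ n ∈ Icc 1 M, ((f m * f n : ℝ) : ℂ) *
        (((om κ (κ / T) t : ℝ) : ℂ) *
          ((starRingEnd ℂ) (riemannZeta (cl t)) ^ 2 * mh t (m * n, 1)))).re := by
      intro t
      rw [← Complex.re_ofReal_mul, DP_sq]
      congr 1
      rw [mul_sum, mul_sum]
      refine sum_congr rfl fun m _ => ?_
      rw [mul_sum, mul_sum]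
      refine sum_congr rfl fun n _ => ?_
      push_cast
      ring
    simp_rw [e1]
    have hint2 : IntegrableOn (fun t => ∑ m ∈ Icc 1 M, ∑ n ∈ Icc 1 M, ((f m * f n : ℝ) : ℂ) *
        (((om κ (κ / T) t : ℝ) : ℂ) *
          ((starRingEnd ℂ) (riemannZeta (cl t)) ^ 2 * mh t (m * n, 1)))) (Set.Ioi 0) :=
      integrable_finsetSum _ fun m hm => integrable_finsetSum _ fun n hn => hint m hm n hn
    have e3 := integral_re hint2
    have e4 : (∫ t in Set.Ioi (0:ℝ), (∑ m ∈ Icc 1 M, ∑ n ∈ Icc 1 M, ((f m * f n : ℝ) : ℂ) *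
        (((om κ (κ / T) t : ℝ) : ℂ) *
          ((starRingEnd ℂ) (riemannZeta (cl t)) ^ 2 * mh t (m * n, 1)))).re) =
        (∫ t in Set.Ioi (0:ℝ), ∑ m ∈ Icc 1 M, ∑ n ∈ Icc 1 M, ((f m * f n : ℝ) : ℂ) *
        (((om κ (κ / T) t : ℝ) : ℂ) *
          ((starRingEnd ℂ) (riemannZeta (cl t)) ^ 2 * mh t (m * n, 1)))).re := e3
    rw [e4, integral_finsetSum _ fun m hm => integrable_finsetSum _ fun n hn => hint m hm n hn,
      Complex.re_sum]
    refine sum_congr rfl fun m hm => ?_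
    rw [integral_finsetSum _ fun n hn => hint m hm n hn, Complex.re_sum]
    refine sum_congr rfl fun n hn => ?_
    rw [integral_const_mul, Complex.re_ofReal_mul]
  rw [hI, ← sum_sub_distrib]
  have hs : |∑ m ∈ Icc 1 M, ((∑ n ∈ Icc 1 M, f m * f n * (Z (m * n)).re) -
      ∑ n ∈ Icc 1 M, f m * f n * (((m * n).divisors.card : ℝ) / ((m:ℝ) * n)))| ≤
      (M:ℝ) * (M * T ^ (-1 : ℝ)) := by
    refine (abs_sum_le_sum_abs _ _).trans ?_
    have hin : ∀ m ∈ Icc 1 M, |((∑ n ∈ Icc 1 M, f m * f n * (Z (m * n)).re) -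
      ∑ n ∈ Icc 1 M, f m * f n * (((m * n).divisors.card : ℝ) / ((m:ℝ) * n)))| ≤ M * T ^ (-1 : ℝ) := by
      intro m hm
      rw [← sum_sub_distrib]
      refine (abs_sum_le_sum_abs _ _).trans ?_
      have hin2 : ∀ n ∈ Icc 1 M, |f m * f n * (Z (m * n)).re -
          f m * f n * (((m * n).divisors.card : ℝ) / ((m:ℝ) * n))| ≤ T ^ (-1 : ℝ) := by
        intro n hn
        rw [← mul_sub, abs_mul, abs_mul]
        have h1 := hbd m hm n hn
        have h2 : |f m| * |f n| ≤ 1 := mul_le_one₀ (hf m) (abs_nonneg _) (hf n)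
        calc |f m| * |f n| * |(Z (m * n)).re - ((m * n).divisors.card : ℝ) / ((m:ℝ) * n)|
            ≤ 1 * T ^ (-1 : ℝ) := mul_le_mul h2 h1 (abs_nonneg _) zero_le_one
          _ = _ := one_mul _
      refine (sum_le_sum hin2).trans ?_
      rw [sum_const, Nat.card_Icc, nsmul_eq_mul]
      simp
    refine (sum_le_sum hin).trans ?_
    rw [sum_const, Nat.card_Icc, nsmul_eq_mul]
    simp
  refine hs.trans ?_
  have hM0 : (0:ℝ) ≤ M := Nat.cast_nonneg M
  have h1 : (M:ℝ) * M ≤ T ^ θ * T ^ θ := mul_le_mul hM hM hM0 (by positivity)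
  have h2 : T ^ θ * T ^ θ ≤ T := by
    rw [← Real.rpow_add hT0]
    calc T ^ (θ + θ) ≤ T ^ (1:ℝ) := Real.rpow_le_rpow_of_exponent_le hT1 (by linarith)
      _ = T := Real.rpow_one T
  rw [Real.rpow_neg_one, ← mul_assoc]
  calc (M:ℝ) * M * T⁻¹ ≤ T * T⁻¹ := by
        apply mul_le_mul_of_nonneg_right (h1.trans h2) (by positivity)
    _ = 1 := mul_inv_cancel₀ hT0.ne'

end

end Pool.Agent.TH445.N4_FM1
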