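import Pool.Agent.TH806.N4.Defs

set_option autoImplicit false

/-!
Lower bound of order `log^4` for the fourth moment of zeta in Gamma windows.
-/

namespace Pool.Agent.TH445.N4_X4L

section elementary

open Finset

/-- harmonic sum -/
noncomputable def Hh (M : ℕ) : ℝ := ∑ n ∈ Icc 1 M, (n : ℝ)⁻¹

lemma Hh_eq (M : ℕ) : Hh M = (harmonic M : ℝ) := by
  rw [Hh, harmonic_eq_sum_Icc]
  push_cast
  rfl

lemma Hh_ge (M : ℕ) : Real.log ((M : ℝ) + 1) ≤ Hh M := by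
  rw [Hh_eq]
  have := log_add_one_le_harmonic M
  push_cast at this
  exact this

lemma Hh_le (M : ℕ) : Hh M ≤ 1 + Real.log M := by
  rw [Hh_eq]
  exact harmonic_le_one_add_log M

lemma Hh_nonneg (M : ℕ) : 0 ≤ Hh M := sum_nonneg fun n _ => by positivity

lemma sq_sum (M : ℕ) : ∑ k ∈ Icc 1 M, ((k : ℝ)⁻¹) ^ 2 ≤ 2 := by
  have h : ∀ M : ℕ, ∑ k ∈ Icc 1 (M + 1), ((k : ℝ)⁻¹) ^ 2 ≤ 2 - 1 / ((M : ℝ) + 1) := by
    intro M
    induction M with
    | zero => norm_num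
    | succ M ih =>
      rw [Finset.sum_Icc_succ_top (by omega)]
      have h1 : (((M + 1 + 1 : ℕ) : ℝ)⁻¹) ^ 2 ≤ 1 / ((M : ℝ) + 1) - 1 / (((M + 1 : ℕ) : ℝ) + 1) := by
        push_cast
        rw [div_sub_div _ _ (by positivity) (by positivity), inv_pow, inv_eq_one_div,
          div_le_div_iff₀ (by positivity) (by positivity)]
        nlinarith [sq_nonneg ((M : ℝ) + 1), (Nat.cast_nonneg M : (0 : ℝ) ≤ M)]
      linarith
  rcases Nat.eq_zero_or_pos M with h0 | h0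
  · rw [h0]; simp
  · obtain ⟨m, rfl⟩ := Nat.exists_eq_succ_of_ne_zero h0.ne'
    have h2 := h m
    have : 0 ≤ 1 / ((m : ℝ) + 1) := by positivity
    rw [Nat.succ_eq_add_one]
    linarith

lemma mult_sum_le (d M : ℕ) (hd : 1 ≤ d) :
    ∑ n ∈ Icc 1 M, (if d ∣ n then ((n : ℝ)⁻¹) ^ 2 else 0) ≤ 2 * ((d : ℝ)⁻¹) ^ 2 := by
  rw [← sum_filter]
  have h1 : (Icc 1 M).filter (fun n => d ∣ n) ⊆ (Icc 1 M).image (fun k => d * k) := by
    intro n hn
    rw [mem_filter, mem_Icc] at hn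
    obtain ⟨⟨h1, h2⟩, k, rfl⟩ := hn
    rw [mem_image]
    refine ⟨k, mem_Icc.2 ⟨?_, ?_⟩, rfl⟩
    · rcases Nat.eq_zero_or_pos k with h | h
      · rw [h] at h1; simp at h1
      · exact h
    · exact le_trans (Nat.le_mul_of_pos_left k hd) h2
  calc ∑ n ∈ (Icc 1 M).filter (fun n => d ∣ n), ((n : ℝ)⁻¹) ^ 2
      ≤ ∑ n ∈ (Icc 1 M).image (fun k => d * k), ((n : ℝ)⁻¹) ^ 2 :=
        sum_le_sum_of_subset_of_nonneg h1 fun n _ _ => by positivity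
    _ = ∑ k ∈ Icc 1 M, (((d * k : ℕ) : ℝ)⁻¹) ^ 2 :=
        sum_image fun a _ b _ h => Nat.eq_of_mul_eq_mul_left hd h
    _ = ((d : ℝ)⁻¹) ^ 2 * ∑ k ∈ Icc 1 M, ((k : ℝ)⁻¹) ^ 2 := by
        rw [mul_sum]
        refine sum_congr rfl fun k _ => ?_
        push_cast
        rw [mul_inv, mul_pow]
    _ ≤ ((d : ℝ)⁻¹) ^ 2 * 2 := mul_le_mul_of_nonneg_left (sq_sum M) (by positivity)
    _ = _ := by ring

lemma tot_lower (M : ℕ) :
    Hh M ≤ 2 * ∑ d ∈ Icc 1 M, (Nat.totient d : ℝ) * ((d : ℝ)⁻¹) ^ 2 := by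
  have h1 : ∀ n ∈ Icc 1 M, (n : ℝ)⁻¹ =
      ∑ d ∈ Icc 1 M, (if d ∣ n then (Nat.totient d : ℝ) * ((n : ℝ)⁻¹) ^ 2 else 0) := by
    intro n hn
    rw [mem_Icc] at hn
    have h2 : (Icc 1 M).filter (fun d => d ∣ n) = n.divisors := by
      ext d
      rw [mem_filter, mem_Icc, Nat.mem_divisors]
      constructor
      · rintro ⟨_, h⟩
        exact ⟨h, by omega⟩
      · rintro ⟨h, h0⟩
        exact ⟨⟨Nat.pos_of_dvd_of_pos h (by omega), (Nat.le_of_dvd (by omega) h).trans hn.2⟩, h⟩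
    rw [← sum_filter, h2, ← sum_mul]
    have h3 : (∑ d ∈ n.divisors, (Nat.totient d : ℝ)) = n := by
      exact_mod_cast Nat.sum_totient n
    rw [h3]
    have hn0 : (n : ℝ) ≠ 0 := by
      have : n ≠ 0 := by omega
      exact_mod_cast this
    field_simp
  rw [Hh, sum_congr rfl h1, sum_comm, mul_sum]
  refine sum_le_sum fun d hd => ?_
  rw [mem_Icc] at hd
  have h4 : ∑ n ∈ Icc 1 M, (if d ∣ n then (Nat.totient d : ℝ) * ((n : ℝ)⁻¹) ^ 2 else 0) =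
      (Nat.totient d : ℝ) * ∑ n ∈ Icc 1 M, (if d ∣ n then ((n : ℝ)⁻¹) ^ 2 else 0) := by
    rw [mul_sum]
    refine sum_congr rfl fun n _ => ?_
    split_ifs <;> ring
  rw [h4]
  have := mul_le_mul_of_nonneg_left (mult_sum_le d M hd.1) (Nat.cast_nonneg (α := ℝ) (Nat.totient d))
  linarith

lemma inner_lower (d M : ℕ) (hd : d ∈ Icc 1 M) :
    (d : ℝ)⁻¹ * Hh M ≤ ∑ a ∈ Icc 1 (M * M), (if d ∣ a then (a : ℝ)⁻¹ else 0) := by
  rw [mem_Icc] at hd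
  rw [← sum_filter]
  have h1 : (Icc 1 M).image (fun k => d * k) ⊆ (Icc 1 (M * M)).filter (fun n => d ∣ n) := by
    intro n hn
    rw [mem_image] at hn
    obtain ⟨k, hk, rfl⟩ := hn
    rw [mem_Icc] at hk
    rw [mem_filter, mem_Icc]
    exact ⟨⟨Nat.mul_pos hd.1 hk.1, Nat.mul_le_mul hd.2 hk.2⟩, Dvd.intro k rfl⟩
  calc (d : ℝ)⁻¹ * Hh M = ∑ k ∈ Icc 1 M, ((d * k : ℕ) : ℝ)⁻¹ := by
        rw [Hh, mul_sum]
        refine sum_congr rfl fun k _ => ?_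
        push_cast
        rw [mul_inv]
    _ = ∑ n ∈ (Icc 1 M).image (fun k => d * k), (n : ℝ)⁻¹ :=
        (sum_image (f := fun n : ℕ => (n : ℝ)⁻¹) (g := fun k => d * k)
          fun a _ b _ h => Nat.eq_of_mul_eq_mul_left hd.1 h).symm
    _ ≤ _ := sum_le_sum_of_subset_of_nonneg h1 fun n _ _ => by positivity

lemma gcd_lower {a c : ℕ} (ha : 1 ≤ a) (M : ℕ) :
    ∑ d ∈ Icc 1 M, (if d ∣ a ∧ d ∣ c then (Nat.totient d : ℝ) else 0) ≤ (Nat.gcd a c : ℝ) := by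
  have h1 : (∑ d ∈ (Nat.gcd a c).divisors, (Nat.totient d : ℝ)) = (Nat.gcd a c : ℝ) := by
    exact_mod_cast Nat.sum_totient (Nat.gcd a c)
  rw [← h1, ← sum_filter]
  refine sum_le_sum_of_subset_of_nonneg ?_ fun d _ _ => Nat.cast_nonneg _
  intro d hd
  rw [mem_filter] at hd
  rw [Nat.mem_divisors]
  exact ⟨Nat.dvd_gcd hd.2.1 hd.2.2, (Nat.gcd_pos_of_pos_left c ha).ne'⟩

lemma S_lower (M : ℕ) :
    1 / 2 * Hh M ^ 3 ≤ ∑ a ∈ Icc 1 (M * M), ∑ c ∈ Icc 1 (M * M),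
      (Nat.gcd a c : ℝ) / ((a : ℝ) * c) := by
  have h1 : ∑ d ∈ Icc 1 M, (Nat.totient d : ℝ) *
      (∑ a ∈ Icc 1 (M * M), (if d ∣ a then (a : ℝ)⁻¹ else 0)) ^ 2 ≤
      ∑ a ∈ Icc 1 (M * M), ∑ c ∈ Icc 1 (M * M), (Nat.gcd a c : ℝ) / ((a : ℝ) * c) := by
    have e1 : ∀ d ∈ Icc 1 M, (Nat.totient d : ℝ) *
      (∑ a ∈ Icc 1 (M * M), (if d ∣ a then (a : ℝ)⁻¹ else 0)) ^ 2 =
        ∑ a ∈ Icc 1 (M * M), ∑ c ∈ Icc 1 (M * M),
          (if d ∣ a ∧ d ∣ c then (Nat.totient d : ℝ) else 0) * ((a : ℝ)⁻¹ * (c : ℝ)⁻¹) := by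
      intro d _
      rw [sq, sum_mul_sum, mul_sum]
      refine sum_congr rfl fun a _ => ?_
      rw [mul_sum]
      refine sum_congr rfl fun c _ => ?_
      by_cases h1 : d ∣ a <;> by_cases h2 : d ∣ c <;> simp [h1, h2]
    rw [sum_congr rfl e1, sum_comm]
    refine sum_le_sum fun a ha => ?_
    rw [sum_comm]
    refine sum_le_sum fun c _ => ?_
    rw [mem_Icc] at ha
    rw [← sum_mul, div_eq_mul_inv, mul_inv]
    exact mul_le_mul_of_nonneg_right (gcd_lower ha.1 M) (by positivity)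
  refine le_trans ?_ h1
  have h2 : ∑ d ∈ Icc 1 M, (Nat.totient d : ℝ) * ((d : ℝ)⁻¹ * Hh M) ^ 2 ≤
      ∑ d ∈ Icc 1 M, (Nat.totient d : ℝ) *
      (∑ a ∈ Icc 1 (M * M), (if d ∣ a then (a : ℝ)⁻¹ else 0)) ^ 2 := by
    refine sum_le_sum fun d hd => ?_
    refine mul_le_mul_of_nonneg_left ?_ (Nat.cast_nonneg _)
    exact pow_le_pow_left₀ (mul_nonneg (by positivity) (Hh_nonneg M)) (inner_lower d M hd) 2
  refine le_trans ?_ h2
  have h3 : ∑ d ∈ Icc 1 M, (Nat.totient d : ℝ) * ((d : ℝ)⁻¹ * Hh M) ^ 2 =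
      Hh M ^ 2 * ∑ d ∈ Icc 1 M, (Nat.totient d : ℝ) * ((d : ℝ)⁻¹) ^ 2 := by
    rw [mul_sum]
    exact sum_congr rfl fun d _ => by ring
  rw [h3]
  have h4 := mul_le_mul_of_nonneg_left (tot_lower M) (sq_nonneg (Hh M))
  nlinarith

/-- the parametrization of the solutions of `a b = c d` -/
def Ph (x : (ℕ × ℕ) × (ℕ × ℕ)) : (ℕ × ℕ) × (ℕ × ℕ) :=
  ((Nat.gcd x.1.1 x.1.2, x.1.1 / Nat.gcd x.1.1 x.1.2),
    (x.1.2 / Nat.gcd x.1.1 x.1.2, x.2.1 / (x.1.2 / Nat.gcd x.1.1 x.1.2)))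

lemma Ph_spec {a c b d : ℕ} (ha : 1 ≤ a) (hc : 1 ≤ c) (hb : 1 ≤ b)
    (h : a * b = c * d) :
    ∃ r s t u : ℕ, Ph ((a, c), (b, d)) = ((r, s), (t, u)) ∧ a = r * s ∧ c = r * t ∧ b = t * u ∧
      d = s * u ∧ 1 ≤ r ∧ 1 ≤ s ∧ 1 ≤ t ∧ 1 ≤ u := by
  have hr : 0 < Nat.gcd a c := Nat.gcd_pos_of_pos_left c ha
  obtain ⟨s, hs⟩ := Nat.gcd_dvd_left a c
  obtain ⟨t, ht⟩ := Nat.gcd_dvd_right a c
  set r := Nat.gcd a c with hrdef
  have hs1 : a / r = s := by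
    have := Nat.mul_div_cancel_left s hr
    rwa [← hs] at this
  have ht1 : c / r = t := by
    have := Nat.mul_div_cancel_left t hr
    rwa [← ht] at this
  have hcop : Nat.Coprime s t := by
    have := Nat.coprime_div_gcd_div_gcd hr
    rwa [← hrdef, hs1, ht1] at this
  have ht0 : 0 < t := by
    rcases Nat.eq_zero_or_pos t with h0 | h0
    · rw [h0, mul_zero] at ht; omega
    · exact h0
  have hs0 : 0 < s := by
    rcases Nat.eq_zero_or_pos s with h0 | h0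
    · rw [h0, mul_zero] at hs; omega
    · exact h0
  have h1 : s * b = t * d := by
    have : r * (s * b) = r * (t * d) := by
      calc r * (s * b) = (r * s) * b := by ring
        _ = a * b := by rw [← hs]
        _ = c * d := h
        _ = (r * t) * d := by rw [← ht]
        _ = r * (t * d) := by ring
    exact Nat.eq_of_mul_eq_mul_left hr this
  have h2 : t ∣ b := hcop.symm.dvd_of_dvd_mul_left (Dvd.intro d h1.symm)
  obtain ⟨u, hu⟩ := h2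
  have hu1 : b / t = u := by rw [hu]; exact Nat.mul_div_cancel_left u ht0
  have hu0 : 0 < u := by
    rcases Nat.eq_zero_or_pos u with h0 | h0
    · rw [h0, mul_zero] at hu; omega
    · exact h0
  refine ⟨r, s, t, u, ?_, hs, ht, hu, ?_, hr, hs0, ht0, hu0⟩
  · simp only [Ph]
    rw [← hrdef, hs1, ht1, hu1]
  · have : t * d = t * (s * u) := by rw [← h1, hu]; ring
    exact Nat.eq_of_mul_eq_mul_left ht0 this

lemma quad_upper (N : ℕ) :
    ∑ x ∈ (Icc 1 N ×ˢ Icc 1 N) ×ˢ (Icc 1 N ×ˢ Icc 1 N),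
      (if x.1.1 * x.2.1 = x.1.2 * x.2.2 then 1 / ((x.1.1 * x.2.1 : ℕ) : ℝ) else 0) ≤ Hh N ^ 4 := by
  classical
  set D := (Icc 1 N ×ˢ Icc 1 N) ×ˢ (Icc 1 N ×ˢ Icc 1 N) with hD
  have hmem : ∀ x ∈ D.filter (fun x => x.1.1 * x.2.1 = x.1.2 * x.2.2),
      ∃ r s t u : ℕ, Ph x = ((r, s), (t, u)) ∧ x.1.1 = r * s ∧ x.1.2 = r * t ∧ x.2.1 = t * u ∧
      x.2.2 = s * u ∧ 1 ≤ r ∧ 1 ≤ s ∧ 1 ≤ t ∧ 1 ≤ u := by
    rintro ⟨⟨a, c⟩, ⟨b, d⟩⟩ hx
    rw [mem_filter, hD] at hx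
    simp only [mem_product, mem_Icc] at hx
    exact Ph_spec hx.1.1.1.1 hx.1.1.2.1 hx.1.2.1.1 hx.2
  rw [← sum_filter]
  calc ∑ x ∈ D.filter (fun x => x.1.1 * x.2.1 = x.1.2 * x.2.2), 1 / ((x.1.1 * x.2.1 : ℕ) : ℝ)
      = ∑ x ∈ D.filter (fun x => x.1.1 * x.2.1 = x.1.2 * x.2.2),
          (fun y : (ℕ × ℕ) × (ℕ × ℕ) => ((y.1.1 : ℝ)⁻¹ * (y.1.2 : ℝ)⁻¹) *
            ((y.2.1 : ℝ)⁻¹ * (y.2.2 : ℝ)⁻¹)) (Ph x) := by
        refine sum_congr rfl fun x hx => ?_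
        obtain ⟨r, s, t, u, h1, h2, h3, h4, h5, h6, h7, h8, h9⟩ := hmem x hx
        rw [h1, h2, h4]
        simp only [Nat.cast_mul, one_div, mul_inv]
    _ = ∑ y ∈ (D.filter (fun x => x.1.1 * x.2.1 = x.1.2 * x.2.2)).image Ph,
          ((y.1.1 : ℝ)⁻¹ * (y.1.2 : ℝ)⁻¹) * ((y.2.1 : ℝ)⁻¹ * (y.2.2 : ℝ)⁻¹) := by
        refine (sum_image (f := fun y : (ℕ × ℕ) × (ℕ × ℕ) => ((y.1.1 : ℝ)⁻¹ * (y.1.2 : ℝ)⁻¹) *
            ((y.2.1 : ℝ)⁻¹ * (y.2.2 : ℝ)⁻¹)) ?_).symm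
        intro x hx x' hx' hxx
        obtain ⟨r, s, t, u, h1, h2, h3, h4, h5, _⟩ := hmem x hx
        obtain ⟨r', s', t', u', h1', h2', h3', h4', h5', _⟩ := hmem x' hx'
        rw [h1, h1'] at hxx
        simp only [Prod.mk.injEq] at hxx
        obtain ⟨⟨e1, e2⟩, e3, e4⟩ := hxx
        refine Prod.ext (Prod.ext ?_ ?_) (Prod.ext ?_ ?_)
        · rw [h2, h2', e1, e2]
        · rw [h3, h3', e1, e3]
        · rw [h4, h4', e3, e4]
        · rw [h5, h5', e2, e4]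
    _ ≤ ∑ y ∈ D, ((y.1.1 : ℝ)⁻¹ * (y.1.2 : ℝ)⁻¹) * ((y.2.1 : ℝ)⁻¹ * (y.2.2 : ℝ)⁻¹) := by
        refine sum_le_sum_of_subset_of_nonneg ?_ fun y _ _ => by positivity
        intro y hy
        rw [mem_image] at hy
        obtain ⟨x, hx, rfl⟩ := hy
        obtain ⟨r, s, t, u, h1, h2, h3, h4, h5, h6, h7, h8, h9⟩ := hmem x hx
        rw [mem_filter, hD] at hx
        simp only [mem_product, mem_Icc] at hx
        rw [h1, hD]
        simp only [mem_product, mem_Icc]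
        have k1 : x.1.1 ≤ N := hx.1.1.1.2
        have k2 : x.1.2 ≤ N := hx.1.1.2.2
        have k3 : x.2.1 ≤ N := hx.1.2.1.2
        rw [h2] at k1
        rw [h3] at k2
        rw [h4] at k3
        refine ⟨⟨⟨h6, ?_⟩, ⟨h7, ?_⟩⟩, ⟨⟨h8, ?_⟩, ⟨h9, ?_⟩⟩⟩
        · exact (Nat.le_mul_of_pos_right r h7).trans k1
        · exact (Nat.le_mul_of_pos_left s h6).trans k1
        · exact (Nat.le_mul_of_pos_left t h6).trans k2
        · exact (Nat.le_mul_of_pos_left u h8).trans k3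
    _ = Hh N ^ 4 := by
        rw [hD, sum_product]
        simp only [← mul_sum]
        rw [← sum_mul]
        have e : ∑ x ∈ Icc 1 N ×ˢ Icc 1 N, ((x.1 : ℝ)⁻¹ * (x.2 : ℝ)⁻¹) = Hh N ^ 2 := by
          rw [sum_product]
          simp only [← mul_sum]
          rw [← sum_mul, Hh, sq]
        rw [e]
        ring

end elementary

open Finset Filter Topology MeasureTheory Complex MonoidAlgebra
open Pool.Agent.W184.NZ Pool.Agent.TH806 Pool.Agent.TH806.N4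
open Pool.Agent.H306R2.SM (om cl Yf)
open Pool.Agent.H262R4.TM (Rng Ck)

/-- the square of the Dirichlet polynomial with coefficients one -/
noncomputable def gN (N : ℕ) : DA := ∑ x ∈ Icc 1 N ×ˢ Icc 1 N, single x (1:ℝ)

lemma gN_Bd (N : ℕ) : Bd (N:ℝ) (gN N) := by
  refine Bd.sum fun x hx => Bd.single ?_ _
  rw [mem_product, mem_Icc, mem_Icc] at hx
  exact ⟨⟨by omega, by omega⟩, by exact_mod_cast hx.1.2, by exact_mod_cast hx.2.2⟩

lemma gN_Nn (N : ℕ) : Nn (gN N) := Nn.sum fun x _ => Nn.single x zero_le_one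

lemma gN_l1 (N : ℕ) : l1 (gN N) ≤ (N:ℝ) ^ 2 := by
  refine (l1_sum _ _).trans ?_
  simp only [l1_single, abs_one, sum_const, card_product, Nat.card_Icc, Nat.add_sub_cancel,
    nsmul_eq_mul, mul_one, Nat.cast_mul]
  rw [sq]

lemma gN_w1 (N : ℕ) : lam w1 (gN N) =
    ∑ a ∈ Icc 1 N, ∑ c ∈ Icc 1 N, (Nat.gcd a c : ℝ) / ((a:ℝ) * c) := by
  rw [gN, map_sum, sum_product]
  simp only [lam_single, one_mul, w1]

lemma gN_w0 (N : ℕ) : lam w0 (gN N * gN N) ≤ Hh N ^ 4 := by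
  refine le_trans (le_of_eq ?_) (quad_upper N)
  have h : gN N * gN N = ∑ x ∈ Icc 1 N ×ˢ Icc 1 N, ∑ y ∈ Icc 1 N ×ˢ Icc 1 N,
      (single x (1:ℝ) * single y (1:ℝ) : DA) := by
    unfold gN
    exact sum_mul_sum _ _ _ _
  have h2 : ∀ x y : ℕ × ℕ, lam w0 (single x (1:ℝ) * single y (1:ℝ) : DA) =
      (if x.1 * y.1 = x.2 * y.2 then 1 / ((x.1 * y.1 : ℕ) : ℝ) else 0) := by
    intro x y
    rw [MonoidAlgebra.single_mul_single, lam_single]
    simp only [one_mul, w0, Prod.fst_mul, Prod.snd_mul]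
  rw [h, map_sum, sum_product (s := Icc 1 N ×ˢ Icc 1 N) (t := Icc 1 N ×ˢ Icc 1 N)]
  refine sum_congr rfl fun x _ => ?_
  rw [map_sum]
  refine sum_congr rfl fun y _ => ?_
  rw [h2]

lemma gN_ev (t : ℝ) (N : ℕ) :
    ev t (gN N) = ((‖∑ a ∈ Icc 1 N, (a:ℂ) ^ (-(cl t))‖ ^ 2 : ℝ) : ℂ) := by
  have h1 : ∀ a ∈ Icc 1 N, ∑ c ∈ Icc 1 N, ev t (single (a, c) (1:ℝ)) =
      ∑ c ∈ Icc 1 N, (a:ℂ) ^ (-(cl t)) * (starRingEnd ℂ) ((c:ℂ) ^ (-(cl t))) := by
    intro a _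
    refine sum_congr rfl fun c hc => ?_
    rw [mem_Icc] at hc
    rw [ev_single, mh_eq t a (by omega)]
    simp
  rw [gN, map_sum, sum_product, sum_congr rfl h1, ← sum_mul_sum, ← map_sum, Complex.mul_conj']
  push_cast
  rfl

lemma gN_sq (t : ℝ) (N : ℕ) : (ev t (gN N * gN N)).re = (ev t (gN N)).re ^ 2 := by
  rw [map_mul, gN_ev, ← Complex.ofReal_mul, Complex.ofReal_re, Complex.ofReal_re]
  ring

theorem t_X4L : P_X4L := by
  obtain ⟨η, hη, h2⟩ := two_avg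
  obtain ⟨ρ, hρ0, hρ1, hρη⟩ : ∃ ρ : ℝ, 0 < ρ ∧ ρ ≤ 1 / 16 ∧ 16 * ρ ≤ η :=
    ⟨min η 1 / 16, by positivity, by have := min_le_right η 1; linarith,
      by have := min_le_left η 1; linarith⟩
  refine ⟨ρ ^ 6 / 128, by positivity, ?_⟩
  have hL := Real.tendsto_log_atTop
  have hsmall : ∀ᶠ T : ℝ in atTop, 4 * Real.log T ^ 2 * T ^ (-(1 / 4) : ℝ) ≤ 1 := by
    have h1 := (isLittleO_log_rpow_rpow_atTop (2:ℝ) (show (0:ℝ) < 1 / 4 by norm_num)).def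
      (show (0:ℝ) < 1 / 4 by norm_num)
    filter_upwards [h1, eventually_gt_atTop (1:ℝ)] with T hT hT1
    have hlog : 0 ≤ Real.log T := Real.log_nonneg hT1.le
    have hT0 : 0 < T := by linarith
    rw [Real.norm_of_nonneg (by positivity), Real.norm_of_nonneg (by positivity)] at hT
    have e : Real.log T ^ (2:ℝ) = Real.log T ^ 2 := by
      rw [← Real.rpow_natCast]; norm_num
    rw [e] at hT
    rw [Real.rpow_neg hT0.le, ← div_eq_mul_inv, div_le_one (by positivity)]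
    linarith
  filter_upwards [h2, eventually_gt_atTop (1:ℝ), hL.eventually_ge_atTop 8,
    hL.eventually_ge_atTop (16 / ρ ^ 3), hsmall] with T h2T hT1 hL8 hLρ hsm κ hκ
  set L := Real.log T with hLdef
  have hT0 : 0 < T := by linarith
  have hκ1 : 1 ≤ κ := by
    have := hκ.1
    have h2 : (1:ℝ) ≤ κ := by nlinarith
    exact_mod_cast h2
  have hκ0 : (0:ℝ) < κ := by exact_mod_cast hκ1
  have hδ : 0 < (κ:ℝ) / T := by positivity
  -- lengths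
  set M := ⌊T ^ ρ⌋₊ with hM
  set N := M * M with hN
  have hMle : (M:ℝ) ≤ T ^ ρ := Nat.floor_le (by positivity)
  have hMge : T ^ ρ ≤ (M:ℝ) + 1 := (Nat.lt_floor_add_one _).le
  have hNle : (N:ℝ) ≤ T ^ (2 * ρ) := by
    rw [hN]; push_cast
    calc (M:ℝ) * M ≤ T ^ ρ * T ^ ρ := mul_le_mul hMle hMle (by positivity) (by positivity)
      _ = T ^ (2 * ρ) := by rw [← Real.rpow_add hT0]; congr 1; ring
  have hHM : ρ * L ≤ Hh M := by
    refine le_trans ?_ (Hh_ge M)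
    rw [hLdef, ← Real.log_rpow hT0]
    exact Real.log_le_log (by positivity) hMge
  have hN1 : 1 ≤ N := by
    have h3 : (1:ℝ) ≤ T ^ ρ := Real.one_le_rpow hT1.le hρ0.le
    have h4 : 1 ≤ M := by rw [hM]; exact Nat.one_le_floor_iff _ |>.2 h3
    rw [hN]; exact Nat.mul_pos h4 h4
  have hlogN : Real.log N ≤ 2 * ρ * L := by
    rw [hLdef, ← Real.log_rpow hT0]
    exact Real.log_le_log (by exact_mod_cast hN1) hNle
  have hlogN0 : 0 ≤ Real.log N := Real.log_natCast_nonneg N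
  -- lower bound for the twisted second moment
  set S := lam w1 (gN N) with hS
  have hSlow : 1 / 2 * (ρ * L) ^ 3 ≤ S := by
    rw [hS, gN_w1]
    refine le_trans ?_ (S_lower M)
    have := pow_le_pow_left₀ (by positivity) hHM 3
    linarith
  have hS0 : 0 ≤ S := le_trans (by positivity) hSlow
  have hBd : Bd (T ^ ((1:ℝ) / 4)) (gN N) := by
    refine (gN_Bd N).mono (hNle.trans ?_)
    exact Real.rpow_le_rpow_of_exponent_le hT1.le (by linarith)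
  have hmain := h2T κ hκ (gN N) hBd
  have hyf := yf_bound hκ1 hT0
  rw [← hLdef] at hyf
  have hwl := wl_bound (gN_Nn N) (gN_Bd N)
  rw [← hS] at hwl
  have hl1 := gN_l1 N
  have hl1' : 2 * T ^ (-η) * l1 (gN N) ≤ 2 := by
    have h3 : l1 (gN N) ≤ T ^ (4 * ρ) := by
      refine hl1.trans ?_
      calc (N:ℝ) ^ 2 ≤ (T ^ (2 * ρ)) ^ 2 := pow_le_pow_left₀ (by positivity) hNle 2
        _ = T ^ (4 * ρ) := by
          rw [← Real.rpow_natCast, ← Real.rpow_mul hT0.le]; congr 1; push_cast; ring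
    calc 2 * T ^ (-η) * l1 (gN N) ≤ 2 * T ^ (-η) * T ^ (4 * ρ) :=
          mul_le_mul_of_nonneg_left h3 (by positivity)
      _ = 2 * T ^ (-η + 4 * ρ) := by rw [mul_assoc, ← Real.rpow_add hT0]
      _ ≤ 2 * 1 := by
          refine mul_le_mul_of_nonneg_left ?_ (by norm_num)
          exact Real.rpow_le_one_of_one_le_of_nonpos hT1.le (by linarith)
      _ = 2 := by norm_num
  set I2 := ∫ t in Set.Ioi (0:ℝ), wz κ T t * (ev t (gN N)).re with hI2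
  have hlow : ρ ^ 3 / 8 * L ^ 4 ≤ I2 := by
    have h3 := (abs_le.1 hmain).1
    have h4 := (abs_le.1 hyf).1
    have h5 := (abs_le.1 hwl).2
    have h6 : 2 * Real.log N * S ≤ 1 / 4 * L * S := by
      refine mul_le_mul_of_nonneg_right ?_ hS0
      nlinarith
    have h7 : (L - 2) * S ≤ (Real.log (Yf κ T) + Ck κ) * S :=
      mul_le_mul_of_nonneg_right (by linarith) hS0
    have h8 : 1 / 2 * L * S ≤ (L - 2 - 1 / 4 * L) * S :=
      mul_le_mul_of_nonneg_right (by linarith) hS0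
    have h9 : 1 / 2 * L * (1 / 2 * (ρ * L) ^ 3) ≤ 1 / 2 * L * S :=
      mul_le_mul_of_nonneg_left hSlow (by linarith)
    have h10 : 2 ≤ ρ ^ 3 / 8 * L ^ 4 := by
      have h11 : 16 ≤ ρ ^ 3 * L := by
        rw [div_le_iff₀ (by positivity)] at hLρ
        linarith
      have h12 : (1:ℝ) ≤ L ^ 3 := one_le_pow₀ (by linarith)
      nlinarith
    nlinarith
  -- upper bound for the fourth moment of the polynomial
  have hBd2 : Bd (T ^ (4 * ρ)) (gN N * gN N) := by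
    refine ((gN_Bd N).mul (gN_Bd N)).mono ?_
    calc (N:ℝ) * N ≤ T ^ (2 * ρ) * T ^ (2 * ρ) := mul_le_mul hNle hNle (by positivity) (by positivity)
      _ = T ^ (4 * ρ) := by rw [← Real.rpow_add hT0]; congr 1; ring
  have hT4 : (1:ℝ) ≤ T ^ (4 * ρ) := Real.one_le_rpow hT1.le (by linarith)
  have hl2 : l1 (gN N * gN N) ≤ T ^ (8 * ρ) := by
    refine (l1_mul _ _).trans ?_
    calc l1 (gN N) * l1 (gN N) ≤ (N:ℝ) ^ 2 * (N:ℝ) ^ 2 :=
          mul_le_mul hl1 hl1 (l1_nonneg _) (by positivity)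
      _ = (N:ℝ) ^ 4 := by ring
      _ ≤ (T ^ (2 * ρ)) ^ 4 := pow_le_pow_left₀ (by positivity) hNle 4
      _ = T ^ (8 * ρ) := by
          rw [← Real.rpow_natCast, ← Real.rpow_mul hT0.le]; congr 1; push_cast; ring
  have herr : T ^ (4 * ρ) * κ / T * T ^ (8 * ρ) ≤ 1 := by
    have h3 : T ^ (4 * ρ) * κ / T * T ^ (8 * ρ) = κ * T ^ (12 * ρ - 1) := by
      rw [Real.rpow_sub hT0, Real.rpow_one]
      have : T ^ (12 * ρ) = T ^ (4 * ρ) * T ^ (8 * ρ) := by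
        rw [← Real.rpow_add hT0]; congr 1; ring
      rw [this]; ring
    rw [h3]
    calc (κ:ℝ) * T ^ (12 * ρ - 1) ≤ (4 * L ^ 2) * T ^ (-(1 / 4) : ℝ) := by
          refine mul_le_mul hκ.2 ?_ (by positivity) (by positivity)
          exact Real.rpow_le_rpow_of_exponent_le hT1.le (by linarith)
      _ ≤ 1 := hsm
  have herr1 : T ^ (4 * ρ) * κ / T ≤ 1 := by
    have h3 : (1:ℝ) ≤ T ^ (8 * ρ) := Real.one_le_rpow hT1.le (by linarith)
    have h4 : 0 ≤ T ^ (4 * ρ) * κ / T := by positivity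
    exact (le_mul_of_one_le_right h4 h3).trans herr
  have hup0 := avgO hBd2 hT0 hκ1 hT4 herr1
  set I4 := ∫ t in Set.Ioi (0:ℝ), om κ (κ / T) t * (ev t (gN N * gN N)).re with hI4
  have hup : I4 ≤ 2 * L ^ 4 := by
    have h3 := (abs_le.1 hup0).2
    have h4 : T ^ (4 * ρ) * κ / T * l1 (gN N * gN N) ≤ 1 :=
      (mul_le_mul_of_nonneg_left hl2 (by positivity)).trans herr
    have h5 := gN_w0 N
    have h6 : Hh N ≤ L := by
      refine (Hh_le N).trans ?_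
      nlinarith
    have h7 := pow_le_pow_left₀ (Hh_nonneg N) h6 4
    have h8 : (1:ℝ) ≤ L ^ 4 := one_le_pow₀ (by linarith)
    linarith
  -- integrability
  have hc1 := ev_re_cont (gN_Bd N)
  have i1 : IntegrableOn (fun t => om κ (κ / T) t * Xz t ^ 4) (Set.Ioi 0) := by
    refine om_poly_int hδ (Xz_cont.pow 4) (C := 24 ^ 4) 8 fun t ht => ?_
    rw [abs_of_nonneg (pow_nonneg (Xz_nonneg t) 4)]
    calc Xz t ^ 4 ≤ (24 * (1 + t) ^ 2) ^ 4 := pow_le_pow_left₀ (Xz_nonneg t) (Xz_le ht) 4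
      _ = _ := by ring
  have i2 : IntegrableOn (fun t => wz κ T t * (ev t (gN N)).re) (Set.Ioi 0) :=
    wz_int κ hδ hc1 (C := l1 (gN N)) fun t => ev_re_le (gN_Bd N) t
  have i4 : IntegrableOn (fun t => om κ (κ / T) t * (ev t (gN N * gN N)).re) (Set.Ioi 0) := by
    refine om_poly_int hδ (ev_re_cont hBd2) (C := l1 (gN N * gN N)) 0 fun t _ => ?_
    rw [pow_zero, mul_one]
    exact ev_re_le hBd2 t
  have hW : W 4 κ T = ∫ t in Set.Ioi (0:ℝ), om κ (κ / T) t * Xz t ^ 4 := by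
    unfold W
    refine setIntegral_congr_fun measurableSet_Ioi fun t _ => ?_
    have : Xz t ^ (4:ℝ) = Xz t ^ 4 := by
      rw [← Real.rpow_natCast]; norm_num
    simp only [this]
  set lm : ℝ := ρ ^ 3 / 16 with hlm
  have hint : 2 * lm * I2 - lm ^ 2 * I4 ≤ W 4 κ T := by
    rw [hW, hI2, hI4, ← integral_const_mul, ← integral_const_mul,
      ← integral_sub (i2.const_mul _) (i4.const_mul _)]
    refine setIntegral_mono_on ((i2.const_mul _).sub (i4.const_mul _)) i1 measurableSet_Ioi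
      fun t ht => ?_
    have ht0 : (0:ℝ) ≤ t := le_of_lt ht
    have h3 := om_nn κ hδ ht0
    have h4 : wz κ T t = om κ (κ / T) t * Xz t ^ 2 := rfl
    rw [gN_sq, h4]
    have h5 := mul_nonneg h3 (sq_nonneg (Xz t ^ 2 - lm * (ev t (gN N)).re))
    nlinarith
  refine le_trans ?_ hint
  have hlm0 : 0 < lm := by positivity
  have h3 : 2 * lm * (ρ ^ 3 / 8 * L ^ 4) ≤ 2 * lm * I2 :=
    mul_le_mul_of_nonneg_left hlow (by positivity)
  have h4 : lm ^ 2 * I4 ≤ lm ^ 2 * (2 * L ^ 4) := mul_le_mul_of_nonneg_left hup (by positivity)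
  have h5 : ρ ^ 6 / 128 * L ^ 4 = 2 * lm * (ρ ^ 3 / 8 * L ^ 4) - lm ^ 2 * (2 * L ^ 4) := by
    rw [hlm]; ring
  linarith

end Pool.Agent.TH445.N4_X4L
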